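import Pool.Agent.H18.PB.Defs
import Pool.Agent.H13.K2S.OcDefs

/-!
# Contexts of the slope law: box coordinates, polynomial labels in the box, the exact identity

The passive coordinate is `i₁`; in polynomials the variable `i₁` is the time (`Pool.PB.bp`).
The box of a line: window `w`, cell of side `2 ^ (-a)` of the base position at the beginning of the
window, moving with the base velocity rounded to `q` digits. Box coordinates: the time `τ` in units
of the window in the slot `i₁`, the base position relative to the centre in units `2 ^ (-a)`.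
-/

set_option autoImplicit false

namespace Pool.SLO

open Finset Real MvPolynomial
open Pool.Agent.H49.Ent Pool.Agent.H32.Dense Pool.STK Pool.KA Pool.KSAT Pool.K2S Pool.PB

section box

variable {m : ℕ}

/-- From box coordinates to base coordinates; `c` is the corner (with the time of the beginning of
the window in the slot `i₁`), `D` the velocity of the box. -/
noncomputable def sb (i₁ : Fin m) (a w : ℕ) (c D b : Fin m → ℝ) : Fin m → ℝ := fun j =>
  if j = i₁ then c i₁ + b i₁ / 2 ^ w else c j + D j * (b i₁ / 2 ^ w) + b j / 2 ^ a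

/-- The polynomials of the change of coordinates. -/
noncomputable def bxp (i₁ : Fin m) (a w : ℕ) (c D : Fin m → ℝ) (j : Fin m) :
    MvPolynomial (Fin m) ℝ :=
  if j = i₁ then C (c i₁) + C (1 / 2 ^ w) * X i₁
  else C (c j) + C (D j / 2 ^ w) * X i₁ + C (1 / 2 ^ a) * X j

/-- The polynomial in box coordinates. -/
noncomputable def pull (i₁ : Fin m) (a w : ℕ) (c D : Fin m → ℝ) (G : MvPolynomial (Fin m) ℝ) :
    MvPolynomial (Fin m) ℝ := bind₁ (bxp i₁ a w c D) G

theorem eval_bxp (i₁ : Fin m) (a w : ℕ) (c D b : Fin m → ℝ) (j : Fin m) :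
    eval b (bxp i₁ a w c D j) = sb i₁ a w c D b j := by
  unfold bxp sb
  split_ifs with h
  · simp only [map_add, map_mul, eval_C, eval_X]
    ring
  · simp only [map_add, map_mul, eval_C, eval_X]
    ring

theorem eval_pull (i₁ : Fin m) (a w : ℕ) (c D b : Fin m → ℝ) (G : MvPolynomial (Fin m) ℝ) :
    eval b (pull i₁ a w c D G) = eval (sb i₁ a w c D b) G := by
  unfold pull
  rw [eval, eval₂Hom_bind₁]
  congr 1
  congr 1
  funext j
  exact eval_bxp i₁ a w c D b j

theorem totalDegree_bxp (i₁ : Fin m) (a w : ℕ) (c D : Fin m → ℝ) (j : Fin m) :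
    (bxp i₁ a w c D j).totalDegree ≤ 1 := by
  have h : ∀ (x : ℝ) (k : Fin m), (C x * X k : MvPolynomial (Fin m) ℝ).totalDegree ≤ 1 := by
    intro x k
    refine (totalDegree_mul _ _).trans ?_
    rw [totalDegree_C, totalDegree_X]
  have h0 : ∀ x : ℝ, (C x : MvPolynomial (Fin m) ℝ).totalDegree ≤ 1 := by
    intro x
    rw [totalDegree_C]
    exact Nat.zero_le _
  unfold bxp
  split_ifs
  · exact (totalDegree_add _ _).trans (max_le (h0 _) (h _ _))
  · exact (totalDegree_add _ _).trans (max_le ((totalDegree_add _ _).trans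
      (max_le (h0 _) (h _ _))) (h _ _))

theorem totalDegree_bind₁_le {σ τ : Type} (f : σ → MvPolynomial τ ℝ)
    (hf : ∀ i, (f i).totalDegree ≤ 1) (G : MvPolynomial σ ℝ) :
    (bind₁ f G).totalDegree ≤ G.totalDegree := by
  classical
  rw [← aeval_eq_bind₁, aeval_def, eval₂_eq]
  refine (totalDegree_finset_sum _ _).trans (Finset.sup_le fun s hs => ?_)
  refine (totalDegree_mul _ _).trans ?_
  have h1 : (algebraMap ℝ (MvPolynomial τ ℝ) (coeff s G)).totalDegree = 0 := totalDegree_C _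
  rw [h1, zero_add]
  refine (totalDegree_finset_prod _ _).trans ?_
  refine le_trans ?_ (le_totalDegree hs)
  rw [Finsupp.sum]
  refine Finset.sum_le_sum fun i _ => ?_
  refine (totalDegree_pow _ _).trans ?_
  calc s i * (f i).totalDegree ≤ s i * 1 := Nat.mul_le_mul_left _ (hf i)
    _ = s i := mul_one _

theorem totalDegree_pull_le (i₁ : Fin m) (a w : ℕ) (c D : Fin m → ℝ)
    (G : MvPolynomial (Fin m) ℝ) : (pull i₁ a w c D G).totalDegree ≤ G.totalDegree :=
  totalDegree_bind₁_le _ (totalDegree_bxp i₁ a w c D) G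

/-- The rounded coefficients. -/
noncomputable def hz (P : ℕ) (G : MvPolynomial (Fin m) ℝ) (s : Fin m →₀ ℕ) : ℤ :=
  ⌊(2 : ℝ) ^ P * coeff s G⌋

open Classical in
/-- The exponents of total degree at most `K`. -/
noncomputable def mons (m K : ℕ) : Finset (Fin m →₀ ℕ) :=
  ((Finset.univ : Finset (Fin m → Fin (K + 1))).image fun f =>
    Finsupp.equivFunOnFinite.symm fun i => (f i : ℕ)).filter fun s => s.sum (fun _ e => e) ≤ K

theorem mem_mons {K : ℕ} {s : Fin m →₀ ℕ} : s ∈ mons m K ↔ s.sum (fun _ e => e) ≤ K := by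
  classical
  unfold mons
  rw [Finset.mem_filter]
  refine ⟨fun h => h.2, fun h => ⟨?_, h⟩⟩
  rw [Finset.mem_image]
  have h1 : ∀ i, s i < K + 1 := by
    intro i
    refine Nat.lt_succ_of_le (le_trans ?_ h)
    by_cases hi : s i = 0
    · rw [hi]
      exact Nat.zero_le _
    · exact Finset.single_le_sum (f := fun i => s i) (fun _ _ => Nat.zero_le _)
        (Finsupp.mem_support_iff.2 hi)
  refine ⟨fun i => ⟨s i, h1 i⟩, Finset.mem_univ _, ?_⟩
  ext i
  simp

/-- The polynomial of degree at most `K` with the coefficients `z s / 2 ^ P`. -/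
noncomputable def rdz (K P : ℕ) (z : (Fin m →₀ ℕ) → ℤ) : MvPolynomial (Fin m) ℝ :=
  ∑ s ∈ mons m K, monomial s ((z s : ℝ) / 2 ^ P)

/-- The polynomial with coefficients rounded to `P` digits. -/
noncomputable def rdp (K P : ℕ) (G : MvPolynomial (Fin m) ℝ) : MvPolynomial (Fin m) ℝ :=
  rdz K P (hz P G)

theorem totalDegree_rdz (K P : ℕ) (z : (Fin m →₀ ℕ) → ℤ) : (rdz K P z).totalDegree ≤ K := by
  classical
  unfold rdz
  refine (totalDegree_finset_sum _ _).trans (Finset.sup_le fun s hs => ?_)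
  exact (totalDegree_monomial_le _ _).trans (mem_mons.1 hs)

theorem eval_rdz (K P : ℕ) (z : (Fin m →₀ ℕ) → ℤ) (b : Fin m → ℝ) :
    eval b (rdz K P z) = ∑ s ∈ mons m K, (z s : ℝ) / 2 ^ P * ∏ i, b i ^ s i := by
  classical
  unfold rdz
  rw [map_sum]
  refine Finset.sum_congr rfl fun s _ => ?_
  rw [eval_monomial, Finsupp.prod_fintype]
  intro i
  exact pow_zero _

theorem eval_of_degree {K : ℕ} {G : MvPolynomial (Fin m) ℝ} (hG : G.totalDegree ≤ K)
    (b : Fin m → ℝ) : eval b G = ∑ s ∈ mons m K, coeff s G * ∏ i, b i ^ s i := by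
  classical
  rw [eval_eq']
  refine Finset.sum_subset (fun s hs => mem_mons.2 ((le_totalDegree hs).trans hG))
    fun s _ hs => ?_
  rw [notMem_support_iff.1 hs, zero_mul]

/-- Rounding changes the values by at most `#mons / 2 ^ P`. -/
theorem abs_rdp_le {K P : ℕ} {G : MvPolynomial (Fin m) ℝ} (hG : G.totalDegree ≤ K)
    {b : Fin m → ℝ} (hb : ∀ i, |b i| ≤ 1) :
    |eval b G - eval b (rdp K P G)| ≤ (mons m K).card / 2 ^ P := by
  classical
  unfold rdp
  rw [eval_of_degree hG, eval_rdz, ← Finset.sum_sub_distrib]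
  refine (Finset.abs_sum_le_sum_abs _ _).trans ?_
  have h : ∀ s ∈ mons m K, |coeff s G * ∏ i, b i ^ s i -
      (hz P G s : ℝ) / 2 ^ P * ∏ i, b i ^ s i| ≤ 1 / 2 ^ P := by
    intro s _
    rw [← sub_mul, abs_mul]
    have h1 : |coeff s G - (hz P G s : ℝ) / 2 ^ P| ≤ 1 / 2 ^ P := by
      have hP : (0 : ℝ) < 2 ^ P := by positivity
      have a1 := Int.floor_le ((2 : ℝ) ^ P * coeff s G)
      have a2 := Int.lt_floor_add_one ((2 : ℝ) ^ P * coeff s G)
      have e : coeff s G - (hz P G s : ℝ) / 2 ^ P =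
          (2 ^ P * coeff s G - (hz P G s : ℝ)) / 2 ^ P := by
        field_simp
      rw [e, abs_div, abs_of_pos hP]
      refine div_le_div_of_nonneg_right ?_ hP.le
      unfold hz
      rw [abs_le]
      constructor <;> linarith
    have h2 : |∏ i, b i ^ s i| ≤ 1 := by
      rw [Finset.abs_prod]
      refine Finset.prod_le_one (fun i _ => abs_nonneg _) fun i _ => ?_
      rw [abs_pow]
      exact pow_le_one₀ (abs_nonneg _) (hb i)
    calc _ ≤ 1 / 2 ^ P * 1 := mul_le_mul h1 h2 (abs_nonneg _) (by positivity)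
      _ = 1 / 2 ^ P := mul_one _
  refine (Finset.sum_le_sum h).trans ?_
  rw [Finset.sum_const, nsmul_eq_mul, mul_one_div]

/-- Restriction to the line `b i = y i + τ om i`, `b i₁ = τ`. -/
noncomputable def lin (i₁ : Fin m) (y om : Fin m → ℝ) (G : MvPolynomial (Fin m) ℝ) :
    Polynomial ℝ :=
  aeval (fun i => if i = i₁ then (Polynomial.X : Polynomial ℝ)
    else Polynomial.C (y i) + Polynomial.X * Polynomial.C (om i)) G

/-- The point of the box at the time `τ`. -/
noncomputable def pnt (i₁ : Fin m) (y om : Fin m → ℝ) (τ : ℝ) : Fin m → ℝ := fun i =>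
  if i = i₁ then τ else y i + τ * om i

theorem eval_lin (i₁ : Fin m) (y om : Fin m → ℝ) (G : MvPolynomial (Fin m) ℝ) (τ : ℝ) :
    (lin i₁ y om G).eval τ = eval (pnt i₁ y om τ) G := by
  unfold lin
  induction G using MvPolynomial.induction_on with
  | C x => simp
  | add p q hp hq => simp only [map_add, Polynomial.eval_add, hp, hq]
  | mul_X p k hp =>
    rw [map_mul, map_mul, Polynomial.eval_mul, hp, aeval_X, eval_X]
    congr 1
    unfold pnt
    split_ifs
    · exact Polynomial.eval_X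
    · rw [Polynomial.eval_add, Polynomial.eval_mul, Polynomial.eval_C, Polynomial.eval_C,
        Polynomial.eval_X]

theorem natDegree_lin_le (i₁ : Fin m) (y om : Fin m → ℝ) (G : MvPolynomial (Fin m) ℝ) :
    (lin i₁ y om G).natDegree ≤ G.totalDegree := by
  classical
  unfold lin
  rw [aeval_def, eval₂_eq]
  refine Polynomial.natDegree_sum_le_of_forall_le _ _ fun s hs => ?_
  refine (Polynomial.natDegree_mul_le).trans ?_
  have h1 : (algebraMap ℝ (Polynomial ℝ) (coeff s G)).natDegree = 0 :=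
    Polynomial.natDegree_C _
  rw [h1, zero_add]
  refine (Polynomial.natDegree_prod_le _ _).trans (le_trans ?_ (le_totalDegree hs))
  rw [Finsupp.sum]
  refine Finset.sum_le_sum fun i _ => ?_
  refine Polynomial.natDegree_pow_le.trans ?_
  have h2 : (if i = i₁ then (Polynomial.X : Polynomial ℝ)
      else Polynomial.C (y i) + Polynomial.X * Polynomial.C (om i)).natDegree ≤ 1 := by
    split_ifs
    · exact Polynomial.natDegree_X_le
    · refine (Polynomial.natDegree_add_le _ _).trans (max_le ?_ ?_)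
      · rw [Polynomial.natDegree_C]
        exact Nat.zero_le _
      · exact (Polynomial.natDegree_mul_C_le _ _).trans Polynomial.natDegree_X_le
  calc _ ≤ s i * 1 := Nat.mul_le_mul_left _ h2
    _ = s i := mul_one _

end box

section fam

variable {m J : ℕ}

/-- The corner of the box: the beginning of the window in the slot `i₁`, the base position at this
time rounded to `a` digits. -/
noncomputable def cw (F : Fam m J) (i₁ : Fin m) (a w : ℕ) (ω : F.Ω) : Fin m → ℝ := fun j =>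
  if j = i₁ then (F.T1 w ω : ℝ) / 2 ^ w else (⌊(2 : ℝ) ^ a * F.x1 w ω j⌋ : ℝ) / 2 ^ a

/-- The velocity of the box: the base velocity rounded to `q` digits. -/
noncomputable def dq (F : Fam m J) (i₁ : Fin m) (q : ℕ) (ω : F.Ω) : Fin m → ℝ := fun j =>
  if j = i₁ then 0 else (⌊(2 : ℝ) ^ q * F.d ω j⌋ : ℝ) / 2 ^ q

/-- The line in the box at the beginning of the window. -/
noncomputable def yb (F : Fam m J) (i₁ : Fin m) (a w : ℕ) (ω : F.Ω) : Fin m → ℝ := fun j =>
  if j = i₁ then 0 else 2 ^ a * (F.x1 w ω j - cw F i₁ a w ω j)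

/-- The velocity of the line in the box. -/
noncomputable def omb (F : Fam m J) (i₁ : Fin m) (a w q : ℕ) (ω : F.Ω) : Fin m → ℝ := fun j =>
  if j = i₁ then 0 else 2 ^ a / 2 ^ w * (F.d ω j - dq F i₁ q ω j)

/-- The sample in box coordinates. -/
noncomputable def pb (F : Fam m J) (i₁ : Fin m) (a w q : ℕ) (ω : F.Ω) : Fin m → ℝ :=
  pnt i₁ (yb F i₁ a w ω) (omb F i₁ a w q ω) (F.tw w ω)

/-- A polynomial in the box of the sample. -/
noncomputable def plb (F : Fam m J) (i₁ : Fin m) (a w q : ℕ) (ω : F.Ω)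
    (G : MvPolynomial (Fin m) ℝ) : MvPolynomial (Fin m) ℝ :=
  pull i₁ a w (cw F i₁ a w ω) (dq F i₁ q ω) G

theorem yb_mem (F : Fam m J) (i₁ : Fin m) (a w : ℕ) (ω : F.Ω) (j : Fin m) :
    0 ≤ yb F i₁ a w ω j ∧ yb F i₁ a w ω j < 1 := by
  unfold yb cw
  split_ifs with h
  · exact ⟨le_rfl, one_pos⟩
  · have e : (2 : ℝ) ^ a * (F.x1 w ω j - (⌊(2 : ℝ) ^ a * F.x1 w ω j⌋ : ℝ) / 2 ^ a) =
        Int.fract ((2 : ℝ) ^ a * F.x1 w ω j) := by
      unfold Int.fract
      field_simp
    rw [e]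
    exact ⟨Int.fract_nonneg _, Int.fract_lt_one _⟩

theorem omb_mem (F : Fam m J) (i₁ : Fin m) (a w q : ℕ) (ω : F.Ω) (j : Fin m) :
    0 ≤ omb F i₁ a w q ω j ∧ omb F i₁ a w q ω j ≤ 2 ^ a / (2 ^ w * 2 ^ q) := by
  have h0 : (0 : ℝ) ≤ 2 ^ a / (2 ^ w * 2 ^ q) := by positivity
  unfold omb dq
  split_ifs with h
  · exact ⟨le_rfl, h0⟩
  · have hq : (0 : ℝ) < 2 ^ q := by positivity
    have e : F.d ω j - (⌊(2 : ℝ) ^ q * F.d ω j⌋ : ℝ) / 2 ^ q =
        Int.fract ((2 : ℝ) ^ q * F.d ω j) / 2 ^ q := by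
      unfold Int.fract
      field_simp
    rw [e]
    have h1 := Int.fract_nonneg ((2 : ℝ) ^ q * F.d ω j)
    have h2 := (Int.fract_lt_one ((2 : ℝ) ^ q * F.d ω j)).le
    constructor
    · positivity
    · have e2 : (2 : ℝ) ^ a / (2 ^ w * 2 ^ q) = 2 ^ a / 2 ^ w * (1 / 2 ^ q) := by
        field_simp
      rw [e2]
      exact mul_le_mul_of_nonneg_left (div_le_div_of_nonneg_right h2 hq.le) (by positivity)

/-- The sample in base coordinates and in box coordinates. -/
theorem sb_pb (F : Fam m J) (i₁ : Fin m) (a w q : ℕ) (ω : F.Ω) :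
    sb i₁ a w (cw F i₁ a w ω) (dq F i₁ q ω) (pb F i₁ a w q ω) = bp F i₁ ω := by
  funext j
  have ht : (F.T1 w ω : ℝ) / 2 ^ w + F.tw w ω / 2 ^ w = F.t ω := by
    unfold Fam.tw
    field_simp
    ring
  unfold sb pb pnt bp
  by_cases hj : j = i₁
  · subst hj
    simp only [if_true, Function.update_self]
    unfold cw
    rw [if_pos rfl]
    exact ht
  · simp only [if_neg hj, if_true, Function.update_of_ne hj]
    unfold yb omb
    simp only [if_neg hj]
    have hx : F.x ω j = F.x1 w ω j + F.tw w ω / 2 ^ w * F.d ω j := by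
      unfold Fam.x Fam.x1
      rw [← ht]
      ring
    rw [hx]
    field_simp
    ring

/-- The passive coordinate on the line, as a polynomial in the box time. -/
noncomputable def npl (F : Fam m J) (i₁ : Fin m) (w : ℕ) (ω : F.Ω) : Polynomial ℝ :=
  Polynomial.C (F.x1 w ω i₁) + Polynomial.C (F.d ω i₁ / 2 ^ w) * Polynomial.X

theorem eval_npl (F : Fam m J) (i₁ : Fin m) (w : ℕ) (ω : F.Ω) :
    (npl F i₁ w ω).eval (F.tw w ω) = F.x ω i₁ := by
  have ht : (F.T1 w ω : ℝ) / 2 ^ w + F.tw w ω / 2 ^ w = F.t ω := by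
    unfold Fam.tw
    field_simp
    ring
  unfold npl Fam.x Fam.x1
  simp only [Polynomial.eval_add, Polynomial.eval_mul, Polynomial.eval_C, Polynomial.eval_X]
  rw [← ht]
  ring

/-- **The line polynomial**: the height of the line over the graph of the polynomial `R` (in box
coordinates), in units `2 ^ (-P)`. -/
noncomputable def lpl (F : Fam m J) (i₁ : Fin m) (a w q P : ℕ) (R : MvPolynomial (Fin m) ℝ)
    (ω : F.Ω) : Polynomial ℝ :=
  Polynomial.C (2 ^ P) *
    (npl F i₁ w ω - lin i₁ (yb F i₁ a w ω) (omb F i₁ a w q ω) R)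

/-- The height over the centre of the box of the own sheet `G` (in box coordinates) over `R`. -/
noncomputable def nub (P : ℕ) (i₁ : Fin m) (G R : MvPolynomial (Fin m) ℝ) (τ : ℝ) : ℝ :=
  2 ^ P * (eval (pnt i₁ 0 0 τ) G - eval (pnt i₁ 0 0 τ) R)

/-- The shape of the own sheet at the point `b` of the box. -/
noncomputable def shp (P : ℕ) (i₁ : Fin m) (G R : MvPolynomial (Fin m) ℝ) (b : Fin m → ℝ) : ℝ :=
  2 ^ P * (eval b G - eval b R) - nub P i₁ G R (b i₁)

/-- **The exact identity.** `G` is any polynomial in base coordinates (the own sheet), `R` any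
polynomial in box coordinates (the label of the context). -/
theorem identity (F : Fam m J) (i₁ : Fin m) (a w q P : ℕ) (G R : MvPolynomial (Fin m) ℝ)
    (ω : F.Ω) :
    (lpl F i₁ a w q P R ω).eval (F.tw w ω) =
      nub P i₁ (plb F i₁ a w q ω G) R (F.tw w ω) +
        shp P i₁ (plb F i₁ a w q ω G) R (pb F i₁ a w q ω) +
        2 ^ P * (F.x ω i₁ - eval (bp F i₁ ω) G) := by
  have h1 : eval (pb F i₁ a w q ω) (plb F i₁ a w q ω G) = eval (bp F i₁ ω) G := by
    unfold plb
    rw [eval_pull, sb_pb]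
  have h2 : pb F i₁ a w q ω i₁ = F.tw w ω := by
    unfold pb pnt
    rw [if_pos rfl]
  unfold shp lpl
  rw [h1, h2, Polynomial.eval_mul, Polynomial.eval_C, Polynomial.eval_sub, eval_npl, eval_lin]
  change 2 ^ P * (F.x ω i₁ - eval (pb F i₁ a w q ω) R) = _
  ring

theorem natDegree_lpl (F : Fam m J) (i₁ : Fin m) (a w q P K : ℕ) (R : MvPolynomial (Fin m) ℝ)
    (hK : 1 ≤ K) (hR : R.totalDegree ≤ K) (ω : F.Ω) :
    (lpl F i₁ a w q P R ω).natDegree ≤ K := by
  unfold lpl
  refine (Polynomial.natDegree_C_mul_le _ _).trans ?_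
  refine (Polynomial.natDegree_sub_le _ _).trans (max_le ?_ ((natDegree_lin_le _ _ _ _).trans hR))
  unfold npl
  refine le_trans ?_ hK
  compute_degree

/-! ### The context -/

/-- The cell of the base position at the beginning of the window. -/
noncomputable def clp (F : Fam m J) (i₁ : Fin m) (a w : ℕ) (ω : F.Ω) : Fin m → ℤ := fun j =>
  if j = i₁ then 0 else ⌊(2 : ℝ) ^ a * F.x1 w ω j⌋

/-- The cell of the base velocity. -/
noncomputable def cld (F : Fam m J) (i₁ : Fin m) (q : ℕ) (ω : F.Ω) : Fin m → ℤ := fun j =>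
  if j = i₁ then 0 else ⌊(2 : ℝ) ^ q * F.d ω j⌋

/-- **The context**: the window, the cells of the base position (`a` digits) and of the base
velocity (`q` digits), the coefficients of the label `H` in box coordinates rounded to `P` digits,
the side information. -/
noncomputable def ctx (F : Fam m J) (i₁ : Fin m) (a w q P : ℕ)
    (H : ((Fin m → ℝ) × (Fin m → ℝ)) × F.ζ × ℕ → MvPolynomial (Fin m) ℝ) (ω : F.Ω) :
    ((ℕ × ((Fin m → ℤ) × (Fin m → ℤ))) × ((Fin m →₀ ℕ) → ℤ)) × F.ζ :=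
  (((F.T1 w ω, (clp F i₁ a w ω, cld F i₁ q ω)), hz P (plb F i₁ a w q ω (H (slam F w ω)))),
    F.Z ω)

/-- The rounded label of the context, in box coordinates. -/
noncomputable def Rc (F : Fam m J) (i₁ : Fin m) (a w q K P : ℕ)
    (H : ((Fin m → ℝ) × (Fin m → ℝ)) × F.ζ × ℕ → MvPolynomial (Fin m) ℝ) (ω : F.Ω) :
    MvPolynomial (Fin m) ℝ := rdp K P (plb F i₁ a w q ω (H (slam F w ω)))

theorem cw_eq (F : Fam m J) (i₁ : Fin m) (a w : ℕ) (ω : F.Ω) :
    cw F i₁ a w ω = fun j => if j = i₁ then (F.T1 w ω : ℝ) / 2 ^ w else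
      (clp F i₁ a w ω j : ℝ) / 2 ^ a := by
  funext j
  unfold cw clp
  split_ifs <;> rfl

theorem dq_eq (F : Fam m J) (i₁ : Fin m) (q : ℕ) (ω : F.Ω) :
    dq F i₁ q ω = fun j => if j = i₁ then 0 else (cld F i₁ q ω j : ℝ) / 2 ^ q := by
  funext j
  unfold dq cld
  split_ifs <;> rfl

/-- The box and the rounded label are functions of the context. -/
theorem ctx_ext {F : Fam m J} {i₁ : Fin m} {a w q P : ℕ}
    {H : ((Fin m → ℝ) × (Fin m → ℝ)) × F.ζ × ℕ → MvPolynomial (Fin m) ℝ} {ω ω' : F.Ω}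
    (h : ctx F i₁ a w q P H ω = ctx F i₁ a w q P H ω') :
    F.T1 w ω = F.T1 w ω' ∧ clp F i₁ a w ω = clp F i₁ a w ω' ∧ cld F i₁ q ω = cld F i₁ q ω' ∧
      cw F i₁ a w ω = cw F i₁ a w ω' ∧ dq F i₁ q ω = dq F i₁ q ω' ∧
      hz P (plb F i₁ a w q ω (H (slam F w ω))) = hz P (plb F i₁ a w q ω' (H (slam F w ω'))) ∧
      (∀ K, Rc F i₁ a w q K P H ω = Rc F i₁ a w q K P H ω') ∧ F.Z ω = F.Z ω' := by
  have h1 := Prod.ext_iff.mp h
  have h2 := Prod.ext_iff.mp h1.1
  have h3 := Prod.ext_iff.mp h2.1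
  have h4 := Prod.ext_iff.mp h3.2
  have e1 : F.T1 w ω = F.T1 w ω' := h3.1
  have e2 : clp F i₁ a w ω = clp F i₁ a w ω' := h4.1
  have e3 : cld F i₁ q ω = cld F i₁ q ω' := h4.2
  have e4 : hz P (plb F i₁ a w q ω (H (slam F w ω))) =
      hz P (plb F i₁ a w q ω' (H (slam F w ω'))) := h2.2
  refine ⟨e1, e2, e3, ?_, ?_, e4, fun K => ?_, h1.2⟩
  · rw [cw_eq, cw_eq, e1, e2]
  · rw [dq_eq, dq_eq, e3]
  · unfold Rc rdp
    rw [e4]

/-- The context, the box, the line in the box and the line polynomial are functions of the line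
and the window. -/
theorem of_slam {F : Fam m J} {w : ℕ} {ω ω' : F.Ω} (h : slam F w ω = slam F w ω') :
    F.T1 w ω = F.T1 w ω' ∧ F.d ω = F.d ω' ∧ F.x1 w ω = F.x1 w ω' ∧ F.Z ω = F.Z ω' := by
  have h1 := Prod.ext_iff.mp h
  have h2 := Prod.ext_iff.mp h1.2
  have h3 := Prod.ext_iff.mp h1.1
  have eT : F.T1 w ω = F.T1 w ω' := h2.2
  have eu : F.u ω = F.u ω' := h3.1
  have ed : F.d ω = F.d ω' := h3.2
  refine ⟨eT, ed, ?_, h2.1⟩
  funext j
  unfold Fam.x1
  rw [eT, eu, ed]

theorem box_of_slam {F : Fam m J} {i₁ : Fin m} {a w q : ℕ} {ω ω' : F.Ω}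
    (h : slam F w ω = slam F w ω') :
    cw F i₁ a w ω = cw F i₁ a w ω' ∧ dq F i₁ q ω = dq F i₁ q ω' ∧
      yb F i₁ a w ω = yb F i₁ a w ω' ∧ omb F i₁ a w q ω = omb F i₁ a w q ω' ∧
      npl F i₁ w ω = npl F i₁ w ω' := by
  obtain ⟨e1, e2, e3, -⟩ := of_slam h
  have c1 : cw F i₁ a w ω = cw F i₁ a w ω' := by
    unfold cw
    rw [e1, e3]
  have c2 : dq F i₁ q ω = dq F i₁ q ω' := by
    unfold dq
    rw [e2]
  refine ⟨c1, c2, ?_, ?_, ?_⟩
  · unfold yb
    rw [e3, c1]
  · unfold omb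
    rw [e2, c2]
  · unfold npl
    rw [e3, e2]

theorem ctx_of_slam {F : Fam m J} {i₁ : Fin m} {a w q P : ℕ}
    {H : ((Fin m → ℝ) × (Fin m → ℝ)) × F.ζ × ℕ → MvPolynomial (Fin m) ℝ} {ω ω' : F.Ω}
    (h : slam F w ω = slam F w ω') : ctx F i₁ a w q P H ω = ctx F i₁ a w q P H ω' := by
  obtain ⟨e1, e2, e3, e4⟩ := of_slam h
  obtain ⟨c1, c2, -, -, -⟩ := box_of_slam (i₁ := i₁) (a := a) (q := q) h
  have c3 : clp F i₁ a w ω = clp F i₁ a w ω' := by
    unfold clp
    rw [e3]
  have c4 : cld F i₁ q ω = cld F i₁ q ω' := by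
    unfold cld
    rw [e2]
  unfold ctx plb
  rw [e1, c3, c4, c1, c2, h, e4]

theorem lpl_of_slam {F : Fam m J} {i₁ : Fin m} {a w q P : ℕ} {R : MvPolynomial (Fin m) ℝ}
    {ω ω' : F.Ω} (h : slam F w ω = slam F w ω') :
    lpl F i₁ a w q P R ω = lpl F i₁ a w q P R ω' := by
  obtain ⟨-, -, c3, c4, c5⟩ := box_of_slam (i₁ := i₁) (a := a) (q := q) h
  unfold lpl
  rw [c3, c4, c5]

/-- The line polynomial of the context: the label is rounded to `P` digits, the unit is
`2 ^ (-e)`. -/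
noncomputable def cl (F : Fam m J) (i₁ : Fin m) (a w q K P e : ℕ)
    (H : ((Fin m → ℝ) × (Fin m → ℝ)) × F.ζ × ℕ → MvPolynomial (Fin m) ℝ) (ω : F.Ω) :
    Polynomial ℝ := lpl F i₁ a w q e (Rc F i₁ a w q K P H ω) ω

theorem cl_of_slam {F : Fam m J} {i₁ : Fin m} {a w q K P e : ℕ}
    {H : ((Fin m → ℝ) × (Fin m → ℝ)) × F.ζ × ℕ → MvPolynomial (Fin m) ℝ} {ω ω' : F.Ω}
    (h : slam F w ω = slam F w ω') : cl F i₁ a w q K P e H ω = cl F i₁ a w q K P e H ω' := by
  have h1 := (ctx_ext (ctx_of_slam (i₁ := i₁) (a := a) (q := q) (P := P) (H := H) h)).2.2.2.2.2.2.1 K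
  unfold cl
  rw [h1]
  exact lpl_of_slam h

theorem natDegree_cl (F : Fam m J) (i₁ : Fin m) (a w q K P e : ℕ) (hK : 1 ≤ K)
    (H : ((Fin m → ℝ) × (Fin m → ℝ)) × F.ζ × ℕ → MvPolynomial (Fin m) ℝ) (ω : F.Ω) :
    (cl F i₁ a w q K P e H ω).natDegree ≤ K :=
  natDegree_lpl F i₁ a w q e K _ hK (totalDegree_rdz _ _ _) ω

/-- The coefficients of order at least two are functions of the rounded label and of the line in
the base. -/
theorem cl_coeff (F : Fam m J) (i₁ : Fin m) (a w q K P e : ℕ)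
    (H : ((Fin m → ℝ) × (Fin m → ℝ)) × F.ζ × ℕ → MvPolynomial (Fin m) ℝ) (ω : F.Ω) (i : ℕ)
    (hi : 2 ≤ i) : (cl F i₁ a w q K P e H ω).coeff i =
      -(2 ^ e * (lin i₁ (yb F i₁ a w ω) (omb F i₁ a w q ω) (Rc F i₁ a w q K P H ω)).coeff i) := by
  unfold cl lpl npl
  rw [Polynomial.coeff_C_mul, Polynomial.coeff_sub, Polynomial.coeff_add, Polynomial.coeff_C,
    Polynomial.coeff_C_mul, Polynomial.coeff_X]
  rw [if_neg (by omega), if_neg (by omega)]
  ring

/-- **The identity for the context**: the line polynomial at the time of the sample is the height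
of the own sheet over the centre plus its shape at the sample, up to the error of the own
sheet. -/
theorem cl_identity (F : Fam m J) (i₁ : Fin m) (a w q K P e : ℕ) (G : MvPolynomial (Fin m) ℝ)
    (H : ((Fin m → ℝ) × (Fin m → ℝ)) × F.ζ × ℕ → MvPolynomial (Fin m) ℝ) (ω : F.Ω) :
    (cl F i₁ a w q K P e H ω).eval (F.tw w ω) =
      nub e i₁ (plb F i₁ a w q ω G) (Rc F i₁ a w q K P H ω) (F.tw w ω) +
        shp e i₁ (plb F i₁ a w q ω G) (Rc F i₁ a w q K P H ω) (pb F i₁ a w q ω) +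
        2 ^ e * (F.x ω i₁ - eval (bp F i₁ ω) G) :=
  identity F i₁ a w q e G _ ω

end fam

end Pool.SLO
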