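import Pool.Agent.H81.SLP.Ctx2
import Pool.Agent.H48.M5.Defs

/-!
# Contexts of the slope law: the data of lemma L1 in one context

`m = k + 1`, the tangential coordinates are `i₁.succAbove`. `ldat` are the data of lemma L1
(`Pool.M5.LDat`) for a law `p` (the law in one context): the line with its window, the position in
the box, the coefficients of the line polynomial, the height of the own sheet over the centre of
the box; `ldat_ok` its basic assumptions.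
-/

set_option autoImplicit false

namespace Pool.SLO

open Finset Real MvPolynomial
open Pool.Agent.H49.Ent Pool.Agent.H32.Dense Pool.STK Pool.KA Pool.KSAT Pool.K2S Pool.PB

/-! ### Functions which factor -/

open Classical in
/-- The function `g` as a function of the value of `f`, on the support of `p`. -/
noncomputable def fac {Ω α β : Type} (p : Ω → ℝ) (f : Ω → α) (g : Ω → β) (d : β) (a : α) : β :=
  if h : ∃ ω, 0 < p ω ∧ f ω = a then g h.choose else d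

theorem fac_eq {Ω α β : Type} {p : Ω → ℝ} {f : Ω → α} {g : Ω → β} {d : β}
    (h : ∀ ω ω', 0 < p ω → 0 < p ω' → f ω = f ω' → g ω = g ω') {ω : Ω} (hω : 0 < p ω) :
    fac p f g d (f ω) = g ω := by
  unfold fac
  have h1 : ∃ ω', 0 < p ω' ∧ f ω' = f ω := ⟨ω, hω, rfl⟩
  rw [dif_pos h1]
  exact h _ _ h1.choose_spec.1 hω h1.choose_spec.2

theorem fac_mem {Ω α β : Type} {p : Ω → ℝ} {f : Ω → α} {g : Ω → β} {d : β} (Q : β → Prop)
    (hd : Q d) (h : ∀ ω, 0 < p ω → Q (g ω)) (a : α) : Q (fac p f g d a) := by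
  unfold fac
  split_ifs with h1
  · exact h _ h1.choose_spec.1
  · exact hd

/-! ### Coefficients -/

/-- The coefficients of a polynomial bounded on the unit cube. -/
theorem coef_cube (m K : ℕ) : ∃ C : ℝ, 0 ≤ C ∧ ∀ (P : MvPolynomial (Fin m) ℝ) (M : ℝ),
    P.totalDegree ≤ K → (∀ b : Fin m → ℝ, (∀ i, 0 ≤ b i ∧ b i ≤ 1) → |eval b P| ≤ M) →
    ∀ s, |coeff s P| ≤ C * M := by
  obtain ⟨B, hB0, hB⟩ := Pool.Agent.H36.KBX.coef_bound m K
  refine ⟨B * ((Pool.Agent.H36.KBX.bx m K).card * (B * 3 ^ (m * K))), by positivity, ?_⟩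
  intro P M hP hM
  set f : Fin m → MvPolynomial (Fin m) ℝ := fun i => C (1 / 2) + C (1 / 2) * X i with hf
  set Q := bind₁ f P with hQ
  have hev : ∀ y, eval y Q = eval (fun i => 1 / 2 + 1 / 2 * y i) P := by
    intro y
    rw [hQ, eval, eval₂Hom_bind₁]
    congr 1
    congr 1
    funext i
    simp [hf]
  have hQd : Q.totalDegree ≤ K := by
    refine (totalDegree_bind₁_le f (fun i => ?_) P).trans hP
    refine (totalDegree_add _ _).trans (max_le ?_ ?_)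
    · rw [totalDegree_C]
      exact Nat.zero_le _
    · refine (totalDegree_mul _ _).trans ?_
      rw [totalDegree_C, totalDegree_X]
  have hQM : ∀ y : Fin m → ℝ, (∀ i, |y i| ≤ 1) → |eval y Q| ≤ M := by
    intro y hy
    rw [hev]
    refine hM _ fun i => ?_
    have := abs_le.1 (hy i)
    constructor <;> linarith only [this, this.1, this.2]
  have h1 := hB Q M hQd hQM
  have h2 : ∀ y : Fin m → ℝ, (∀ i, |y i| ≤ 1) →
      |eval y P| ≤ (Pool.Agent.H36.KBX.bx m K).card * (B * M * 3 ^ (m * K)) := by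
    intro y hy
    have h3 := Pool.Agent.H36.KBX.eval_bound Q hQd (B * M) 3 (by norm_num) h1
      (fun i => 2 * y i - 1) (fun i => by
        have := abs_le.1 (hy i)
        rw [abs_le]
        constructor <;> linarith only [this, this.1, this.2])
    rw [hev] at h3
    have e : (fun i => 1 / 2 + 1 / 2 * (2 * y i - 1)) = y := by
      funext i
      ring
    rw [e] at h3
    exact h3
  intro s
  refine (hB P _ hP h2 s).trans (le_of_eq ?_)
  ring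

section sect

variable {k : ℕ}

/-- The polynomial at the fixed time `τ`. -/
noncomputable def sect (i₁ : Fin (k + 1)) (τ : ℝ) (G : MvPolynomial (Fin (k + 1)) ℝ) :
    MvPolynomial (Fin k) ℝ :=
  bind₁ (Fin.insertNth (α := fun _ => MvPolynomial (Fin k) ℝ) i₁ (C τ) fun j => X j) G

theorem eval_sect (i₁ : Fin (k + 1)) (τ : ℝ) (G : MvPolynomial (Fin (k + 1)) ℝ)
    (z : Fin k → ℝ) :
    eval z (sect i₁ τ G) = eval (Fin.insertNth (α := fun _ => ℝ) i₁ τ z) G := by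
  unfold sect
  rw [eval, eval₂Hom_bind₁]
  congr 1
  congr 1
  funext j
  refine Fin.succAboveCases (α := fun j => (eval₂Hom (RingHom.id ℝ) z)
    (Fin.insertNth (α := fun _ => MvPolynomial (Fin k) ℝ) i₁ (C τ) (fun j => X j) j) =
      Fin.insertNth (α := fun _ => ℝ) i₁ τ z j) i₁ ?_ (fun j => ?_) j
  · rw [Fin.insertNth_apply_same, Fin.insertNth_apply_same]
    simp
  · rw [Fin.insertNth_apply_succAbove, Fin.insertNth_apply_succAbove]
    simp

theorem totalDegree_sect_le (i₁ : Fin (k + 1)) (τ : ℝ) (G : MvPolynomial (Fin (k + 1)) ℝ) :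
    (sect i₁ τ G).totalDegree ≤ G.totalDegree := by
  refine totalDegree_bind₁_le _ (fun j => ?_) G
  refine Fin.succAboveCases (α := fun j => (Fin.insertNth (α := fun _ => MvPolynomial (Fin k) ℝ)
    i₁ (C τ) (fun j => X j) j).totalDegree ≤ 1) i₁ ?_ (fun j => ?_) j
  · rw [Fin.insertNth_apply_same, totalDegree_C]
    exact Nat.zero_le _
  · rw [Fin.insertNth_apply_succAbove, totalDegree_X]

theorem insertNth_eq (i₁ : Fin (k + 1)) (τ : ℝ) (y : Fin (k + 1) → ℝ) :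
    Fin.insertNth (α := fun _ => ℝ) i₁ τ (fun j => y (i₁.succAbove j)) = pnt i₁ y 0 τ := by
  funext j
  refine Fin.succAboveCases (α := fun j => Fin.insertNth (α := fun _ => ℝ) i₁ τ
    (fun j => y (i₁.succAbove j)) j = pnt i₁ y 0 τ j) i₁ ?_ (fun j => ?_) j
  · rw [Fin.insertNth_apply_same]
    unfold pnt
    rw [if_pos rfl]
  · rw [Fin.insertNth_apply_succAbove]
    unfold pnt
    rw [if_neg (Fin.succAbove_ne i₁ j)]
    simp

/-- A polynomial of degree at most `K` minus its value at the origin. -/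
theorem eval_sub_zero {K : ℕ} {Q : MvPolynomial (Fin k) ℝ} (hQ : Q.totalDegree ≤ K)
    (z : Fin k → ℝ) : eval z Q - eval 0 Q =
      ∑ al : Pool.M5.Mon k K, coeff (Finsupp.equivFunOnFinite.symm (al : Fin k → ℕ)) Q *
        Pool.M5.mono (al : Fin k → ℕ) z := by
  classical
  rw [eval_of_degree hQ, eval_of_degree hQ, ← Finset.sum_sub_distrib]
  have h0 : (0 : Fin k →₀ ℕ) ∈ mons k K := mem_mons.2 (by simp)
  rw [← Finset.add_sum_erase _ _ h0]
  have h1 : coeff 0 Q * ∏ i, z i ^ (0 : Fin k →₀ ℕ) i -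
      coeff 0 Q * ∏ i, (0 : Fin k → ℝ) i ^ (0 : Fin k →₀ ℕ) i = 0 := by
    simp
  rw [h1, zero_add]
  rw [Finset.sum_coe_sort (Pool.M5.Mon k K) fun al =>
    coeff (Finsupp.equivFunOnFinite.symm al) Q * Pool.M5.mono al z]
  symm
  refine Finset.sum_nbij' (fun al => Finsupp.equivFunOnFinite.symm al) (fun s => ⇑s)
    ?_ ?_ ?_ ?_ ?_
  · intro al hal
    unfold Pool.M5.Mon at hal
    rw [Finset.mem_filter] at hal
    rw [Finset.mem_erase, mem_mons]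
    have hs : (Finsupp.equivFunOnFinite.symm al).sum (fun _ e => e) = ∑ j, al j := by
      rw [Finsupp.sum_fintype _ _ fun _ => rfl]
      rfl
    refine ⟨?_, ?_⟩
    · intro h
      have : (Finsupp.equivFunOnFinite.symm al).sum (fun _ e => e) = 0 := by
        rw [h]
        simp
      rw [hs] at this
      omega
    · rw [hs]
      exact hal.2.2
  · intro s hs
    rw [Finset.mem_erase, mem_mons] at hs
    have hs' : s.sum (fun _ e => e) = ∑ j, s j := Finsupp.sum_fintype _ _ fun _ => rfl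
    unfold Pool.M5.Mon
    rw [Finset.mem_filter, Fintype.mem_piFinset]
    rw [hs'] at hs
    refine ⟨fun j => ?_, ?_, hs.2⟩
    · rw [Finset.mem_range]
      exact Nat.lt_succ_of_le ((Finset.single_le_sum (f := fun i => s i)
        (fun _ _ => Nat.zero_le _) (Finset.mem_univ j)).trans hs.2)
    · by_contra h
      refine hs.1 ?_
      have h2 : ∑ j, s j = 0 := by omega
      rw [Finset.sum_eq_zero_iff] at h2
      ext j
      exact h2 j (Finset.mem_univ j)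
  · intro al _
    rfl
  · intro s _
    ext j
    rfl
  · intro al hal
    unfold Pool.M5.Mon at hal
    rw [Finset.mem_filter] at hal
    have h2 : ∏ i, (0 : Fin k → ℝ) i ^ (Finsupp.equivFunOnFinite.symm al) i = 0 := by
      by_contra h
      replace h := Finset.prod_ne_zero_iff.1 h
      have h3 : ∀ j, al j = 0 := by
        intro j
        by_contra hj
        exact h j (Finset.mem_univ j) (zero_pow hj)
      have : ∑ j, al j = 0 := Finset.sum_eq_zero fun j _ => h3 j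
      omega
    rw [h2, mul_zero, sub_zero]
    rfl

theorem abs_mono_le (al : Fin k → ℕ) {z : Fin k → ℝ} (hz : ∀ j, |z j| ≤ 1) :
    |Pool.M5.mono al z| ≤ 1 := by
  unfold Pool.M5.mono
  rw [Finset.abs_prod]
  refine Finset.prod_le_one (fun i _ => abs_nonneg _) fun i _ => ?_
  rw [abs_pow]
  exact pow_le_one₀ (abs_nonneg _) (hz i)

/-- The coefficients of the shape of the own sheet `G` over `R` at the time `τ` (both in box
coordinates), in units `2 ^ (-P)`. -/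
noncomputable def shc (P : ℕ) (i₁ : Fin (k + 1)) (G R : MvPolynomial (Fin (k + 1)) ℝ) (τ : ℝ)
    (al : Fin k → ℕ) : ℝ :=
  2 ^ P * coeff (Finsupp.equivFunOnFinite.symm al) (sect i₁ τ (G - R))

/-- The shape is given by its coefficients. -/
theorem shp_eq {K : ℕ} (P : ℕ) (i₁ : Fin (k + 1)) (G R : MvPolynomial (Fin (k + 1)) ℝ)
    (hG : G.totalDegree ≤ K) (hR : R.totalDegree ≤ K) (τ : ℝ) (y : Fin (k + 1) → ℝ) :
    shp P i₁ G R (pnt i₁ y 0 τ) = ∑ al : Pool.M5.Mon k K, shc P i₁ G R τ (al : Fin k → ℕ) *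
      Pool.M5.mono (al : Fin k → ℕ) (fun j => y (i₁.succAbove j)) := by
  have hD : (sect i₁ τ (G - R)).totalDegree ≤ K :=
    (totalDegree_sect_le _ _ _).trans ((totalDegree_sub _ _).trans (max_le hG hR))
  have h1 := eval_sub_zero hD (fun j => y (i₁.succAbove j))
  rw [eval_sect, insertNth_eq, eval_sect] at h1
  have h2 : Fin.insertNth (α := fun _ => ℝ) i₁ τ (0 : Fin k → ℝ) = pnt i₁ 0 0 τ :=
    insertNth_eq i₁ τ 0
  rw [h2] at h1
  have h3 : (pnt i₁ y 0 τ) i₁ = τ := by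
    unfold pnt
    rw [if_pos rfl]
  unfold shp nub shc
  rw [h3]
  simp only [mul_assoc]
  rw [← Finset.mul_sum, ← h1, map_sub, map_sub]
  ring

/-- The coefficients of the shape are bounded. -/
theorem shc_bound (k K : ℕ) : ∃ B : ℝ, 0 ≤ B ∧ ∀ (P : ℕ) (i₁ : Fin (k + 1))
    (G R : MvPolynomial (Fin (k + 1)) ℝ) (C₀ τ : ℝ), G.totalDegree ≤ K → R.totalDegree ≤ K →
    0 ≤ τ → τ ≤ 1 → (∀ b : Fin (k + 1) → ℝ, (∀ i, 0 ≤ b i ∧ b i ≤ 1) → b i₁ = τ →
      |2 ^ P * (eval b G - eval b R)| ≤ C₀) → ∀ al, |shc P i₁ G R τ al| ≤ B * C₀ := by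
  obtain ⟨B, hB0, hB⟩ := coef_cube k K
  refine ⟨B, hB0, ?_⟩
  intro P i₁ G R C₀ τ hG hR hτ0 hτ1 h al
  have hP : (0 : ℝ) < 2 ^ P := by positivity
  have hD : (sect i₁ τ (G - R)).totalDegree ≤ K :=
    (totalDegree_sect_le _ _ _).trans ((totalDegree_sub _ _).trans (max_le hG hR))
  have h1 := hB (sect i₁ τ (G - R)) (C₀ / 2 ^ P) hD (by
    intro z hz
    rw [eval_sect, map_sub]
    have h2 := h (Fin.insertNth (α := fun _ => ℝ) i₁ τ z) (by
      intro j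
      refine Fin.succAboveCases (α := fun j => 0 ≤ Fin.insertNth (α := fun _ => ℝ) i₁ τ z j ∧
        Fin.insertNth (α := fun _ => ℝ) i₁ τ z j ≤ 1) i₁ ?_ (fun j => ?_) j
      · rw [Fin.insertNth_apply_same]
        exact ⟨hτ0, hτ1⟩
      · rw [Fin.insertNth_apply_succAbove]
        exact hz j) (Fin.insertNth_apply_same _ _ _)
    rw [abs_mul, abs_of_pos hP] at h2
    rw [le_div_iff₀ hP, mul_comm]
    exact h2) (Finsupp.equivFunOnFinite.symm al)
  unfold shc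
  rw [abs_mul, abs_of_pos hP]
  calc (2 : ℝ) ^ P * _ ≤ 2 ^ P * (B * (C₀ / 2 ^ P)) := mul_le_mul_of_nonneg_left h1 hP.le
    _ = B * C₀ := by field_simp

end sect

section dat

variable {k J : ℕ}

/-- The tangential position in the box. -/
noncomputable def yt (F : Fam (k + 1) J) (i₁ : Fin (k + 1)) (a w : ℕ) (ω : F.Ω) (j : Fin k) : ℝ :=
  yb F i₁ a w ω (i₁.succAbove j)

/-- **The height over the centre, the line polynomial and the shape**: `z` is the position in the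
box up to `2 ^ (-X)`. -/
theorem nub_close (k K : ℕ) : ∃ B : ℝ, 0 ≤ B ∧ ∀ (J : ℕ) (F : Fam (k + 1) J) (i₁ : Fin (k + 1))
    (a w q P X : ℕ) (G R : MvPolynomial (Fin (k + 1)) ℝ) (C₀ : ℝ) (ω : F.Ω) (z : Fin k → ℝ),
    G.totalDegree ≤ K → R.totalDegree ≤ K → w ≤ J → a + X ≤ q + w → 3 ≤ X →
    (∀ b : Fin (k + 1) → ℝ, (∀ i, 0 ≤ b i ∧ b i ≤ 1) → b i₁ = F.tw w ω →
      |2 ^ P * (eval b (plb F i₁ a w q ω G) - eval b R)| ≤ C₀) →
    |F.x ω i₁ - eval (bp F i₁ ω) G| ≤ 1 / 2 ^ (P + X) →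
    (∀ j, 0 ≤ z j ∧ z j ≤ 1) → (∀ j, |z j - yt F i₁ a w ω j| ≤ 1 / 2 ^ X) →
    |nub P i₁ (plb F i₁ a w q ω G) R (F.tw w ω) - ((lpl F i₁ a w q P R ω).eval (F.tw w ω) -
      ∑ al : Pool.M5.Mon k K, shc P i₁ (plb F i₁ a w q ω G) R (F.tw w ω) (al : Fin k → ℕ) *
        Pool.M5.mono (al : Fin k → ℕ) z)| ≤ (B * C₀ + 1) / 2 ^ X := by
  obtain ⟨B, hB0, hB⟩ := lip_cube k K
  refine ⟨2 * B, by positivity, ?_⟩
  intro J F i₁ a w q P X G R C₀ ω z hG hR hw hq hX hC hx hz hzy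
  set D := plb F i₁ a w q ω G with hD
  have hDd : D.totalDegree ≤ K := (totalDegree_pull_le _ _ _ _ _ _).trans hG
  have hP : (0 : ℝ) < 2 ^ P := by positivity
  have hXp : (0 : ℝ) < 2 ^ X := by positivity
  have hX8 : (1 : ℝ) / 2 ^ X ≤ 1 / 8 := by
    have : (2 : ℝ) ^ 3 ≤ 2 ^ X := pow_le_pow_right₀ (by norm_num) hX
    refine one_div_le_one_div_of_le (by norm_num) ?_
    linarith only [this]
  have t01 := T1_real F hw ω
  have t0 : 0 ≤ F.tw w ω := by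
    unfold Fam.tw
    linarith only [t01, t01.1]
  have t1 : F.tw w ω ≤ 1 := by
    unfold Fam.tw
    linarith only [t01, t01.2]
  set y' : Fin (k + 1) → ℝ := Fin.insertNth (α := fun _ => ℝ) i₁ 0 z with hy'
  have hy's : (fun j => y' (i₁.succAbove j)) = z := by
    funext j
    rw [hy', Fin.insertNth_apply_succAbove]
  have h1 := identity F i₁ a w q P G R ω
  rw [← hD] at h1
  have h2 := shp_eq P i₁ D R hDd hR (F.tw w ω) y'
  rw [hy's] at h2
  rw [← h2]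
  have hQ : (C (2 ^ P) * (D - R) : MvPolynomial (Fin (k + 1)) ℝ).totalDegree ≤ K := by
    refine (totalDegree_mul _ _).trans ?_
    rw [totalDegree_C, zero_add]
    exact (totalDegree_sub _ _).trans (max_le hDd hR)
  have hev : ∀ b, eval b (C (2 ^ P) * (D - R) : MvPolynomial (Fin (k + 1)) ℝ) =
      2 ^ P * (eval b D - eval b R) := by
    intro b
    rw [map_mul, eval_C, map_sub]
  have hom : ∀ j, 0 ≤ omb F i₁ a w q ω j ∧ omb F i₁ a w q ω j ≤ 1 / 2 ^ X := by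
    intro j
    have h := omb_mem F i₁ a w q ω j
    refine ⟨h.1, h.2.trans ?_⟩
    rw [← pow_add, div_le_div_iff₀ (by positivity) hXp, one_mul, ← pow_add]
    exact pow_le_pow_right₀ (by norm_num) (by omega)
  have hbase : ∀ j, (0 ≤ pb F i₁ a w q ω j ∧ pb F i₁ a w q ω j ≤ 5 / 4) ∧
      (0 ≤ pnt i₁ y' 0 (F.tw w ω) j ∧ pnt i₁ y' 0 (F.tw w ω) j ≤ 5 / 4) ∧
      |pb F i₁ a w q ω j - pnt i₁ y' 0 (F.tw w ω) j| ≤ 2 / 2 ^ X := by
    intro j
    refine Fin.succAboveCases (α := fun j => (0 ≤ pb F i₁ a w q ω j ∧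
      pb F i₁ a w q ω j ≤ 5 / 4) ∧
      (0 ≤ pnt i₁ y' 0 (F.tw w ω) j ∧ pnt i₁ y' 0 (F.tw w ω) j ≤ 5 / 4) ∧
      |pb F i₁ a w q ω j - pnt i₁ y' 0 (F.tw w ω) j| ≤ 2 / 2 ^ X) i₁ ?_ (fun j => ?_) j
    · unfold pb pnt
      simp only [if_true, sub_self, abs_zero]
      exact ⟨⟨t0, by linarith only [t1]⟩, ⟨t0, by linarith only [t1]⟩, by positivity⟩
    · have hy := yb_mem F i₁ a w ω (i₁.succAbove j)
      have hj := hom (i₁.succAbove j)
      have hzj := hzy j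
      unfold yt at hzj
      have e : (y' (i₁.succAbove j)) = z j := congrFun hy's j
      have hm : 0 ≤ F.tw w ω * omb F i₁ a w q ω (i₁.succAbove j) := mul_nonneg t0 hj.1
      have hm' : F.tw w ω * omb F i₁ a w q ω (i₁.succAbove j) ≤ 1 / 2 ^ X := by
        calc _ ≤ 1 * (1 / 2 ^ X) := mul_le_mul t1 hj.2 hj.1 zero_le_one
          _ = _ := one_mul _
      have e2 : (2 : ℝ) / 2 ^ X = 1 / 2 ^ X + 1 / 2 ^ X := by ring
      have hz' := hz j
      unfold pb pnt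
      simp only [if_neg (Fin.succAbove_ne i₁ j), Pi.zero_apply, mul_zero, add_zero]
      rw [e, e2]
      rw [abs_le] at hzj ⊢
      refine ⟨⟨by linarith only [hy, hm], by linarith only [hX8, hy, hm']⟩, ⟨hz'.1, by linarith only [hX8, hy, hzj, hz'.2]⟩, by linarith only [hj, hzj, hm, hzj.2],
        by linarith only [hzj, hm', hzj.1]⟩
  have hp1 : pb F i₁ a w q ω i₁ = F.tw w ω := by
    unfold pb pnt
    rw [if_pos rfl]
  have hp2 : pnt i₁ y' 0 (F.tw w ω) i₁ = F.tw w ω := by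
    unfold pnt
    rw [if_pos rfl]
  have hins : ∀ y : Fin (k + 1) → ℝ, y i₁ = F.tw w ω →
      Fin.insertNth (α := fun _ => ℝ) i₁ (F.tw w ω) (fun j => y (i₁.succAbove j)) = y := by
    intro y hy
    rw [insertNth_eq]
    funext j
    unfold pnt
    split_ifs with hj
    · rw [hj, hy]
    · simp
  have h3 := hB (sect i₁ (F.tw w ω) (C (2 ^ P) * (D - R))) C₀ (2 / 2 ^ X)
    ((totalDegree_sect_le _ _ _).trans hQ) (by
    intro b hb
    rw [eval_sect, hev]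
    refine hC _ (fun j => ?_) (Fin.insertNth_apply_same _ _ _)
    refine Fin.succAboveCases (α := fun j => 0 ≤ Fin.insertNth (α := fun _ => ℝ) i₁
      (F.tw w ω) b j ∧ Fin.insertNth (α := fun _ => ℝ) i₁ (F.tw w ω) b j ≤ 1) i₁ ?_
      (fun j => ?_) j
    · rw [Fin.insertNth_apply_same]
      exact ⟨t0, t1⟩
    · rw [Fin.insertNth_apply_succAbove]
      exact hb j) (by
      have e2 : (2 : ℝ) / 2 ^ X = 1 / 2 ^ X + 1 / 2 ^ X := by ring
      linarith only [hX8, e2]) (fun j => pb F i₁ a w q ω (i₁.succAbove j))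
    (fun j => pnt i₁ y' 0 (F.tw w ω) (i₁.succAbove j))
    (fun j => (hbase _).1) (fun j => (hbase _).2.1) (fun j => (hbase _).2.2)
  rw [eval_sect, eval_sect, hins _ hp1, hins _ hp2] at h3
  rw [hev, hev] at h3
  have h4 : |2 ^ P * (F.x ω i₁ - eval (bp F i₁ ω) G)| ≤ 1 / 2 ^ X := by
    rw [abs_mul, abs_of_pos hP]
    calc (2 : ℝ) ^ P * _ ≤ 2 ^ P * (1 / 2 ^ (P + X)) := mul_le_mul_of_nonneg_left hx hP.le
      _ = 1 / 2 ^ X := by
        rw [pow_add]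
        field_simp
  rw [h1]
  unfold shp
  rw [hp1, hp2]
  have e3 : nub P i₁ D R (F.tw w ω) - (nub P i₁ D R (F.tw w ω) +
      (2 ^ P * (eval (pb F i₁ a w q ω) D - eval (pb F i₁ a w q ω) R) -
        nub P i₁ D R (F.tw w ω)) + 2 ^ P * (F.x ω i₁ - eval (bp F i₁ ω) G) -
      (2 ^ P * (eval (pnt i₁ y' 0 (F.tw w ω)) D - eval (pnt i₁ y' 0 (F.tw w ω)) R) -
        nub P i₁ D R (F.tw w ω))) =
      -((2 ^ P * (eval (pb F i₁ a w q ω) D - eval (pb F i₁ a w q ω) R) -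
        2 ^ P * (eval (pnt i₁ y' 0 (F.tw w ω)) D - eval (pnt i₁ y' 0 (F.tw w ω)) R)) +
        2 ^ P * (F.x ω i₁ - eval (bp F i₁ ω) G)) := by
    ring
  rw [e3, abs_neg]
  refine (abs_add_le _ _).trans ((add_le_add h3 h4).trans (le_of_eq ?_))
  ring

/-- The coefficients of the shape of the own sheet `Gf ω` over the label of the context. -/
noncomputable def shw (F : Fam (k + 1) J) (i₁ : Fin (k + 1)) (a w q K P e : ℕ)
    (H : ((Fin (k + 1) → ℝ) × (Fin (k + 1) → ℝ)) × F.ζ × ℕ → MvPolynomial (Fin (k + 1)) ℝ)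
    (Gf : F.Ω → MvPolynomial (Fin (k + 1)) ℝ) (ω : F.Ω) (al : Pool.M5.Mon k K) : ℝ :=
  shc e i₁ (plb F i₁ a w q ω (Gf ω)) (Rc F i₁ a w q K P H ω) (F.tw w ω) (al : Fin k → ℕ)

/-- The height of the own sheet `Gf ω` over the label of the context, over the centre of the
box. -/
noncomputable def nuw (F : Fam (k + 1) J) (i₁ : Fin (k + 1)) (a w q K P e : ℕ)
    (H : ((Fin (k + 1) → ℝ) × (Fin (k + 1) → ℝ)) × F.ζ × ℕ → MvPolynomial (Fin (k + 1)) ℝ)
    (Gf : F.Ω → MvPolynomial (Fin (k + 1)) ℝ) (ω : F.Ω) : ℝ :=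
  nub e i₁ (plb F i₁ a w q ω (Gf ω)) (Rc F i₁ a w q K P H ω) (F.tw w ω)

/-- The tangential position in the box, `X` digits, as a function of the line and the window. -/
noncomputable def yd (F : Fam (k + 1) J) (i₁ : Fin (k + 1)) (a w X : ℕ) (p : F.Ω → ℝ)
    (l : ((Fin (k + 1) → ℝ) × (Fin (k + 1) → ℝ)) × F.ζ × ℕ) : Fin k → ℤ :=
  fac p (slam F w) (fun ω j => ⌊(2 : ℝ) ^ X * yt F i₁ a w ω j⌋) 0 l

/-- The coefficients of the line polynomial of order at least one, `X` digits, as a function of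
the line and the window. -/
noncomputable def cd (F : Fam (k + 1) J) (i₁ : Fin (k + 1)) (a w q K P e X : ℕ)
    (H : ((Fin (k + 1) → ℝ) × (Fin (k + 1) → ℝ)) × F.ζ × ℕ → MvPolynomial (Fin (k + 1)) ℝ)
    (p : F.Ω → ℝ) (l : ((Fin (k + 1) → ℝ) × (Fin (k + 1) → ℝ)) × F.ζ × ℕ) : Fin K → ℤ :=
  fac p (slam F w) (fun ω i => ⌊(2 : ℝ) ^ X * (cl F i₁ a w q K P e H ω).coeff (i.val + 1)⌋) 0 l

theorem yd_eq {F : Fam (k + 1) J} {i₁ : Fin (k + 1)} {a w X : ℕ} {p : F.Ω → ℝ} {ω : F.Ω}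
    (hω : 0 < p ω) : yd F i₁ a w X p (slam F w ω) =
      fun j => ⌊(2 : ℝ) ^ X * yt F i₁ a w ω j⌋ := by
  unfold yd
  refine fac_eq (g := fun ω j => ⌊(2 : ℝ) ^ X * yt F i₁ a w ω j⌋) (fun ω ω' _ _ h => ?_) hω
  funext j
  unfold yt
  rw [(box_of_slam (i₁ := i₁) (a := a) (q := 0) h).2.2.1]

theorem cd_eq {F : Fam (k + 1) J} {i₁ : Fin (k + 1)} {a w q K P e X : ℕ}
    {H : ((Fin (k + 1) → ℝ) × (Fin (k + 1) → ℝ)) × F.ζ × ℕ → MvPolynomial (Fin (k + 1)) ℝ}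
    {p : F.Ω → ℝ} {ω : F.Ω} (hω : 0 < p ω) : cd F i₁ a w q K P e X H p (slam F w ω) =
      fun i => ⌊(2 : ℝ) ^ X * (cl F i₁ a w q K P e H ω).coeff (i.val + 1)⌋ := by
  unfold cd
  refine fac_eq (g := fun ω (i : Fin K) => ⌊(2 : ℝ) ^ X * (cl F i₁ a w q K P e H ω).coeff
    (i.val + 1)⌋) (fun ω ω' _ _ h => ?_) hω
  funext i
  rw [cl_of_slam h]

/-- **The data of lemma L1** for the law `p`. `T` is any variable containing the time and the shape
of the own sheet: `th (T ω)` is the time in the window, `co (T ω)` are the coefficients of the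
shape. -/
noncomputable def ldat (F : Fam (k + 1) J) (i₁ : Fin (k + 1)) (a w q K P e X : ℕ)
    (H : ((Fin (k + 1) → ℝ) × (Fin (k + 1) → ℝ)) × F.ζ × ℕ → MvPolynomial (Fin (k + 1)) ℝ)
    (Gf : F.Ω → MvPolynomial (Fin (k + 1)) ℝ) (p : F.Ω → ℝ) {Tau : Type} (T : F.Ω → Tau)
    (th : Tau → ℝ) (co : Tau → Pool.M5.Mon k K → ℝ) :
    Pool.M5.LDat k K (Pool.M5.Mon k K) where
  Om := F.Ω
  Lam := ((Fin (k + 1) → ℝ) × (Fin (k + 1) → ℝ)) × F.ζ × ℕ
  Tau := Tau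
  P := p
  L := slam F w
  T := T
  y := yd F i₁ a w X p
  c := cd F i₁ a w q K P e X H p
  N := fun ω => ⌊(2 : ℝ) ^ X * nuw F i₁ a w q K P e H Gf ω⌋
  th := th
  s := fun _ => 0
  co := co
  X := X

theorem floor_div_le {X : ℕ} {x : ℝ} (h : |x| ≤ 1) : |((⌊(2 : ℝ) ^ X * x⌋ : ℤ) : ℝ) / 2 ^ X| ≤ 1 := by
  have hX : (0 : ℝ) < 2 ^ X := by positivity
  rw [abs_div, abs_of_pos hX, div_le_one hX, abs_le]
  have h1 := abs_le.1 h
  constructor
  · have h2 : (-(2 : ℤ) ^ X) ≤ ⌊(2 : ℝ) ^ X * x⌋ := by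
      rw [Int.le_floor]
      push_cast
      nlinarith only [hX, h1, h1.1]
    have h3 : ((-(2 : ℤ) ^ X : ℤ) : ℝ) ≤ ((⌊(2 : ℝ) ^ X * x⌋ : ℤ) : ℝ) := by exact_mod_cast h2
    push_cast at h3
    exact h3
  · refine (Int.floor_le _).trans ?_
    nlinarith only [hX, h1, h1.2]

theorem floor_div_near (X : ℕ) (x : ℝ) : |((⌊(2 : ℝ) ^ X * x⌋ : ℤ) : ℝ) / 2 ^ X - x| ≤
    1 / 2 ^ X := by
  have hX : (0 : ℝ) < 2 ^ X := by positivity
  have h1 := Int.floor_le ((2 : ℝ) ^ X * x)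
  have h2 := Int.lt_floor_add_one ((2 : ℝ) ^ X * x)
  have e : ((⌊(2 : ℝ) ^ X * x⌋ : ℤ) : ℝ) / 2 ^ X - x =
      (((⌊(2 : ℝ) ^ X * x⌋ : ℤ) : ℝ) - 2 ^ X * x) / 2 ^ X := by
    field_simp
  rw [e, abs_div, abs_of_pos hX]
  refine div_le_div_of_nonneg_right ?_ hX.le
  rw [abs_le]
  constructor <;> linarith

/-- **The basic assumptions of lemma L1** for the data of one context. -/
theorem ldat_ok (k K : ℕ) (C₀ : ℝ) (hC₀ : 0 ≤ C₀) : ∃ A : ℕ, ∀ (J : ℕ) (F : Fam (k + 1) J)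
    (i₁ : Fin (k + 1)) (a w q P e X : ℕ)
    (H : ((Fin (k + 1) → ℝ) × (Fin (k + 1) → ℝ)) × F.ζ × ℕ → MvPolynomial (Fin (k + 1)) ℝ)
    (Gf : F.Ω → MvPolynomial (Fin (k + 1)) ℝ) (p : F.Ω → ℝ) (Tau : Type) (T : F.Ω → Tau)
    (th : Tau → ℝ) (co : Tau → Pool.M5.Mon k K → ℝ) (b : Pool.M5.Bas k (Pool.M5.Mon k K))
    (c : ℝ), IsLaw p → (∀ i, b.g i = Pool.M5.mono (i : Fin k → ℕ)) → 1 ≤ K → w ≤ J →
    a + X ≤ q + w → 3 ≤ X →
    (∀ ω, 0 < p ω → (Gf ω).totalDegree ≤ K ∧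
      (∀ z : Fin (k + 1) → ℝ, (∀ i, 0 ≤ z i ∧ z i ≤ 1) → z i₁ = F.tw w ω →
        |2 ^ e * (eval z (plb F i₁ a w q ω (Gf ω)) - eval z (Rc F i₁ a w q K P H ω))| ≤ C₀) ∧
      |F.x ω i₁ - eval (bp F i₁ ω) (Gf ω)| ≤ 1 / 2 ^ (e + X) ∧
      (∀ i < K, |((⌊(2 : ℝ) ^ X * (cl F i₁ a w q K P e H ω).coeff (i + 1)⌋ : ℤ) : ℝ)| ≤
        2 ^ X) ∧
      th (T ω) = F.tw w ω ∧ ∀ al, |co (T ω) al - shw F i₁ a w q K P e H Gf ω al| ≤ C₀ / 2 ^ X) →
    (∀ ω ω', 0 < p ω → 0 < p ω' → slam F w ω = slam F w ω' → T ω = T ω' → Gf ω = Gf ω') →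
    (∀ t, 0 ≤ th t ∧ th t < 1) → (∀ t al, |co t al| ≤ (2 : ℝ) ^ c) →
    (ldat F i₁ a w q K P e X H Gf p T th co).OK b A c := by
  obtain ⟨B, hB0, hB⟩ := nub_close k K
  set E : ℝ := B * C₀ + 1 + K + Fintype.card (Pool.M5.Mon k K) * C₀ with hE
  have hE0 : 0 ≤ E := by positivity
  obtain ⟨A, hA⟩ := pow_unbounded_of_one_lt (2 * E + 2) (one_lt_two : (1 : ℝ) < 2)
  refine ⟨A, ?_⟩
  intro J F i₁ a w q P e X H Gf p Tau T th co b c hp hb hK hw hq hX hs hG hth hco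
  have hXp : (0 : ℝ) < 2 ^ X := by positivity
  have hX1 : (1 : ℝ) ≤ 2 ^ X := one_le_pow₀ (by norm_num)
  -- the bound for one sample
  have key : ∀ ω, 0 < p ω → |nuw F i₁ a w q K P e H Gf ω - ((cl F i₁ a w q K P e H ω).coeff 0 +
      ∑ i : Fin K, th (T ω) ^ (i.val + 1) * ((cd F i₁ a w q K P e X H p (slam F w ω) i : ℝ) / 2 ^ X) -
      Pool.M5.pol b (co (T ω)) (fun j => (yd F i₁ a w X p (slam F w ω) j : ℝ) / 2 ^ X))| ≤ E / 2 ^ X := by
    intro ω hω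
    obtain ⟨s1, s2, s3, s4, s5, s6⟩ := hs ω hω
    have hy := yd_eq (F := F) (i₁ := i₁) (a := a) (w := w) (X := X) hω
    have hc := cd_eq (F := F) (i₁ := i₁) (a := a) (w := w) (q := q) (K := K) (P := P) (e := e)
      (X := X) (H := H) hω
    set z : Fin k → ℝ := fun j => (yd F i₁ a w X p (slam F w ω) j : ℝ) / 2 ^ X with hz
    have hzy : ∀ j, |z j - yt F i₁ a w ω j| ≤ 1 / 2 ^ X := by
      intro j
      rw [hz, hy]
      exact floor_div_near X _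
    have hz01 : ∀ j, 0 ≤ z j ∧ z j ≤ 1 := by
      intro j
      have h1 := yb_mem F i₁ a w ω (i₁.succAbove j)
      have h2 : |z j| ≤ 1 := by
        rw [hz, hy]
        refine floor_div_le ?_
        unfold yt
        rw [abs_le]
        constructor <;> linarith only [h1, h1.1, h1.2]
      refine ⟨?_, (abs_le.1 h2).2⟩
      rw [hz, hy]
      have h3 : (0 : ℤ) ≤ ⌊(2 : ℝ) ^ X * yt F i₁ a w ω j⌋ := by
        rw [Int.floor_nonneg]
        exact mul_nonneg hXp.le h1.1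
      have h4 : (0 : ℝ) ≤ ((⌊(2 : ℝ) ^ X * yt F i₁ a w ω j⌋ : ℤ) : ℝ) := by exact_mod_cast h3
      exact div_nonneg h4 hXp.le
    have h1 := hB J F i₁ a w q e X (Gf ω) (Rc F i₁ a w q K P H ω) C₀ ω z s1
      (totalDegree_rdz _ _ _) hw hq hX s2 s3 hz01 hzy
    have t01 := T1_real F hw ω
    have t0 : 0 ≤ F.tw w ω := by
      unfold Fam.tw
      linarith only [t01, t01.1]
    have t1 : F.tw w ω ≤ 1 := by
      unfold Fam.tw
      linarith only [t01, t01.2]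
    -- the line polynomial
    have h2 : (lpl F i₁ a w q e (Rc F i₁ a w q K P H ω) ω).eval (F.tw w ω) =
        (cl F i₁ a w q K P e H ω).coeff 0 + ∑ i : Fin K, F.tw w ω ^ (i.val + 1) *
          (cl F i₁ a w q K P e H ω).coeff (i.val + 1) := by
      change (cl F i₁ a w q K P e H ω).eval (F.tw w ω) = _
      rw [Polynomial.eval_eq_sum_range' (Nat.lt_succ_of_le (natDegree_cl F i₁ a w q K P e hK H ω)),
        Finset.sum_range_succ', Finset.sum_range, pow_zero, mul_one, add_comm]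
      congr 1
      refine Finset.sum_congr rfl fun i _ => ?_
      ring
    have h3 : |∑ i : Fin K, F.tw w ω ^ (i.val + 1) * (cl F i₁ a w q K P e H ω).coeff (i.val + 1) -
        ∑ i : Fin K, F.tw w ω ^ (i.val + 1) * ((cd F i₁ a w q K P e X H p (slam F w ω) i : ℝ) / 2 ^ X)| ≤
        K / 2 ^ X := by
      rw [← Finset.sum_sub_distrib]
      refine (Finset.abs_sum_le_sum_abs _ _).trans ?_
      have : ∀ i ∈ (Finset.univ : Finset (Fin K)), |F.tw w ω ^ (i.val + 1) *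
          (cl F i₁ a w q K P e H ω).coeff (i.val + 1) -
          F.tw w ω ^ (i.val + 1) * ((cd F i₁ a w q K P e X H p (slam F w ω) i : ℝ) / 2 ^ X)| ≤ 1 / 2 ^ X := by
        intro i _
        rw [← mul_sub, abs_mul, hc]
        have e1 := floor_div_near X ((cl F i₁ a w q K P e H ω).coeff (i.val + 1))
        rw [abs_sub_comm] at e1
        have e2 : |F.tw w ω ^ (i.val + 1)| ≤ 1 := by
          rw [abs_pow, abs_of_nonneg t0]
          exact pow_le_one₀ t0 t1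
        calc _ ≤ 1 * (1 / 2 ^ X) := mul_le_mul e2 e1 (abs_nonneg _) zero_le_one
          _ = _ := one_mul _
      refine (Finset.sum_le_sum this).trans (le_of_eq ?_)
      rw [Finset.sum_const, Finset.card_univ, Fintype.card_fin, nsmul_eq_mul, mul_one_div]
    have h4 : |∑ al : Pool.M5.Mon k K, shc e i₁ (plb F i₁ a w q ω (Gf ω))
          (Rc F i₁ a w q K P H ω) (F.tw w ω) (al : Fin k → ℕ) *
          Pool.M5.mono (al : Fin k → ℕ) z - Pool.M5.pol b (co (T ω)) z| ≤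
        Fintype.card (Pool.M5.Mon k K) * C₀ / 2 ^ X := by
      unfold Pool.M5.pol
      rw [← Finset.sum_sub_distrib]
      refine (Finset.abs_sum_le_sum_abs _ _).trans ?_
      have : ∀ al ∈ (Finset.univ : Finset (Pool.M5.Mon k K)), |shc e i₁
          (plb F i₁ a w q ω (Gf ω)) (Rc F i₁ a w q K P H ω) (F.tw w ω) (al : Fin k → ℕ) *
          Pool.M5.mono (al : Fin k → ℕ) z - co (T ω) al * b.g al z| ≤ C₀ / 2 ^ X := by
        intro al _
        rw [hb, ← sub_mul, abs_mul]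
        have e1 := s6 al
        rw [abs_sub_comm] at e1
        have e2 : |Pool.M5.mono (al : Fin k → ℕ) z| ≤ 1 := abs_mono_le _ fun j => by
          rw [abs_of_nonneg (hz01 j).1]
          exact (hz01 j).2
        calc _ ≤ C₀ / 2 ^ X * 1 := mul_le_mul e1 e2 (abs_nonneg _) (by positivity)
          _ = _ := mul_one _
      refine (Finset.sum_le_sum this).trans (le_of_eq ?_)
      rw [Finset.sum_const, Finset.card_univ, nsmul_eq_mul, mul_div_assoc]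
    rw [h2] at h1
    rw [s5]
    have e : E / 2 ^ X = (B * C₀ + 1) / 2 ^ X + K / 2 ^ X +
        Fintype.card (Pool.M5.Mon k K) * C₀ / 2 ^ X := by
      rw [hE]
      ring
    rw [e]
    unfold nuw
    rw [abs_le] at h1 h3 h4 ⊢
    constructor <;> linarith only [h1, h3, h4, h1.1, h1.2, h3.1, h3.2, h4.1, h4.2]
  refine ⟨hp, ?_, ?_, ?_, hth, hco, ?_⟩
  · -- hy
    intro l j
    change |((yd F i₁ a w X p l j : ℤ) : ℝ) / 2 ^ X| ≤ 1
    unfold yd
    refine fac_mem (Q := fun v : Fin k → ℤ => ∀ j, |((v j : ℤ) : ℝ) / 2 ^ X| ≤ 1)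
      (by intro j; simp) (fun ω _ j => ?_) l j
    refine floor_div_le ?_
    have h1 := yb_mem F i₁ a w ω (i₁.succAbove j)
    unfold yt
    rw [abs_le]
    constructor <;> linarith only [h1, h1.1, h1.2]
  · -- hc
    intro l i
    change |((cd F i₁ a w q K P e X H p l i : ℤ) : ℝ) / 2 ^ X| ≤ 1
    unfold cd
    refine fac_mem (Q := fun v : Fin K → ℤ => ∀ i, |((v i : ℤ) : ℝ) / 2 ^ X| ≤ 1)
      (by intro i; simp) (fun ω hω i => ?_) l i
    have hX2 : (0 : ℝ) < 2 ^ X := by positivity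
    rw [abs_div, abs_of_pos hX2, div_le_one hX2]
    exact (hs ω hω).2.2.2.1 i i.isLt
  · -- hN
    intro ω ω' hω hω' h
    obtain ⟨h1, h2⟩ := Prod.ext_iff.1 h
    have h1' : slam F w ω = slam F w ω' := h1
    have h2' : T ω = T ω' := h2
    have h3 := hG ω ω' hω hω' h1' h2'
    have h4 : F.tw w ω = F.tw w ω' := by
      rw [← (hs ω hω).2.2.2.2.1, ← (hs ω' hω').2.2.2.2.1, h2']
    obtain ⟨c1, c2, -, -, -⟩ := box_of_slam (i₁ := i₁) (a := a) (q := q) h1'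
    have h5 := (ctx_ext (ctx_of_slam (i₁ := i₁) (a := a) (q := q) (P := P) (H := H)
      h1')).2.2.2.2.2.2.1 K
    change ⌊(2 : ℝ) ^ X * nuw F i₁ a w q K P e H Gf ω⌋ = ⌊(2 : ℝ) ^ X * nuw F i₁ a w q K P e H Gf ω'⌋
    unfold nuw plb
    rw [h3, h4, c1, c2, h5]
  · -- hZ
    intro ω ω' hω hω' hL
    have hL' : slam F w ω = slam F w ω' := hL
    have k1 := key ω hω
    have k2 := key ω' hω'
    rw [← hL', ← cl_of_slam hL'] at k2
    have n1 := Int.floor_le ((2 : ℝ) ^ X * nuw F i₁ a w q K P e H Gf ω)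
    have n2 := Int.lt_floor_add_one ((2 : ℝ) ^ X * nuw F i₁ a w q K P e H Gf ω)
    have n3 := Int.floor_le ((2 : ℝ) ^ X * nuw F i₁ a w q K P e H Gf ω')
    have n4 := Int.lt_floor_add_one ((2 : ℝ) ^ X * nuw F i₁ a w q K P e H Gf ω')
    have eZ : (ldat F i₁ a w q K P e X H Gf p T th co).Z b (T ω) (T ω') (yd F i₁ a w X p (slam F w ω), cd F i₁ a w q K P e X H p (slam F w ω)) =
        (∑ i : Fin K, th (T ω') ^ (i.val + 1) * ((cd F i₁ a w q K P e X H p (slam F w ω) i : ℝ) / 2 ^ X) -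
          Pool.M5.pol b (co (T ω')) (fun j => (yd F i₁ a w X p (slam F w ω) j : ℝ) / 2 ^ X)) -
        (∑ i : Fin K, th (T ω) ^ (i.val + 1) * ((cd F i₁ a w q K P e X H p (slam F w ω) i : ℝ) / 2 ^ X) -
          Pool.M5.pol b (co (T ω)) (fun j => (yd F i₁ a w X p (slam F w ω) j : ℝ) / 2 ^ X)) := by
      have e1 : ∑ i : Fin K, (th (T ω') ^ (i.val + 1) - th (T ω) ^ (i.val + 1)) *
          ((cd F i₁ a w q K P e X H p (slam F w ω) i : ℝ) / 2 ^ X) =
          ∑ i : Fin K, th (T ω') ^ (i.val + 1) * ((cd F i₁ a w q K P e X H p (slam F w ω) i : ℝ) / 2 ^ X) -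
          ∑ i : Fin K, th (T ω) ^ (i.val + 1) * ((cd F i₁ a w q K P e X H p (slam F w ω) i : ℝ) / 2 ^ X) := by
        rw [← Finset.sum_sub_distrib]
        refine Finset.sum_congr rfl fun i _ => ?_
        ring
      change (∑ i : Fin K, (th (T ω') ^ (i.val + 1) - th (T ω) ^ (i.val + 1)) *
          ((cd F i₁ a w q K P e X H p (slam F w ω) i : ℝ) / 2 ^ X)) - ((0 : ℝ) - 0) -
        (Pool.M5.pol b (co (T ω')) (fun j => (yd F i₁ a w X p (slam F w ω) j : ℝ) / 2 ^ X) -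
          Pool.M5.pol b (co (T ω)) (fun j => (yd F i₁ a w X p (slam F w ω) j : ℝ) / 2 ^ X)) = _
      rw [e1]
      ring
    change |((⌊(2 : ℝ) ^ X * nuw F i₁ a w q K P e H Gf ω'⌋ : ℤ) : ℝ) -
      ((⌊(2 : ℝ) ^ X * nuw F i₁ a w q K P e H Gf ω⌋ : ℤ) : ℝ) -
      2 ^ X * (ldat F i₁ a w q K P e X H Gf p T th co).Z b (T ω) (T ω') (yd F i₁ a w X p (slam F w ω), cd F i₁ a w q K P e X H p (slam F w ω))| ≤ 2 ^ A
    rw [eZ]
    set S1 := ∑ i : Fin K, th (T ω) ^ (i.val + 1) * ((cd F i₁ a w q K P e X H p (slam F w ω) i : ℝ) / 2 ^ X) -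
      Pool.M5.pol b (co (T ω)) (fun j => (yd F i₁ a w X p (slam F w ω) j : ℝ) / 2 ^ X) with hS1
    set S2 := ∑ i : Fin K, th (T ω') ^ (i.val + 1) * ((cd F i₁ a w q K P e X H p (slam F w ω) i : ℝ) / 2 ^ X) -
      Pool.M5.pol b (co (T ω')) (fun j => (yd F i₁ a w X p (slam F w ω) j : ℝ) / 2 ^ X) with hS2
    set c0 := (cl F i₁ a w q K P e H ω).coeff 0
    have k1' : |2 ^ X * nuw F i₁ a w q K P e H Gf ω - 2 ^ X * (c0 + S1)| ≤ E := by
      rw [← mul_sub, abs_mul, abs_of_pos hXp]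
      rw [le_div_iff₀ hXp, mul_comm] at k1
      refine le_trans (le_of_eq ?_) k1
      congr 2
      rw [hS1]
      ring
    have k2' : |2 ^ X * nuw F i₁ a w q K P e H Gf ω' - 2 ^ X * (c0 + S2)| ≤ E := by
      rw [← mul_sub, abs_mul, abs_of_pos hXp]
      rw [le_div_iff₀ hXp, mul_comm] at k2
      refine le_trans (le_of_eq ?_) k2
      congr 2
      rw [hS2]
      ring
    rw [abs_le] at k1' k2' ⊢
    have hA' := hA.le
    rw [mul_sub]
    rw [mul_add] at k1' k2'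
    constructor <;> linarith [k1'.1, k1'.2, k2'.1, k2'.2]

/-! ### The canonical form and the hypotheses of lemma L1 -/

/-- The digits of the shape. -/
noncomputable def shd (F : Fam (k + 1) J) (i₁ : Fin (k + 1)) (a w q K P e X : ℕ)
    (H : ((Fin (k + 1) → ℝ) × (Fin (k + 1) → ℝ)) × F.ζ × ℕ → MvPolynomial (Fin (k + 1)) ℝ)
    (Gf : F.Ω → MvPolynomial (Fin (k + 1)) ℝ) (ω : F.Ω) : Pool.M5.Mon k K → ℤ := fun al =>
  ⌊(2 : ℝ) ^ X * shw F i₁ a w q K P e H Gf ω al⌋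

/-- The time in the window as a function of `T`. -/
noncomputable def thf (F : Fam (k + 1) J) (w : ℕ) (p : F.Ω → ℝ) {Tau : Type} (T : F.Ω → Tau) :
    Tau → ℝ := fac p T (F.tw w) 0

/-- The coefficients of the shape as a function of `T`. -/
noncomputable def cof (F : Fam (k + 1) J) (i₁ : Fin (k + 1)) (a w q K P e X : ℕ)
    (H : ((Fin (k + 1) → ℝ) × (Fin (k + 1) → ℝ)) × F.ζ × ℕ → MvPolynomial (Fin (k + 1)) ℝ)
    (Gf : F.Ω → MvPolynomial (Fin (k + 1)) ℝ) (p : F.Ω → ℝ) {Tau : Type} (T : F.Ω → Tau) :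
    Tau → Pool.M5.Mon k K → ℝ :=
  fac p T (fun ω al => (shd F i₁ a w q K P e X H Gf ω al : ℝ) / 2 ^ X) 0

/-- **The basic assumptions of lemma L1** for the data of one context, the variable `T` being any
variable which contains the time, the digits of the shape and the side information. -/
theorem ldat_ok' (k K : ℕ) (C₀ : ℝ) (hC₀ : 1 ≤ C₀) : ∃ (A : ℕ) (c₀ : ℝ), 0 ≤ c₀ ∧ ∀ (J : ℕ)
    (F : Fam (k + 1) J) (i₁ : Fin (k + 1)) (a w q P e X : ℕ)
    (H : ((Fin (k + 1) → ℝ) × (Fin (k + 1) → ℝ)) × F.ζ × ℕ → MvPolynomial (Fin (k + 1)) ℝ)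
    (Gf : F.Ω → MvPolynomial (Fin (k + 1)) ℝ) (p : F.Ω → ℝ) (Tau : Type) (T : F.Ω → Tau)
    (b : Pool.M5.Bas k (Pool.M5.Mon k K)) (c : ℝ), IsLaw p →
    (∀ i, b.g i = Pool.M5.mono (i : Fin k → ℕ)) → 1 ≤ K → w ≤ J → a + X ≤ q + w → 3 ≤ X →
    (∀ ω, 0 < p ω → (Gf ω).totalDegree ≤ K ∧
      (∀ z : Fin (k + 1) → ℝ, (∀ i, 0 ≤ z i ∧ z i ≤ 1) → z i₁ = F.tw w ω →
        |2 ^ e * (eval z (plb F i₁ a w q ω (Gf ω)) - eval z (Rc F i₁ a w q K P H ω))| ≤ C₀) ∧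
      |F.x ω i₁ - eval (bp F i₁ ω) (Gf ω)| ≤ 1 / 2 ^ (e + X) ∧
      ∀ i < K, |((⌊(2 : ℝ) ^ X * (cl F i₁ a w q K P e H ω).coeff (i + 1)⌋ : ℤ) : ℝ)| ≤
        2 ^ X) →
    (∀ ω ω', 0 < p ω → 0 < p ω' → slam F w ω = slam F w ω' → T ω = T ω' → Gf ω = Gf ω') →
    (∀ ω ω', 0 < p ω → 0 < p ω' → T ω = T ω' → F.tw w ω = F.tw w ω' ∧
      shd F i₁ a w q K P e X H Gf ω = shd F i₁ a w q K P e X H Gf ω') → c₀ ≤ c →
    (∀ ω, 0 < p ω → thf F w p T (T ω) = F.tw w ω) ∧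
    (ldat F i₁ a w q K P e X H Gf p T (thf F w p T) (cof F i₁ a w q K P e X H Gf p T)).OK b A c := by
  obtain ⟨A, hA⟩ := ldat_ok k K C₀ (by linarith)
  obtain ⟨B, hB0, hB⟩ := shc_bound k K
  refine ⟨A, Real.logb 2 (B * C₀ + 1), Real.logb_nonneg one_lt_two (by
    have : 0 ≤ B * C₀ := by positivity
    linarith), ?_⟩
  intro J F i₁ a w q P e X H Gf p Tau T b c hp hb hK hw hq hX hs hG hT hc
  have hXp : (0 : ℝ) < 2 ^ X := by positivity
  have hth : ∀ ω, 0 < p ω → thf F w p T (T ω) = F.tw w ω := fun ω hω =>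
    fac_eq (fun ω ω' h h' e => (hT ω ω' h h' e).1) hω
  have hco : ∀ ω, 0 < p ω → cof F i₁ a w q K P e X H Gf p T (T ω) =
      fun al => (shd F i₁ a w q K P e X H Gf ω al : ℝ) / 2 ^ X := fun ω hω =>
    fac_eq (g := fun ω al => (shd F i₁ a w q K P e X H Gf ω al : ℝ) / 2 ^ X)
      (fun ω ω' h h' e => by
        rw [(hT ω ω' h h' e).2]) hω
  refine ⟨hth, hA J F i₁ a w q P e X H Gf p Tau T _ _ b c hp hb hK hw hq hX (fun ω hω => ?_) hG ?_
    ?_⟩
  · obtain ⟨s1, s2, s3, s4⟩ := hs ω hω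
    refine ⟨s1, s2, s3, s4, hth ω hω, fun al => ?_⟩
    rw [hco ω hω]
    refine (floor_div_near X _).trans ?_
    exact div_le_div_of_nonneg_right hC₀ hXp.le
  · intro t
    refine fac_mem (Q := fun x : ℝ => 0 ≤ x ∧ x < 1) ⟨le_rfl, one_pos⟩ (fun ω _ => ?_) t
    have t01 := T1_real F hw ω
    unfold Fam.tw
    constructor <;> linarith only [t01, t01.1, t01.2]
  · intro t al
    have h2c : B * C₀ + 1 ≤ (2 : ℝ) ^ c := by
      have h0 : 0 < B * C₀ + 1 := by positivity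
      calc B * C₀ + 1 = (2 : ℝ) ^ Real.logb 2 (B * C₀ + 1) :=
            (Real.rpow_logb (by norm_num) (by norm_num) h0).symm
        _ ≤ (2 : ℝ) ^ c := Real.rpow_le_rpow_of_exponent_le (by norm_num) hc
    refine fac_mem (Q := fun v : Pool.M5.Mon k K → ℝ => ∀ al, |v al| ≤ (2 : ℝ) ^ c)
      (fun al => by
        rw [Pi.zero_apply, abs_zero]
        positivity) (fun ω hω al => ?_) t al
    refine le_trans ?_ h2c
    obtain ⟨s1, s2, s3, s4⟩ := hs ω hω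
    have t01 := T1_real F hw ω
    have e1 := hB e i₁ (plb F i₁ a w q ω (Gf ω)) (Rc F i₁ a w q K P H ω) C₀ (F.tw w ω)
      ((totalDegree_pull_le _ _ _ _ _ _).trans s1) (totalDegree_rdz _ _ _) (by
        unfold Fam.tw
        linarith only [t01, t01.1]) (by
        unfold Fam.tw
        linarith only [t01, t01.2]) s2 (al : Fin k → ℕ)
    have e2 := floor_div_near X (shw F i₁ a w q K P e H Gf ω al)
    have e3 : (1 : ℝ) / 2 ^ X ≤ 1 := by
      rw [div_le_one hXp]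
      exact one_le_pow₀ (by norm_num)
    have e4 : |shw F i₁ a w q K P e H Gf ω al| ≤ B * C₀ := e1
    unfold shd
    rw [abs_le] at e2 e4 ⊢
    constructor <;> linarith only [e2, e3, e4, e2.1, e2.2, e4.1, e4.2]

/-- Equal variables have equal conditional entropies. -/
theorem CH_supp {Ω S U : Type} [Fintype Ω] {p : Ω → ℝ} (hp : ∀ ω, 0 ≤ p ω) {X X' : Ω → S}
    {W W' : Ω → U} (h1 : ∀ ω, 0 < p ω → X ω = X' ω) (h2 : ∀ ω, 0 < p ω → W ω = W' ω) :
    CH p X W = CH p X' W' := by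
  refine CH_congr hp ?_ ?_ ?_ ?_ <;> intro ω ω' hω hω' h
  · obtain ⟨e1, -⟩ := Prod.ext_iff.1 h
    rw [← h1 ω hω, ← h1 ω' hω']
    exact e1
  · obtain ⟨e1, -⟩ := Prod.ext_iff.1 h
    rw [h1 ω hω, h1 ω' hω']
    exact e1
  · rw [← h2 ω hω, ← h2 ω' hω']
    exact h
  · rw [h2 ω hω, h2 ω' hω']
    exact h

section hyp

variable {F : Fam (k + 1) J} {i₁ : Fin (k + 1)} {a w q K P e X : ℕ}
  {H : ((Fin (k + 1) → ℝ) × (Fin (k + 1) → ℝ)) × F.ζ × ℕ → MvPolynomial (Fin (k + 1)) ℝ}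
  {Gf : F.Ω → MvPolynomial (Fin (k + 1)) ℝ} {p : F.Ω → ℝ} {Tau : Type} {T : F.Ω → Tau}
  {th : Tau → ℝ} {co : Tau → Pool.M5.Mon k K → ℝ}

/-- (H1) of the data. -/
theorem ldat_H1 (hp : IsLaw p) (ht : ∀ ω, 0 < p ω → th (T ω) = F.tw w ω) {ι ε₀ : ℝ} {j₀ : ℕ}
    (h1 : Pool.KVA.MI p T (slam F w) (fun _ => ()) ≤ ι * X)
    (h2 : (1 - ι) * X * Real.log 2 ≤ CH p (fun ω => ⌊(2 : ℝ) ^ X * F.tw w ω⌋) (slam F w))
    (h3 : j₀ * Real.log 2 - ε₀ ≤ CH p (fun ω => ⌊(2 : ℝ) ^ j₀ * F.tw w ω⌋) (slam F w)) :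
    (ldat F i₁ a w q K P e X H Gf p T th co).H1 ι j₀ ε₀ := by
  have e : ∀ i, CH p (fun ω => ⌊(2 : ℝ) ^ i * th (T ω)⌋) (slam F w) =
      CH p (fun ω => ⌊(2 : ℝ) ^ i * F.tw w ω⌋) (slam F w) := fun i =>
    CH_supp hp.nonneg (fun ω hω => by rw [ht ω hω]) (fun _ _ => rfl)
  refine ⟨h1, ?_, ?_⟩
  · change _ ≤ CH p (fun ω => ⌊(2 : ℝ) ^ X * th (T ω)⌋) (slam F w)
    rw [e]
    exact h2
  · change _ ≤ CH p (fun ω => ⌊(2 : ℝ) ^ j₀ * th (T ω)⌋) (slam F w)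
    rw [e]
    exact h3

/-- (H2) of the data. -/
theorem ldat_H2 (hp : IsLaw p) (b : Pool.M5.Bas k (Pool.M5.Mon k K)) {ι : ℝ}
    (h : Pool.KVA.MI p (fun ω => ⌊(2 : ℝ) ^ X * nuw F i₁ a w q K P e H Gf ω⌋)
      (fun ω => ((fun j => ⌊(2 : ℝ) ^ X * yt F i₁ a w ω j⌋ : Fin k → ℤ),
        (fun i => ⌊(2 : ℝ) ^ X * (cl F i₁ a w q K P e H ω).coeff (i.val + 1)⌋ : Fin K → ℤ))) T ≤
      ι * X) :
    ((ldat F i₁ a w q K P e X H Gf p T th co).toR b).H2 ι := by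
  change Pool.KVA.MI p (fun ω => ⌊(2 : ℝ) ^ X * nuw F i₁ a w q K P e H Gf ω⌋)
    (fun ω => (yd F i₁ a w X p (slam F w ω), cd F i₁ a w q K P e X H p (slam F w ω))) T ≤ ι * X
  refine le_trans (le_of_eq ?_) h
  unfold Pool.KVA.MI
  have hee : ∀ ω, 0 < p ω → (yd F i₁ a w X p (slam F w ω), cd F i₁ a w q K P e X H p (slam F w ω)) =
      ((fun j => ⌊(2 : ℝ) ^ X * yt F i₁ a w ω j⌋ : Fin k → ℤ),
        (fun i => ⌊(2 : ℝ) ^ X * (cl F i₁ a w q K P e H ω).coeff (i.val + 1)⌋ : Fin K → ℤ)) := by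
    intro ω hω
    rw [yd_eq hω, cd_eq hω]
  rw [CH_supp hp.nonneg (W := T) (W' := T) hee (fun _ _ => rfl),
    CH_supp hp.nonneg (W := T) (W' := T)
      (X := fun ω => (⌊(2 : ℝ) ^ X * nuw F i₁ a w q K P e H Gf ω⌋,
        (yd F i₁ a w X p (slam F w ω), cd F i₁ a w q K P e X H p (slam F w ω))))
      (fun ω hω => by rw [hee ω hω]) (fun _ _ => rfl)]

/-- (H3) of the data. -/
theorem ldat_H3 (hp : IsLaw p) {ι : ℝ}
    (h : (k - ι) * X * Real.log 2 ≤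
      Pool.Agent.H49.Ent.H p (fun ω => (fun j => ⌊(2 : ℝ) ^ X * yt F i₁ a w ω j⌋ : Fin k → ℤ))) :
    (ldat F i₁ a w q K P e X H Gf p T th co).H3 ι := by
  change (k - ι) * X * Real.log 2 ≤ Pool.Agent.H49.Ent.H p
    (fun ω => yd F i₁ a w X p (slam F w ω))
  refine h.trans (le_of_eq (H_congr hp.nonneg ?_ ?_)) <;> intro ω ω' hω hω' e
  · have e1 : yd F i₁ a w X p (slam F w ω) = yd F i₁ a w X p (slam F w ω') := e
    rw [yd_eq hω, yd_eq hω'] at e1
    exact e1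
  · change yd F i₁ a w X p (slam F w ω) = yd F i₁ a w X p (slam F w ω')
    rw [yd_eq hω, yd_eq hω']
    exact e

theorem floor_coarse {X r : ℕ} (h : r ≤ X) (x : ℝ) :
    ⌊(2 : ℝ) ^ X * x⌋ / 2 ^ (X - r) = ⌊(2 : ℝ) ^ r * x⌋ := by
  have e : (2 : ℝ) ^ r * x = (2 ^ X * x) / ((2 ^ (X - r) : ℕ) : ℝ) := by
    have : (2 : ℝ) ^ X = 2 ^ r * 2 ^ (X - r) := by
      rw [← pow_add]
      congr 1
      omega
    rw [this]
    push_cast
    field_simp
  rw [e, Int.floor_div_natCast]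
  push_cast
  rfl

/-- (H5) of the data. -/
theorem ldat_H5 (b : Pool.M5.Bas k (Pool.M5.Mon k K)) {c κ π₀ : ℝ}
    (h : ∀ j : ℕ, (j + 1) * ⌊κ * X⌋₊ ≤ X → ∀ E : Set F.Ω, π₀ ≤ Pool.KAF.Pr p E →
      CH (Pool.Agent.H49.Ent.cond p (fun ω => ω ∈ E) True)
        (fun ω => ⌊(2 : ℝ) ^ ((j + 1) * ⌊κ * X⌋₊) * nuw F i₁ a w q K P e H Gf ω⌋)
        (fun ω => (⌊(2 : ℝ) ^ (j * ⌊κ * X⌋₊) * nuw F i₁ a w q K P e H Gf ω⌋, T ω)) ≤
      (1 - c) * ⌊κ * X⌋₊ * Real.log 2) :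
    ((ldat F i₁ a w q K P e X H Gf p T th co).toR b).H5 c κ π₀ ∅ := by
  intro j _ hj E hE
  have hj' : (j + 1) * ⌊κ * (X : ℝ)⌋₊ ≤ X := hj
  have hee := h j hj' E hE
  have e1 : (fun ω => ⌊(2 : ℝ) ^ ((j + 1) * ⌊κ * (X : ℝ)⌋₊) * nuw F i₁ a w q K P e H Gf ω⌋) =
      fun ω => ⌊(2 : ℝ) ^ X * nuw F i₁ a w q K P e H Gf ω⌋ / 2 ^ (X - (j + 1) * ⌊κ * (X : ℝ)⌋₊) := by
    funext ω
    rw [floor_coarse hj']
  have e2 : (fun ω => (⌊(2 : ℝ) ^ (j * ⌊κ * (X : ℝ)⌋₊) * nuw F i₁ a w q K P e H Gf ω⌋, T ω)) =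
      fun ω => (⌊(2 : ℝ) ^ X * nuw F i₁ a w q K P e H Gf ω⌋ / 2 ^ (X - j * ⌊κ * (X : ℝ)⌋₊), T ω) := by
    funext ω
    rw [floor_coarse (by nlinarith only [hj'])]
  rw [e1, e2] at hee
  exact hee

end hyp

end dat

end Pool.SLO
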