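import Pool.Agent.H92.M5.Tools
import Pool.Agent.H48.OC.Step
import Pool.Agent.H31.M5.H2

/-!
# Choice of the contexts: the hypotheses of L1 for most contexts from their averages

`b` is the context, `q` the event of the good lines, both functions of the line `L`; `q` is also a
function of the digits `V` of the line. `g = (b, q)`.
-/

set_option autoImplicit false

namespace Pool.SLO

open Finset Real
open Pool.Agent.H49.Ent Pool.Agent.H32.Dense Pool.STK Pool.KAF Pool.KVA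

variable {Ω : Type} [Fintype Ω] {p : Ω → ℝ}

/-- The average of the dependences in the contexts. -/
theorem avg_mi {S U W γ : Type} (hp : ∀ ω, 0 ≤ p ω) (X : Ω → S) (Y : Ω → U) (Z : Ω → W)
    (g : Ω → γ) : Ex p (fun ω => MI (cond p g (g ω)) X Y Z) = MI p X Y (fun ω => (Z ω, g ω)) := by
  unfold MI
  rw [Pool.OCG.CH_pair_eq_Ex hp, Pool.OCG.CH_pair_eq_Ex hp, Pool.OCG.CH_pair_eq_Ex hp]
  rw [Ex_sub, Ex_add]

/-- The dependence of the line in finer contexts. -/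
theorem mi_line {S Λ β γ : Type} (hp : ∀ ω, 0 ≤ p ω) (T : Ω → S) (L : Ω → Λ) (b : Ω → β)
    (g : Ω → γ) (hgb : Det p g b) (hLg : Det p L g) : MI p T L g ≤ MI p T L b := by
  rw [Pool.M5.MI_eq hp, Pool.M5.MI_eq hp]
  have h1 : CH p T g ≤ CH p T b := CH_mono_cond hp hgb
  have h2 : CH p T (fun ω => (L ω, g ω)) = CH p T (fun ω => (L ω, b ω)) := by
    refine CH_congr hp ?_ ?_ ?_ ?_ <;> intro ω ω' hω hω' h
    · exact (Prod.ext_iff.1 h).1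
    · exact (Prod.ext_iff.1 h).1
    · exact Prod.ext (Prod.ext_iff.1 h).1 (hgb ω ω' hω hω' (Prod.ext_iff.1 h).2)
    · exact Prod.ext (Prod.ext_iff.1 h).1 (hLg ω ω' hω hω' (Prod.ext_iff.1 h).1)
  rw [h2]
  linarith

/-- The dependence of the digits of the line in finer contexts. -/
theorem mi_dig {S V β γ τ : Type} (hp : ∀ ω, 0 ≤ p ω) (N : Ω → S) (v : Ω → V) (t : Ω → τ)
    (b : Ω → β) (g : Ω → γ) (hgb : Det p g b) (hvg : Det p (fun ω => (v ω, b ω)) g) :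
    MI p N v (fun ω => (t ω, g ω)) ≤ MI p N v (fun ω => (t ω, b ω)) := by
  rw [Pool.M5.MI_eq hp, Pool.M5.MI_eq hp]
  have h1 : CH p N (fun ω => (t ω, g ω)) ≤ CH p N (fun ω => (t ω, b ω)) :=
    CH_mono_cond hp fun ω ω' hω hω' h =>
      Prod.ext (Prod.ext_iff.1 h).1 (hgb ω ω' hω hω' (Prod.ext_iff.1 h).2)
  have h2 : CH p N (fun ω => (v ω, (t ω, g ω))) = CH p N (fun ω => (v ω, (t ω, b ω))) := by
    refine CH_congr hp ?_ ?_ ?_ ?_ <;> intro ω ω' hω hω' h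
    · exact (Prod.ext_iff.1 h).1
    · exact (Prod.ext_iff.1 h).1
    · obtain ⟨a1, a2⟩ := Prod.ext_iff.1 h
      obtain ⟨a3, a4⟩ := Prod.ext_iff.1 a2
      exact Prod.ext a1 (Prod.ext a3 (hgb ω ω' hω hω' a4))
    · obtain ⟨a1, a2⟩ := Prod.ext_iff.1 h
      obtain ⟨a3, a4⟩ := Prod.ext_iff.1 a2
      exact Prod.ext a1 (Prod.ext a3 (hvg ω ω' hω hω' (Prod.ext a1 a4)))
  rw [h2]
  linarith

open Classical in
/-- One bit more in the context. -/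
theorem ch_bit {S β : Type} (hp : IsLaw p) (y : Ω → S) (b : Ω → β) (q : Ω → Prop) :
    CH p y b ≤ CH p y (fun ω => (b ω, q ω)) + Real.log 2 := by
  have h1 := CH_le_add hp.nonneg y q b
  have h2 : CH p q b ≤ Real.log 2 := by
    have := CH_le_card hp.nonneg hp.sum_one q b (fun _ => ({True, False} : Finset Prop))
      (fun ω _ => by
        by_cases h : q ω
        · simp [h]
        · simp [h])
    refine this.trans (le_of_eq ?_)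
    rw [Ex_const hp.sum_one]
    congr 1
    rw [Finset.card_pair (by simp)]
    norm_num
  have h3 : CH p y (fun ω => (q ω, b ω)) = CH p y (fun ω => (b ω, q ω)) := by
    refine CH_congr hp.nonneg ?_ ?_ ?_ ?_ <;> intro ω ω' _ _ h <;>
      simp only [Prod.mk.injEq] at h ⊢ <;> tauto
  linarith

/-- **Choice of the contexts.** -/
theorem pick {β τ Λ ν υ φ : Type} (hp : IsLaw p) (b : Ω → β) (q : Ω → Prop) (L : Ω → Λ)
    (T : Ω → τ) (N : Ω → ν) (V : Ω → υ) (y : Ω → φ) (t₁ t₂ : Ω → ℤ)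
    {my m₁ m₂ e₁ e₂ e₃ e₄ e₅ θ₁ θ₂ θ₃ θ₄ θ₅ : ℝ} (hθ₁ : 0 < θ₁) (hθ₂ : 0 < θ₂) (hθ₃ : 0 < θ₃)
    (hθ₄ : 0 < θ₄) (hθ₅ : 0 < θ₅)
    (hLb : Det p L b) (hLq : Det p L q) (hVq : Det p (fun ω => (V ω, b ω)) q)
    (hy : ∀ p' : Ω → ℝ, IsLaw p' → (∀ ω, 0 < p' ω → 0 < p ω) → H p' y ≤ my)
    (ht₁ : ∀ p' : Ω → ℝ, IsLaw p' → (∀ ω, 0 < p' ω → 0 < p ω) → CH p' t₁ L ≤ m₁)
    (ht₂ : ∀ p' : Ω → ℝ, IsLaw p' → (∀ ω, 0 < p' ω → 0 < p ω) → CH p' t₂ L ≤ m₂)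
    (h1 : MI p T L b ≤ e₁) (h2 : m₁ - e₂ ≤ CH p t₁ L) (h3 : m₂ - e₃ ≤ CH p t₂ L)
    (h4 : MI p N V (fun ω => (T ω, b ω)) ≤ e₄) (h5 : my - e₅ + Real.log 2 ≤ CH p y b) :
    Pr p {ω | ¬ (q ω ∧
      MI (cond p (fun ω => (b ω, q ω)) (b ω, q ω)) T L (fun _ => ()) ≤ θ₁ ∧
      m₁ - θ₂ ≤ CH (cond p (fun ω => (b ω, q ω)) (b ω, q ω)) t₁ L ∧
      m₂ - θ₃ ≤ CH (cond p (fun ω => (b ω, q ω)) (b ω, q ω)) t₂ L ∧
      MI (cond p (fun ω => (b ω, q ω)) (b ω, q ω)) N V T ≤ θ₄ ∧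
      my - θ₅ ≤ H (cond p (fun ω => (b ω, q ω)) (b ω, q ω)) y)} ≤
    Pr p {ω | ¬ q ω} + e₁ / θ₁ + e₂ / θ₂ + e₃ / θ₃ + e₄ / θ₄ + e₅ / θ₅ := by
  classical
  have hp0 := hp.nonneg
  set g : Ω → β × Prop := fun ω => (b ω, q ω) with hg
  have hgb : Det p g b := fun ω ω' _ _ h => (Prod.ext_iff.1 h).1
  have hLg : Det p L g := fun ω ω' hω hω' h =>
    Prod.ext (hLb ω ω' hω hω' h) (hLq ω ω' hω hω' h)
  have hlaw : ∀ ω, 0 < p ω → IsLaw (cond p g (g ω)) := fun ω hω =>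
    ⟨fun v => cond_nonneg hp0 g _ v, sum_cond p g (law_pos hp0 g hω).ne'⟩
  have hsup : ∀ ω ω', 0 < cond p g (g ω) ω' → 0 < p ω' := fun ω ω' h =>
    ((cond_pos_iff hp0 g _ ω').1 h).1
  -- the averages
  have a1 : Ex p (fun ω => MI (cond p g (g ω)) T L (fun _ => ())) ≤ e₁ := by
    rw [avg_mi hp0]
    have c1 : MI p T L (fun ω => ((), g ω)) = MI p T L g := by
      unfold MI
      have e : ∀ {S : Type} (X : Ω → S), CH p X (fun ω => ((), g ω)) = CH p X g := by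
        intro S X
        refine CH_congr hp0 ?_ ?_ ?_ ?_ <;> intro ω ω' _ _ h <;>
          simp only [Prod.mk.injEq] at h ⊢ <;> tauto
      rw [e, e, e]
    rw [c1]
    exact (mi_line hp0 T L b g hgb hLg).trans h1
  have aCH : ∀ t : Ω → ℤ, Ex p (fun ω => CH (cond p g (g ω)) t L) = CH p t L := by
    intro t
    rw [← Pool.OCG.CH_pair_eq_Ex hp0]
    refine CH_congr hp0 ?_ ?_ ?_ ?_ <;> intro ω ω' hω hω' h
    · exact (Prod.ext_iff.1 h).1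
    · exact (Prod.ext_iff.1 h).1
    · exact (Prod.ext_iff.1 h).1
    · exact Prod.ext h (hLg ω ω' hω hω' h)
  have a2 : Ex p (fun ω => m₁ - CH (cond p g (g ω)) t₁ L) ≤ e₂ := by
    rw [Ex_sub, Ex_const hp.sum_one, aCH]
    linarith
  have a3 : Ex p (fun ω => m₂ - CH (cond p g (g ω)) t₂ L) ≤ e₃ := by
    rw [Ex_sub, Ex_const hp.sum_one, aCH]
    linarith
  have a4 : Ex p (fun ω => MI (cond p g (g ω)) N V T) ≤ e₄ := by
    rw [avg_mi hp0]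
    refine (mi_dig hp0 N V T b g hgb ?_).trans h4
    intro ω ω' hω hω' h
    exact Prod.ext (Prod.ext_iff.1 h).2 (hVq ω ω' hω hω' h)
  have a5 : Ex p (fun ω => my - H (cond p g (g ω)) y) ≤ e₅ := by
    rw [Ex_sub, Ex_const hp.sum_one, ← Pool.OCG.CH_eq_Ex hp0]
    have := ch_bit hp y b q
    linarith
  -- Markov
  have m1 := Pool.M5T.Pr_gt hp0 (fun ω => MI (cond p g (g ω)) T L (fun _ => ()))
    (fun ω hω => Pool.M5.MI_nonneg (hlaw ω hω).nonneg _ _ _) hθ₁ a1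
  have m2 := Pool.M5T.Pr_gt hp0 (fun ω => m₁ - CH (cond p g (g ω)) t₁ L)
    (fun ω hω => by
      have := ht₁ _ (hlaw ω hω) (hsup ω)
      linarith) hθ₂ a2
  have m3 := Pool.M5T.Pr_gt hp0 (fun ω => m₂ - CH (cond p g (g ω)) t₂ L)
    (fun ω hω => by
      have := ht₂ _ (hlaw ω hω) (hsup ω)
      linarith) hθ₃ a3
  have m4 := Pool.M5T.Pr_gt hp0 (fun ω => MI (cond p g (g ω)) N V T)
    (fun ω hω => Pool.M5.MI_nonneg (hlaw ω hω).nonneg _ _ _) hθ₄ a4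
  have m5 := Pool.M5T.Pr_gt hp0 (fun ω => my - H (cond p g (g ω)) y)
    (fun ω hω => by
      have := hy _ (hlaw ω hω) (hsup ω)
      linarith) hθ₅ a5
  -- union
  have u1 : Pr p {ω | ¬ (q ω ∧ MI (cond p g (b ω, q ω)) T L (fun _ => ()) ≤ θ₁ ∧
      m₁ - θ₂ ≤ CH (cond p g (b ω, q ω)) t₁ L ∧ m₂ - θ₃ ≤ CH (cond p g (b ω, q ω)) t₂ L ∧
      MI (cond p g (b ω, q ω)) N V T ≤ θ₄ ∧ my - θ₅ ≤ H (cond p g (b ω, q ω)) y)} ≤
      Pr p {ω | ¬ q ω} + Pr p {ω | ¬ (MI (cond p g (b ω, q ω)) T L (fun _ => ()) ≤ θ₁ ∧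
      m₁ - θ₂ ≤ CH (cond p g (b ω, q ω)) t₁ L ∧ m₂ - θ₃ ≤ CH (cond p g (b ω, q ω)) t₂ L ∧
      MI (cond p g (b ω, q ω)) N V T ≤ θ₄ ∧ my - θ₅ ≤ H (cond p g (b ω, q ω)) y)} :=
    Pool.M5T.Pr_or hp0 fun ω _ h => not_and_or.1 h
  have u2 : Pr p {ω | ¬ (MI (cond p g (b ω, q ω)) T L (fun _ => ()) ≤ θ₁ ∧
      m₁ - θ₂ ≤ CH (cond p g (b ω, q ω)) t₁ L ∧ m₂ - θ₃ ≤ CH (cond p g (b ω, q ω)) t₂ L ∧
      MI (cond p g (b ω, q ω)) N V T ≤ θ₄ ∧ my - θ₅ ≤ H (cond p g (b ω, q ω)) y)} ≤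
      Pr p {ω | θ₁ < MI (cond p g (g ω)) T L (fun _ => ())} + Pr p {ω | ¬ (
      m₁ - θ₂ ≤ CH (cond p g (b ω, q ω)) t₁ L ∧ m₂ - θ₃ ≤ CH (cond p g (b ω, q ω)) t₂ L ∧
      MI (cond p g (b ω, q ω)) N V T ≤ θ₄ ∧ my - θ₅ ≤ H (cond p g (b ω, q ω)) y)} :=
    Pool.M5T.Pr_or hp0 fun ω _ h => (not_and_or.1 h).imp not_le.1 id
  have u3 : Pr p {ω | ¬ (m₁ - θ₂ ≤ CH (cond p g (b ω, q ω)) t₁ L ∧
      m₂ - θ₃ ≤ CH (cond p g (b ω, q ω)) t₂ L ∧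
      MI (cond p g (b ω, q ω)) N V T ≤ θ₄ ∧ my - θ₅ ≤ H (cond p g (b ω, q ω)) y)} ≤
      Pr p {ω | θ₂ < m₁ - CH (cond p g (g ω)) t₁ L} + Pr p {ω | ¬ (
      m₂ - θ₃ ≤ CH (cond p g (b ω, q ω)) t₂ L ∧
      MI (cond p g (b ω, q ω)) N V T ≤ θ₄ ∧ my - θ₅ ≤ H (cond p g (b ω, q ω)) y)} :=
    Pool.M5T.Pr_or hp0 fun ω _ h => (not_and_or.1 h).imp
      (fun h' => by
        have h2 := not_le.1 h'
        show θ₂ < m₁ - CH (cond p g (g ω)) t₁ L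
        linarith) id
  have u4 : Pr p {ω | ¬ (m₂ - θ₃ ≤ CH (cond p g (b ω, q ω)) t₂ L ∧
      MI (cond p g (b ω, q ω)) N V T ≤ θ₄ ∧ my - θ₅ ≤ H (cond p g (b ω, q ω)) y)} ≤
      Pr p {ω | θ₃ < m₂ - CH (cond p g (g ω)) t₂ L} + Pr p {ω | ¬ (
      MI (cond p g (b ω, q ω)) N V T ≤ θ₄ ∧ my - θ₅ ≤ H (cond p g (b ω, q ω)) y)} :=
    Pool.M5T.Pr_or hp0 fun ω _ h => (not_and_or.1 h).imp
      (fun h' => by
        have h2 := not_le.1 h'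
        show θ₃ < m₂ - CH (cond p g (g ω)) t₂ L
        linarith) id
  have u5 : Pr p {ω | ¬ (MI (cond p g (b ω, q ω)) N V T ≤ θ₄ ∧
      my - θ₅ ≤ H (cond p g (b ω, q ω)) y)} ≤
      Pr p {ω | θ₄ < MI (cond p g (g ω)) N V T} +
        Pr p {ω | θ₅ < my - H (cond p g (g ω)) y} :=
    Pool.M5T.Pr_or hp0 fun ω _ h => (not_and_or.1 h).imp not_le.1
      (fun h' => by
        have h2 := not_le.1 h'
        show θ₅ < my - H (cond p g (g ω)) y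
        linarith)
  linarith

end Pool.SLO
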