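import Pool.Agent.H81.SLP.Core
import Pool.Agent.H31.M5.L1W

/-!
# Lemma L1 for the whole law, output for nodes and one more sample of the line
-/

set_option autoImplicit false

namespace Pool.SLO

open Finset Real MvPolynomial
open Pool.Agent.H49.Ent Pool.Agent.H32.Dense Pool.STK Pool.KA Pool.KSAT Pool.K2S Pool.PB
open Pool.KAF Pool.M5

section one

variable {Ω Λ γ : Type} [Fintype Ω] {p : Ω → ℝ} {L : Ω → Λ} {g : Ω → γ} {n : ℕ}

/-- A reference and one more sample of its line. -/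
noncomputable def q1 (p : Ω → ℝ) (L : Ω → Λ) (n : ℕ) : (Fin (n + 1) → Ω) × Ω → ℝ :=
  glue (tup p L n) p (fun v => L (v 0)) L

theorem q1_marg (hp : ∀ ω, 0 ≤ p ω) : Marg (q4 p L L n) (q1 p L n) (fun u => (u.1, u.2.1)) := by
  classical
  rintro ⟨v, ω⟩
  have h0 : Marg (dbl p L) p (fun w => w.1) :=
    marg_fst (Z₁ := L) (Z₂ := L) hp fun _ => rfl
  rw [Fintype.sum_prod_type, Finset.sum_eq_single v]
  · have h2 : ∑ w : Ω × Ω, (if w.1 = ω then dbl p L w else 0) = p ω := h0 ω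
    refine (Finset.sum_congr rfl fun w _ => (?_ : _ = (if w.1 = ω then dbl p L w else 0) *
      (if L (v 0) = L ω then
          tup p L n v / law (tup p L n) (fun v => L (v 0)) (L (v 0)) else 0))).trans ?_
    · by_cases hw : w.1 = ω
      · rw [if_pos (by simp [hw]), if_pos hw]
        unfold q4 glue
        simp only [hw]
        by_cases hL : L (v 0) = L ω
        · rw [if_pos hL, if_pos hL]
          ring
        · rw [if_neg hL, if_neg hL, mul_zero]
      · rw [if_neg (by simp [hw]), if_neg hw, zero_mul]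
    rw [← Finset.sum_mul, h2]
    unfold q1 glue
    by_cases hL : L (v 0) = L ω
    · rw [if_pos hL]
      simp only [hL, if_true]
      ring
    · rw [if_neg hL]
      simp only [hL, if_false]
      ring
  · intro v' _ hv'
    refine Finset.sum_eq_zero fun w _ => ?_
    rw [if_neg (fun h => hv' (Prod.ext_iff.1 h).1)]
  · intro h
    exact absurd (Finset.mem_univ _) h

theorem Pr_q1 (hp : ∀ ω, 0 ≤ p ω) (E : Set ((Fin (n + 1) → Ω) × Ω)) :
    Pr (q1 p L n) E = Pr (q4 p L L n) {u | (u.1, u.2.1) ∈ E} := by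
  unfold Pr
  exact ((q1_marg hp).law (fun w => w ∈ E) True).symm

/-- **An event of nodes and one more sample**: if it is rare for the conditioned laws, except for
rare values of the function `g` of the line, it is rare. -/
theorem q1_mix (hp : IsLaw p) (hg : Det p L g) (E : Set ((Fin (n + 1) → Ω) × Ω)) (bad : Set γ)
    {ε : ℝ} (hε : 0 ≤ ε)
    (h : ∀ z, 0 < law p g z → z ∉ bad → Pr (q1 (cond p g z) L n) E ≤ ε) :
    Pr (q1 p L n) E ≤ Pr p {ω | g ω ∈ bad} + ε := by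
  rw [Pr_q1 hp.nonneg]
  refine q4_mix hp hg (fun _ _ _ _ h => h) _ bad hε fun z hz hzb => ?_
  rw [← Pr_q1 (fun ω => cond_nonneg hp.nonneg g z ω)]
  exact h z hz hzb

end one

section core

variable {k J : ℕ}

theorem ldat_Q1 (F : Fam (k + 1) J) (i₁ : Fin (k + 1)) (a w q K P e X : ℕ)
    (H : ((Fin (k + 1) → ℝ) × (Fin (k + 1) → ℝ)) × F.ζ × ℕ → MvPolynomial (Fin (k + 1)) ℝ)
    (Gf : F.Ω → MvPolynomial (Fin (k + 1)) ℝ) (p : F.Ω → ℝ) {Tau : Type} (T : F.Ω → Tau)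
    (th : Tau → ℝ) (co : Tau → Mon k K → ℝ) :
    (ldat F i₁ a w q K P e X H Gf p T th co).Q1 = q1 p (slam F w) K := by
  classical
  have h1 : (ldat F i₁ a w q K P e X H Gf p T th co).Qr = tup p (slam F w) K := by
    funext v
    rw [tup_eq]
    unfold LDat.Qr
    rfl
  unfold LDat.Q1 q1
  rw [h1]
  rfl

/-- **Lemma L1 for the whole law**, output for nodes and one more sample of the line: outside a
rare event the nodes are separated and the coefficients of the shape at the time of the sample are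
the values of the interpolation of the coefficients at the nodes. -/
theorem coreW (hW : L1WStmt) (k K : ℕ) (hK : 1 ≤ K) (C₀ c ε : ℝ) (hC₀ : 1 ≤ C₀) (hc : 0 < c)
    (hε : 0 < ε) : ∃ (κ₂ κ π₀ ι ε₀ : ℝ) (k₀ j₀ X₀ : ℕ), 0 < κ₂ ∧ 0 < κ ∧ κ ≤ 1 ∧ 0 < π₀ ∧
      0 < ι ∧ 0 < ε₀ ∧ ∀ (J : ℕ) (F : Fam (k + 1) J) (i₁ : Fin (k + 1)) (a w q P e X : ℕ)
      (H : ((Fin (k + 1) → ℝ) × (Fin (k + 1) → ℝ)) × F.ζ × ℕ → MvPolynomial (Fin (k + 1)) ℝ)
      (Gf : F.Ω → MvPolynomial (Fin (k + 1)) ℝ) (p : F.Ω → ℝ) (Tau : Type) (T : F.Ω → Tau),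
      X₀ ≤ X → Avg F i₁ a w q K P e X H Gf p T C₀ c κ π₀ ι ε₀ j₀ →
      Pr (q1 p (slam F w) K) {u | (∃ j j', j ≠ j' ∧
          |F.tw w (u.1 j) - F.tw w (u.1 j')| < (2 : ℝ) ^ (-(k₀ : ℤ))) ∨
        ∃ i : Mon k K, (2 : ℝ) ^ (-(κ₂ * X)) <
          |(shd F i₁ a w q K P e X H Gf u.2 i : ℝ) / 2 ^ X -
            (Lagrange.interpolate univ (fun j => F.tw w (u.1 j))
              (fun j => (shd F i₁ a w q K P e X H Gf (u.1 j) i : ℝ) / 2 ^ X)).eval
              (F.tw w u.2)|} ≤ ε := by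
  classical
  obtain ⟨b, hb1, hb2⟩ := Pool.Agent.H1.M5.tay_thm k K
  obtain ⟨A, hA⟩ := core_ctx k K hK C₀ hC₀ b hb1
  set c₁ : ℝ := min (c / 2) (1 / 2) with hc₁
  have hc₁0 : 0 < c₁ := lt_min (by positivity) (by norm_num)
  have hc₁c : c₁ < c := (min_le_left _ _).trans_lt (by linarith)
  have hc₁1 : c₁ < 1 := (min_le_right _ _).trans_lt (by norm_num)
  obtain ⟨κ₂, κ, π₁, ι₁, ε₁, k₀, j₀, X₁, a1, a2, a3, a4, a5, a6, hL⟩ :=
    hW k K K A b c₁ (ε / 2) hb1 hb2 hc₁0 (by positivity)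
  obtain ⟨π₀, ι, ε₀, X₂, b1, b2, b3, hC⟩ :=
    hA c c₁ κ π₁ ι₁ ε₁ (ε / 2) j₀ hc₁c hc₁1 a2 a3 a4 a5 a6 (by positivity)
  refine ⟨κ₂, κ, π₀, ι, ε₀, k₀, j₀, max X₁ X₂, a1, a2, a3, b1, b2, b3, ?_⟩
  intro J F i₁ a w q P e X H Gf p Tau T hX hav
  have hp := hav.law
  have hp0 := hp.nonneg
  have h1 := hC J F i₁ a w q P e X H Gf p Tau T ((le_max_right _ _).trans hX) hav
  set g := gx F i₁ a w q K P e X H with hg
  set th := thf F w p T with hth
  set co := cof F i₁ a w q K P e X H Gf p T with hco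
  have hthe : ∀ ω, 0 < p ω → th (T ω) = F.tw w ω := fun ω hω =>
    fac_eq (fun ω ω' h1 h2 h3 => (hav.hT ω ω' h1 h2 h3).1) hω
  have hcoe : ∀ ω, 0 < p ω → co (T ω) =
      fun al => (shd F i₁ a w q K P e X H Gf ω al : ℝ) / 2 ^ X := fun ω hω =>
    fac_eq (g := fun ω al => (shd F i₁ a w q K P e X H Gf ω al : ℝ) / 2 ^ X)
      (fun ω ω' h1 h2 h3 => by rw [(hav.hT ω ω' h1 h2 h3).2]) hω
  set bad : Set _ := {z | ¬ Good5 b A c₁ κ π₁ ι₁ ε₁ j₀ (ldat F i₁ a w q K P e X H Gf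
    (Pool.Agent.H49.Ent.cond p g z) T th co)} with hbad
  refine (q1_mix (n := K) hp (L := slam F w) (g := g)
    (fun ω ω' _ _ h' => Prod.ext (ctx_of_slam h') (Gl_of_slam h')) _ bad
    (ε := ε / 2) (by positivity) (fun z hz hzb => ?_)).trans ?_
  · have h3 := not_not.1 hzb
    obtain ⟨g1, g2, g3, g4, g5⟩ := h3
    have h4 := hL (ldat F i₁ a w q K P e X H Gf (Pool.Agent.H49.Ent.cond p g z) T th co) g1
      ((le_max_left _ _).trans hX) g2 g3 g4 g5
    rw [ldat_Q1] at h4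
    refine le_trans ?_ h4
    have hz0 : ∀ ω, 0 ≤ Pool.Agent.H49.Ent.cond p g z ω := fun ω => cond_nonneg hp0 g z ω
    have hq0 : ∀ u, 0 ≤ q1 (Pool.Agent.H49.Ent.cond p g z) (slam F w) K u := fun u =>
      glue_nonneg (fun v => tup_nonneg hz0 _ K v) hz0 u
    have h5 := Pool.M5T.Pr_or (p := q1 (Pool.Agent.H49.Ent.cond p g z) (slam F w) K) hq0
      (A := {u | (∃ j j', j ≠ j' ∧
          |F.tw w (u.1 j) - F.tw w (u.1 j')| < (2 : ℝ) ^ (-(k₀ : ℤ))) ∨
        ∃ i : Mon k K, (2 : ℝ) ^ (-(κ₂ * X)) <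
          |(shd F i₁ a w q K P e X H Gf u.2 i : ℝ) / 2 ^ X -
            (Lagrange.interpolate univ (fun j => F.tw w (u.1 j))
              (fun j => (shd F i₁ a w q K P e X H Gf (u.1 j) i : ℝ) / 2 ^ X)).eval
              (F.tw w u.2)|})
      (B := {u | ¬ (ldat F i₁ a w q K P e X H Gf (Pool.Agent.H49.Ent.cond p g z) T th co).sep k₀
          u.1 ∨ ∃ i, (2 : ℝ) ^ (-(κ₂ * (ldat F i₁ a w q K P e X H Gf
            (Pool.Agent.H49.Ent.cond p g z) T th co).X)) <
          |co (T u.2) i - (ldat F i₁ a w q K P e X H Gf (Pool.Agent.H49.Ent.cond p g z) T th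
            co).itp u.1 i (th (T u.2))|}) (C := ∅) (by
        intro u hu hA'
        left
        have hu' := (glue_pos_iff (Z₁ := fun v : Fin (K + 1) → F.Ω => slam F w (v 0))
          (Z₂ := slam F w) (fun v => tup_nonneg hz0 (slam F w) K v) hz0 u).1 hu
        have hu1 := (tup_pos_iff hz0 (slam F w) K u.1).1 hu'.1
        have p1 : ∀ j, 0 < p (u.1 j) := fun j => ((cond_pos_iff hp0 g z _).1 (hu1.1 j)).1
        have p2 : 0 < p u.2 := ((cond_pos_iff hp0 g z _).1 hu'.2.1).1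
        rcases hA' with ⟨j, j', hj, hjj⟩ | ⟨i, hi⟩
        · left
          intro hs
          have h6 := hs j j' hj
          change (2 : ℝ) ^ (-(k₀ : ℤ)) ≤ |th (T (u.1 j)) - th (T (u.1 j'))| at h6
          rw [hthe _ (p1 j), hthe _ (p1 j')] at h6
          linarith
        · right
          refine ⟨i, ?_⟩
          change (2 : ℝ) ^ (-(κ₂ * X)) < |co (T u.2) i - (Lagrange.interpolate univ
            (fun j => th (T (u.1 j))) (fun j => co (T (u.1 j)) i)).eval (th (T u.2))|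
          have e1 : (fun j => th (T (u.1 j))) = fun j => F.tw w (u.1 j) :=
            funext fun j => hthe _ (p1 j)
          have e2 : (fun j => co (T (u.1 j)) i) =
              fun j => (shd F i₁ a w q K P e X H Gf (u.1 j) i : ℝ) / 2 ^ X :=
            funext fun j => by rw [hcoe _ (p1 j)]
          rw [e1, e2, hcoe _ p2, hthe _ p2]
          exact hi)
    have h0 : Pr (q1 (Pool.Agent.H49.Ent.cond p g z) (slam F w) K) (∅ : Set _) = 0 := by
      rw [Pool.KAF.Pr_eq]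
      simp
    rw [h0, add_zero] at h5
    exact h5
  · have h5 : Pr p {ω | g ω ∈ bad} ≤ ε / 2 := h1
    linarith

end core

end Pool.SLO
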