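import Pool.Agent.H81.SLP.CoreW
import Pool.Agent.H71.SLP.Stmts
import Pool.Agent.H86.M5.Tim
import Pool.Agent.H31.M5.Lag
import Pool.Agent.H41.L1.REMS
import Pool.Agent.H48.M5.L1

/-!
# Row CORE: the critical step in one context, with fixed nodes on every line
-/

set_option autoImplicit false

namespace Pool.SLO

open Finset Real MvPolynomial
open Pool.Agent.H49.Ent Pool.Agent.H32.Dense Pool.STK Pool.KA Pool.KSAT Pool.K2S Pool.PB
open Pool.KAF Pool.M5

section one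

variable {Ω Λ : Type} [Fintype Ω] {p : Ω → ℝ} {α β τ φ : Type}

/-- **Choice of the nodes**: for every line there is a tuple of its samples, such that the event is
not more probable than for a random tuple. -/
theorem nodes (hp : IsLaw p) (L : Ω → Λ) (n : ℕ) (E : Set ((Fin (n + 1) → Ω) × Ω)) :
    ∃ v : Λ → Fin (n + 1) → Ω, Pr p {ω | (v (L ω), ω) ∈ E} ≤ Pr (q1 p L n) E ∧
      ∀ ω, 0 < p ω → ∀ j, 0 < p (v (L ω) j) := by
  classical
  have hp0 := hp.nonneg
  obtain ⟨ω₀, hω₀⟩ : ∃ ω, 0 < p ω := by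
    by_contra h
    push Not at h
    have h1 := Finset.sum_nonpos (s := Finset.univ) (f := p) fun ω _ => h ω
    rw [hp.sum_one] at h1
    linarith only [h1]
  set f : (Fin (n + 1) → Ω) → Λ → ℝ := fun u z =>
    Pr (Pool.Agent.H49.Ent.cond p L z) {ω | (u, ω) ∈ E} with hf
  have hmin : ∀ z, ∃ v : Fin (n + 1) → Ω, (∃ ω, 0 < p ω ∧ L ω = z) →
      (0 < tup p L n v ∧ L (v 0) = z) ∧
        ∀ u, 0 < tup p L n u → L (u 0) = z → f v z ≤ f u z := by
    intro z
    by_cases h : ∃ ω, 0 < p ω ∧ L ω = z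
    · obtain ⟨ω, h1, h2⟩ := h
      obtain ⟨v, hv, hm⟩ := Finset.exists_min_image
        (Finset.univ.filter fun u : Fin (n + 1) → Ω => 0 < tup p L n u ∧ L (u 0) = z)
        (fun u => f u z) ⟨fun _ => ω, by
          rw [Finset.mem_filter]
          exact ⟨Finset.mem_univ _, (tup_pos_iff hp0 L n _).2 ⟨fun _ => h1, fun _ => rfl⟩, h2⟩⟩
      rw [Finset.mem_filter] at hv
      refine ⟨v, fun _ => ⟨hv.2, fun u hu1 hu2 => hm u ?_⟩⟩
      rw [Finset.mem_filter]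
      exact ⟨Finset.mem_univ _, hu1, hu2⟩
    · exact ⟨fun _ => ω₀, fun h' => absurd h' h⟩
  choose v hv using hmin
  refine ⟨v, ?_, fun ω hω j => ((tup_pos_iff hp0 L n _).1 (hv (L ω) ⟨ω, hω, rfl⟩).1.1).1 j⟩
  have e1 : Pr (q1 p L n) E = ∑ u, tup p L n u * f u (L (u 0)) := by
    rw [Pool.KAF.Pr_eq, Fintype.sum_prod_type]
    refine Finset.sum_congr rfl fun u _ => ?_
    simp only [hf]
    rw [Pool.KAF.Pr_eq, Finset.mul_sum]
    refine Finset.sum_congr rfl fun ω _ => ?_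
    by_cases hE : (u, ω) ∈ E
    · rw [if_pos hE, if_pos (show ω ∈ {ω | (u, ω) ∈ E} from hE)]
      unfold q1 glue
      have e5 : law (tup p L n) (fun v => L (v 0)) (L (u 0)) = law p L (L (u 0)) :=
        tup_law hp0 L n _
      have e3 : Pool.Agent.H49.Ent.cond p L (L (u 0)) ω =
          if L ω = L (u 0) then p ω / law p L (L (u 0)) else 0 := by
        unfold Pool.Agent.H49.Ent.cond
        split_ifs <;> rfl
      simp only [e5, e3]
      by_cases h : L (u 0) = L ω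
      · rw [if_pos h, if_pos h.symm]
        ring
      · rw [if_neg h, if_neg (Ne.symm h), mul_zero]
    · rw [if_neg hE, if_neg (show ω ∉ {ω | (u, ω) ∈ E} from hE), mul_zero]
  have e2 : ∑ u, tup p L n u * f (v (L (u 0))) (L (u 0)) ≤
      ∑ u, tup p L n u * f u (L (u 0)) := by
    refine Finset.sum_le_sum fun u _ => ?_
    rcases (tup_nonneg hp0 L n u).eq_or_lt with h0 | h0
    · rw [← h0, zero_mul, zero_mul]
    · have h1 := ((tup_pos_iff hp0 L n u).1 h0).1 0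
      exact mul_le_mul_of_nonneg_left ((hv (L (u 0)) ⟨u 0, h1, rfl⟩).2 u h0 rfl) h0.le
  have e3 : ∑ u, tup p L n u * f (v (L (u 0))) (L (u 0)) =
      Ex p (fun ω => f (v (L ω)) (L ω)) :=
    (tup_marg hp0 L n 0).ex (fun ω => f (v (L ω)) (L ω))
  have e4 : Ex p (fun ω => f (v (L ω)) (L ω)) = Ex p (fun ω =>
      Pr (Pool.Agent.H49.Ent.cond p L (L ω)) {ω' | (v (L ω'), ω') ∈ E}) := by
    unfold Ex
    refine Finset.sum_congr rfl fun ω _ => ?_
    congr 1
    simp only [hf]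
    rw [Pool.KAF.Pr_eq, Pool.KAF.Pr_eq]
    refine Finset.sum_congr rfl fun ω' _ => ?_
    by_cases h : L ω' = L ω
    · have h1 : (ω' ∈ {ω' | (v (L ω), ω') ∈ E}) = (ω' ∈ {ω' | (v (L ω'), ω') ∈ E}) := by
        show ((v (L ω), ω') ∈ E) = ((v (L ω'), ω') ∈ E)
        rw [h]
      simp only [h1]
    · have h1 : Pool.Agent.H49.Ent.cond p L (L ω) ω' = 0 := by
        unfold Pool.Agent.H49.Ent.cond
        rw [if_neg h]
      rw [h1]
      simp
  rw [e1]
  refine le_trans (le_of_eq ?_) e2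
  rw [e3, e4, Pool.L1.Ex_Pr hp0]

/-- More digits in the first variable. -/
theorem mi_ext_fst (hp : ∀ ω, 0 ≤ p ω) (W : Ω → α) (s : Ω → τ) (L : Ω → Λ) (b : Ω → β) :
    Pool.KVA.MI p (fun ω => (W ω, s ω)) L b ≤ Pool.KVA.MI p W L b +
      CH p s (fun ω => (b ω, W ω)) := by
  rw [Pool.M5.MI_eq hp, Pool.M5.MI_eq hp]
  have h0 : CH p (fun ω => (W ω, s ω)) b = CH p (fun ω => (s ω, W ω)) b := by
    refine CH_congr hp ?_ ?_ (fun ω ω' _ _ h => h) (fun ω ω' _ _ h => h) <;>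
      intro ω ω' _ _ h <;> simp only [Prod.mk.injEq] at h ⊢ <;> tauto
  have h3 := CH_chain hp s W b
  have h1 : CH p W (fun ω => (L ω, b ω)) ≤ CH p (fun ω => (W ω, s ω)) (fun ω => (L ω, b ω)) := by
    refine CH_mono_left hp ?_
    intro ω ω' _ _ h
    simp only [Prod.mk.injEq] at h ⊢
    tauto
  have h2 : CH p s (fun ω => (W ω, b ω)) = CH p s (fun ω => (b ω, W ω)) := by
    refine CH_congr hp ?_ ?_ ?_ ?_ <;> intro ω ω' _ _ h <;>
      simp only [Prod.mk.injEq] at h ⊢ <;> tauto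
  linarith only [h0, h3, h1, h2]

/-- More digits in the condition. -/
theorem mi_ext_cond (hp : ∀ ω, 0 ≤ p ω) (N : Ω → φ) (V : Ω → Λ) (W : Ω → α) (s : Ω → τ)
    (b : Ω → β) :
    Pool.KVA.MI p N V (fun ω => ((W ω, s ω), b ω)) ≤ Pool.KVA.MI p N V (fun ω => (b ω, W ω)) +
      CH p s (fun ω => (b ω, W ω)) := by
  rw [Pool.M5.MI_eq hp, Pool.M5.MI_eq hp]
  have h1 : CH p N (fun ω => ((W ω, s ω), b ω)) ≤ CH p N (fun ω => (b ω, W ω)) := by
    refine CH_mono_cond hp ?_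
    intro ω ω' _ _ h
    simp only [Prod.mk.injEq] at h ⊢
    tauto
  have h2 := CH_le_add hp N s (fun ω => (V ω, (b ω, W ω)))
  have h3 : CH p s (fun ω => (V ω, (b ω, W ω))) ≤ CH p s (fun ω => (b ω, W ω)) := by
    refine CH_mono_cond hp ?_
    intro ω ω' _ _ h
    simp only [Prod.mk.injEq] at h ⊢
    tauto
  have h4 : CH p N (fun ω => (s ω, (V ω, (b ω, W ω)))) =
      CH p N (fun ω => (V ω, ((W ω, s ω), b ω))) := by
    refine CH_congr hp ?_ ?_ ?_ ?_ <;> intro ω ω' _ _ h <;>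
      simp only [Prod.mk.injEq] at h ⊢ <;> tauto
  linarith only [h1, h2, h3, h4]

end one

/-- The interpolation polynomial by its coefficients. -/
theorem lag_sum_pow {n : ℕ} {θ : Fin (n + 1) → ℝ} (hθ : Function.Injective θ)
    (f : Fin (n + 1) → ℝ) (t : ℝ) :
    (Lagrange.interpolate univ θ f).eval t = ∑ i : Fin (n + 1), lag θ f i * t ^ (i : ℕ) := by
  classical
  have hd : (Lagrange.interpolate univ θ f).degree < ((n + 1 : ℕ) : WithBot ℕ) := by
    have := Lagrange.degree_interpolate_lt (s := univ) (v := θ) f hθ.injOn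
    rwa [Finset.card_univ, Fintype.card_fin] at this
  have h2 : (Lagrange.interpolate univ θ f).natDegree < n + 1 := by
    rcases eq_or_ne (Lagrange.interpolate univ θ f) 0 with h | h
    · rw [h]
      simp
    · rw [Polynomial.degree_eq_natDegree h] at hd
      exact_mod_cast hd
  rw [Polynomial.eval_eq_sum_range' h2, Finset.sum_range]
  rfl

/-- **Row CORE.** -/
theorem corek_thm (hL1 : L1Stmt) (k : ℕ) : Pool.SLF.CORE k := by
  classical
  intro K C₀ c ε hK hC₀ hc hc1 hε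
  obtain ⟨κ₂, κ, π₀, ι, ε₀, k₀, j₀, X₀, a1, a2, a3, a4, a5, a6, hW⟩ :=
    coreW (l1w_thm hL1 T86.tic_thm) k K hK C₀ c ε hC₀ hc hε
  obtain ⟨B, hB0, hB⟩ := shc_bound k K
  have hl2 : 0 < Real.log 2 := Real.log_pos one_lt_two
  set m : ℝ := min κ₂ 1 with hm
  have hm0 : 0 < m := lt_min a1 one_pos
  have hm1 : m ≤ 1 := min_le_right _ _
  have hm2 : m ≤ κ₂ := min_le_left _ _
  refine ⟨m / 2, κ / 2, π₀, ι / 2, ε₀, (K + 1) * 2 ^ (K + k₀ * K) * (B * C₀ + 1), j₀,
    max X₀ (max ⌈2 / κ⌉₊ ⌈2 / m⌉₊), by positivity, by linarith only [hm1], by positivity, by linarith only [a3], a4,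
    by positivity, a6, ?_⟩
  intro J F i₁ a w q P e X H Gf p hX hp hw hq hs hG hl h1 h1s h1f h1a h2 h3 h5
  have hp0 := hp.nonneg
  have hXX : X₀ ≤ X := (le_max_left _ _).trans hX
  have hXκ : 2 / κ ≤ X := by
    have h6 := Nat.le_ceil (2 / κ)
    have h7 : ((⌈2 / κ⌉₊ : ℕ) : ℝ) ≤ X := by
      exact_mod_cast ((le_max_left _ _).trans (le_max_right _ _)).trans hX
    linarith only [h6, h7]
  have hXm : 2 / m ≤ X := by
    have h6 := Nat.le_ceil (2 / m)
    have h7 : ((⌈2 / m⌉₊ : ℕ) : ℝ) ≤ X := by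
      exact_mod_cast ((le_max_right _ _).trans (le_max_right _ _)).trans hX
    linarith only [h6, h7]
  have hX0 : (0 : ℝ) ≤ X := Nat.cast_nonneg _
  set T : F.Ω → (ℕ × F.ζ) × (M5.Mon k K → ℤ) := fun ω =>
    (F.W ω, shd F i₁ a w q K P e X H Gf ω) with hT
  have hav : Avg F i₁ a w q K P e X H Gf p T C₀ c κ π₀ ι ε₀ j₀ := by
    refine ⟨hp, hw, hq, hs, ?_, ?_, ?_, ?_, ?_, h1a, ?_, ?_, ?_⟩
    · intro ω ω' hω hω' h6 h7
      exact hG ω ω' hω hω' h6 (Prod.ext_iff.1 h7).1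
    · intro ω ω' _ _ h7
      obtain ⟨h8, h9⟩ := Prod.ext_iff.1 h7
      refine ⟨?_, h9⟩
      have h10 : F.T ω = F.T ω' := (Prod.ext_iff.1 h8).1
      unfold Fam.tw Fam.t Fam.T1
      rw [h10]
    · linarith only [a5, hl]
    · have h6 := mi_ext_fst hp0 F.W (shd F i₁ a w q K P e X H Gf) (slam F w)
        (ctx F i₁ a w q P H)
      linarith only [h1, h1s, h6]
    · refine le_trans ?_ h1f
      have : (1 - ι) * (X : ℝ) ≤ (1 - ι / 2) * X :=
        mul_le_mul_of_nonneg_right (by linarith only [a5]) hX0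
      exact mul_le_mul_of_nonneg_right this hl2.le
    · have h6 := mi_ext_cond hp0 (fun ω => ⌊(2 : ℝ) ^ X * nuw F i₁ a w q K P e H Gf ω⌋)
        (fun ω => ((fun j => ⌊(2 : ℝ) ^ X * yt F i₁ a w ω j⌋ : Fin k → ℤ),
          (fun i => ⌊(2 : ℝ) ^ X * (cl F i₁ a w q K P e H ω).coeff (i.val + 1)⌋ : Fin K → ℤ)))
        F.W (shd F i₁ a w q K P e X H Gf) (ctx F i₁ a w q P H)
      linarith only [h1s, h2, h6]
    · refine le_trans ?_ h3
      have : (k - ι) * (X : ℝ) ≤ (k - ι / 2) * X :=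
        mul_le_mul_of_nonneg_right (by linarith only [a5]) hX0
      exact mul_le_mul_of_nonneg_right this hl2.le
    · intro j hj E hE
      have hh : κ / 2 * X ≤ (⌊κ * (X : ℝ)⌋₊ : ℝ) := by
        have h6 : κ * X < ⌊κ * (X : ℝ)⌋₊ + 1 := Nat.lt_floor_add_one _
        rw [div_le_iff₀ a2] at hXκ
        linarith only [hXκ, h6]
      have h6 := h5 (j * ⌊κ * (X : ℝ)⌋₊) ⌊κ * (X : ℝ)⌋₊ hh (by
        rw [← Nat.succ_mul]
        exact hj) E hE
      have e6 : j * ⌊κ * (X : ℝ)⌋₊ + ⌊κ * (X : ℝ)⌋₊ = (j + 1) * ⌊κ * (X : ℝ)⌋₊ := by ring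
      rw [e6] at h6
      refine le_trans ?_ h6
      refine CH_mono_cond (fun ω => cond_nonneg hp0 _ _ ω) ?_
      intro ω ω' _ _ h7
      simp only [hT, Prod.mk.injEq] at h7 ⊢
      tauto
  have hmain := hW J F i₁ a w q P e X H Gf p _ T hXX hav
  set E : Set ((Fin (K + 1) → F.Ω) × F.Ω) := {u | (∃ j j', j ≠ j' ∧
      |F.tw w (u.1 j) - F.tw w (u.1 j')| < (2 : ℝ) ^ (-(k₀ : ℤ))) ∨
    ∃ i : Mon k K, (2 : ℝ) ^ (-(κ₂ * X)) <
      |(shd F i₁ a w q K P e X H Gf u.2 i : ℝ) / 2 ^ X -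
        (Lagrange.interpolate univ (fun j => F.tw w (u.1 j))
          (fun j => (shd F i₁ a w q K P e X H Gf (u.1 j) i : ℝ) / 2 ^ X)).eval
          (F.tw w u.2)|} with hE
  obtain ⟨v, hv1, hv2⟩ := nodes hp (slam F w) K E
  set ok : (((Fin (k + 1) → ℝ) × (Fin (k + 1) → ℝ)) × F.ζ × ℕ) → Prop := fun l =>
    (∀ j, 0 < p (v l j)) ∧ ∀ j j', j ≠ j' →
      (2 : ℝ) ^ (-(k₀ : ℤ)) ≤ |F.tw w (v l j) - F.tw w (v l j')| with hok
  set Rr : (((Fin (k + 1) → ℝ) × (Fin (k + 1) → ℝ)) × F.ζ × ℕ) → Fin (K + 1) → M5.Mon k K → ℝ :=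
    fun l i al => if ok l then lag (fun j => F.tw w (v l j))
      (fun j => (shd F i₁ a w q K P e X H Gf (v l j) al : ℝ) / 2 ^ X) i else 0 with hRr
  have htw : ∀ ω, |F.tw w ω| ≤ 1 := by
    intro ω
    have t01 := T1_real F hw ω
    unfold Fam.tw
    rw [abs_le]
    constructor <;> linarith only [t01, t01.1, t01.2]
  have hsh : ∀ ω, 0 < p ω → ∀ al, |(shd F i₁ a w q K P e X H Gf ω al : ℝ) / 2 ^ X| ≤
      B * C₀ + 1 := by
    intro ω hω al
    obtain ⟨s1, s2, -⟩ := hs ω hω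
    have t01 := T1_real F hw ω
    have e1 := hB e i₁ (plb F i₁ a w q ω (Gf ω)) (Rc F i₁ a w q K P H ω) C₀ (F.tw w ω)
      ((totalDegree_pull_le _ _ _ _ _ _).trans s1) (totalDegree_rdz _ _ _) (by
        unfold Fam.tw
        linarith only [t01, t01.1]) (by
        unfold Fam.tw
        linarith only [t01, t01.2]) s2 (al : Fin k → ℕ)
    have e2 := floor_div_near X (shw F i₁ a w q K P e H Gf ω al)
    have e3 : (1 : ℝ) / 2 ^ X ≤ 1 := by
      rw [div_le_one (by positivity)]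
      exact one_le_pow₀ (by norm_num)
    have e4 : |shw F i₁ a w q K P e H Gf ω al| ≤ B * C₀ := e1
    unfold shd
    rw [abs_le] at e2 e4 ⊢
    constructor <;> linarith only [e2, e3, e4, e2.1, e2.2, e4.1, e4.2]
  refine ⟨Rr, ?_, ?_⟩
  · intro l i al
    simp only [hRr]
    by_cases h : ok l
    · rw [if_pos h]
      exact L31.lag_le (fun j => htw _) h.2 (fun j => hsh _ (h.1 j) al) _
    · rw [if_neg h, abs_zero]
      positivity
  · refine le_trans ?_ (hv1.trans hmain)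
    refine Pool.KAF.Pr_mono hp0 fun ω hω hω' => ?_
    show (v (slam F w ω), ω) ∈ E
    by_contra hcon
    rw [hE, Set.mem_ofPred_eq, not_or] at hcon
    obtain ⟨h6, h7⟩ := hcon
    push Not at h6 h7
    have hokl : ok (slam F w ω) := ⟨hv2 ω hω, h6⟩
    obtain ⟨al, hal⟩ := hω'
    have h8 := h7 al
    simp only [hRr, if_pos hokl] at hal
    rw [lag_sum_pow (L31.inj_of_sep h6)] at h8
    have h9 := floor_div_near X (shw F i₁ a w q K P e H Gf ω al)
    have h10 : |shw F i₁ a w q K P e H Gf ω al - ∑ i : Fin (K + 1),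
        lag (fun j => F.tw w (v (slam F w ω) j))
          (fun j => (shd F i₁ a w q K P e X H Gf (v (slam F w ω) j) al : ℝ) / 2 ^ X) i *
          F.tw w ω ^ (i : ℕ)| ≤ 1 / 2 ^ X + (2 : ℝ) ^ (-(κ₂ * X)) := by
      unfold shd at h8 ⊢
      rw [abs_le] at h8 h9 ⊢
      constructor <;> linarith only [h8, h9, h8.1, h8.2, h9.1, h9.2]
    have h11 : (1 : ℝ) / 2 ^ X ≤ (2 : ℝ) ^ (-(m * X)) := by
      rw [one_div, ← Real.rpow_natCast, ← Real.rpow_neg (by norm_num)]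
      refine Real.rpow_le_rpow_of_exponent_le (by norm_num) ?_
      nlinarith only [hm1]
    have h12 : (2 : ℝ) ^ (-(κ₂ * X)) ≤ (2 : ℝ) ^ (-(m * X)) := by
      refine Real.rpow_le_rpow_of_exponent_le (by norm_num) ?_
      nlinarith only [hm2]
    have h13 : 2 * (2 : ℝ) ^ (-(m * X)) ≤ (2 : ℝ) ^ (-(m / 2 * X)) := by
      have e7 : (2 : ℝ) * (2 : ℝ) ^ (-(m * X)) = (2 : ℝ) ^ (1 + -(m * X)) := by
        rw [Real.rpow_add (by norm_num), Real.rpow_one]
      rw [e7]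
      refine Real.rpow_le_rpow_of_exponent_le (by norm_num) ?_
      rw [div_le_iff₀ hm0] at hXm
      linarith only [hXm]
    linarith only [hal, h10, h11, h12, h13]

/-- **Row CORE**, without hypotheses. -/
theorem corek (k : ℕ) : Pool.SLF.CORE k := corek_thm Pool.M5.l1_thm k

end Pool.SLO
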