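import Pool.Agent.H87.SLO.Tup
import Pool.Agent.H32.Dense.Split

/-!
# References and pairs on one line: disintegration over a function of the line

`q4 p L S n` is the law of `n + 1` independent samples of one line (law `p`) and of a pair of
samples of this line which are independent given `S` (a refinement of the line). Conditioned on a
function `g` of the line it is the same object for the conditioned law `cond p g z`.
-/

set_option autoImplicit false

namespace Pool.SLO

open Finset Real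
open Pool.Agent.H49.Ent Pool.Agent.H32.Dense Pool.STK Pool.KAF Pool.KVA

variable {Ω Λ σ γ : Type} [Fintype Ω]

/-- References and pairs. -/
noncomputable def q4 (p : Ω → ℝ) (L : Ω → Λ) (S : Ω → σ) (n : ℕ) :
    (Fin (n + 1) → Ω) × (Ω × Ω) → ℝ :=
  glue (tup p L n) (dbl p S) (fun v => L (v 0)) (fun w => L w.1)

variable {p : Ω → ℝ} {L : Ω → Λ} {S : Ω → σ} {g : Ω → γ} {n : ℕ}

theorem q4_pos_iff (hp : ∀ ω, 0 ≤ p ω) (u : (Fin (n + 1) → Ω) × (Ω × Ω)) :
    0 < q4 p L S n u ↔ ((∀ j, 0 < p (u.1 j)) ∧ ∀ j, L (u.1 j) = L (u.1 0)) ∧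
      (0 < p u.2.1 ∧ 0 < p u.2.2 ∧ S u.2.1 = S u.2.2) ∧ L (u.1 0) = L u.2.1 := by
  unfold q4
  rw [glue_pos_iff (fun v => tup_nonneg hp L n v) (fun w => dbl_nonneg hp w),
    tup_pos_iff hp]
  unfold dbl
  rw [glue_pos_iff hp hp]

theorem q4_nonneg (hp : ∀ ω, 0 ≤ p ω) (u : (Fin (n + 1) → Ω) × (Ω × Ω)) :
    0 ≤ q4 p L S n u :=
  glue_nonneg (fun v => tup_nonneg hp L n v) (fun w => dbl_nonneg hp w) u

/-- The law of a refinement of the line under the conditioned law. -/
theorem law_cond_of_det {α : Type} {R : Ω → α} (hR : Det p R g) {ω : Ω} (hω : 0 < p ω)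
    (hp : ∀ ω, 0 ≤ p ω) :
    law (cond p g (g ω)) R (R ω) = law p R (R ω) / law p g (g ω) := by
  classical
  rw [law_cond]
  congr 1
  unfold law
  refine Finset.sum_congr rfl fun ω' _ => ?_
  rcases (hp ω').eq_or_lt with h | h
  · rw [← h]
    simp
  · by_cases h1 : R ω' = R ω
    · have h2 := hR ω' ω h hω h1
      rw [if_pos (Prod.ext h1 h2), if_pos h1]
    · rw [if_neg (fun h3 => h1 (Prod.ext_iff.1 h3).1), if_neg h1]

theorem law_q4 (hp : IsLaw p) (z : γ) :
    law (q4 p L S n) (fun u => g (u.1 0)) z = law p g z := by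
  have h1 : Marg (q4 p L S n) (tup p L n) (fun u => u.1) := by
    refine marg_fst (tup_isLaw hp L n).nonneg fun z => ?_
    rw [tup_law hp.nonneg]
    have h2 : Marg (dbl p S) p (fun w => w.1) :=
      marg_fst (Z₁ := S) (Z₂ := S) hp.nonneg fun _ => rfl
    exact (h2.law L z).symm
  have h2 := (h1.comp (tup_marg hp.nonneg L n 0)).law g z
  exact h2

/-- **Disintegration.** -/
theorem q4_cond (hp : IsLaw p) (hg : Det p L g) (hS : Det p S L) {z : γ} (hz : 0 < law p g z) :
    cond (q4 p L S n) (fun u => g (u.1 0)) z = q4 (cond p g z) L S n := by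
  classical
  funext u
  have hp0 := hp.nonneg
  have hc0 : ∀ ω, 0 ≤ cond p g z ω := fun ω => cond_nonneg hp0 g z ω
  have e0 : cond (q4 p L S n) (fun u => g (u.1 0)) z u =
      if g (u.1 0) = z then q4 p L S n u / law p g z else 0 := by
    have h1 := law_q4 (L := L) (S := S) (g := g) (n := n) hp z
    unfold Pool.Agent.H49.Ent.cond
    rw [h1]
  rw [e0]
  by_cases hu : 0 < q4 (cond p g z) L S n u
  · obtain ⟨⟨u1, u2⟩, ⟨u3, u4, u5⟩, u6⟩ := (q4_pos_iff hc0 u).1 hu
    have p1 : ∀ j, 0 < p (u.1 j) ∧ g (u.1 j) = z := fun j => (cond_pos_iff hp0 g z _).1 (u1 j)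
    have p3 := (cond_pos_iff hp0 g z _).1 u3
    have p4 := (cond_pos_iff hp0 g z _).1 u4
    rw [if_pos (p1 0).2]
    have hc : ∀ ω, 0 < p ω → g ω = z → cond p g z ω = p ω / law p g z := by
      intro ω _ h
      unfold Pool.Agent.H49.Ent.cond
      rw [if_pos h]
    have lL : ∀ ω, 0 < p ω → g ω = z → law (cond p g z) L (L ω) = law p L (L ω) / law p g z := by
      intro ω h1 h2
      rw [← h2]
      exact law_cond_of_det hg h1 hp0
    have lS : ∀ ω, 0 < p ω → g ω = z → law (cond p g z) S (S ω) = law p S (S ω) / law p g z := by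
      intro ω h1 h2
      rw [← h2]
      exact law_cond_of_det (fun a b ha hb h => hg a b ha hb (hS a b ha hb h)) h1 hp0
    have hL0 : 0 < law p L (L (u.1 0)) := law_pos hp0 L (p1 0).1
    have hS0 : 0 < law p S (S u.2.1) := law_pos hp0 S p3.1
    -- the reference
    have t1 : tup (cond p g z) L n u.1 = tup p L n u.1 / law p g z := by
      unfold tup
      rw [hc _ (p1 0).1 (p1 0).2, div_mul_eq_mul_div]
      congr 2
      refine Finset.prod_congr rfl fun j _ => ?_
      have hj := p1 j.succ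
      have hLj := u2 j.succ
      have e1 : cond (cond p g z) L (L (u.1 0)) (u.1 j.succ) =
          cond p g z (u.1 j.succ) / law (cond p g z) L (L (u.1 0)) := by
        conv_lhs => unfold Pool.Agent.H49.Ent.cond
        rw [if_pos hLj]
        rfl
      have e2 : cond p L (L (u.1 0)) (u.1 j.succ) = p (u.1 j.succ) / law p L (L (u.1 0)) := by
        unfold Pool.Agent.H49.Ent.cond
        rw [if_pos hLj]
      rw [e1, e2, hc _ hj.1 hj.2, lL _ (p1 0).1 (p1 0).2]
      field_simp
    have t2 : dbl (cond p g z) S u.2 = dbl p S u.2 / law p g z := by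
      unfold dbl glue
      rw [if_pos u5, if_pos u5, hc _ p3.1 p3.2, hc _ p4.1 p4.2, lS _ p3.1 p3.2]
      field_simp
    unfold q4 glue
    rw [if_pos u6, if_pos u6, t1, t2, tup_law hp0, tup_law hc0, lL _ (p1 0).1 (p1 0).2]
    field_simp
  · have h1 : q4 (cond p g z) L S n u = 0 := le_antisymm (not_lt.1 hu) (q4_nonneg hc0 u)
    rw [h1]
    by_cases h2 : g (u.1 0) = z
    · rw [if_pos h2]
      have h3 : ¬ 0 < q4 p L S n u := by
        intro h3
        apply hu
        obtain ⟨⟨u1, u2⟩, ⟨u3, u4, u5⟩, u6⟩ := (q4_pos_iff hp0 u).1 h3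
        have g1 : ∀ j, g (u.1 j) = z := fun j => by
          rw [hg _ _ (u1 j) (u1 0) (u2 j)]
          exact h2
        have g3 : g u.2.1 = z := by
          rw [← hg _ _ (u1 0) u3 u6]
          exact h2
        have g4 : g u.2.2 = z := by
          rw [← hg _ _ u3 u4 (hS _ _ u3 u4 u5)]
          exact g3
        exact (q4_pos_iff hc0 u).2 ⟨⟨fun j => (cond_pos_iff hp0 g z _).2 ⟨u1 j, g1 j⟩, u2⟩,
          ⟨(cond_pos_iff hp0 g z _).2 ⟨u3, g3⟩, (cond_pos_iff hp0 g z _).2 ⟨u4, g4⟩, u5⟩, u6⟩
      have h4 : q4 p L S n u = 0 := le_antisymm (not_lt.1 h3) (q4_nonneg hp0 u)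
      rw [h4, zero_div]
    · rw [if_neg h2]

theorem q4_isLaw (hp : IsLaw p) : IsLaw (q4 p L S n) := by
  refine ⟨fun u => q4_nonneg hp.nonneg u, ?_⟩
  have h1 : Marg (q4 p L S n) (tup p L n) (fun u => u.1) := by
    refine marg_fst (tup_isLaw hp L n).nonneg fun z => ?_
    rw [tup_law hp.nonneg]
    have h2 : Marg (dbl p S) p (fun w => w.1) :=
      marg_fst (Z₁ := S) (Z₂ := S) hp.nonneg fun _ => rfl
    exact (h2.law L z).symm
  rw [h1.sum]
  exact (tup_isLaw hp L n).sum_one

open Classical in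
/-- **An event of references and pairs**: if it is rare for the conditioned laws, except for rare
values of the function `g` of the line, it is rare. -/
theorem q4_mix (hp : IsLaw p) (hg : Det p L g) (hS : Det p S L)
    (E : Set ((Fin (n + 1) → Ω) × (Ω × Ω))) (bad : Set γ) {ε : ℝ} (hε : 0 ≤ ε)
    (h : ∀ z, 0 < law p g z → z ∉ bad → Pr (q4 (cond p g z) L S n) E ≤ ε) :
    Pr (q4 p L S n) E ≤ Pr p {ω | g ω ∈ bad} + ε := by
  have hq := q4_isLaw (L := L) (S := S) (n := n) hp
  have h1 : ∀ (Ω' : Type) [Fintype Ω'] (q : Ω' → ℝ) (A : Set Ω'),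
      Pr q A = ∑ ω, if ω ∈ A then q ω else 0 := by
    intro Ω' _ q A
    unfold Pr Pool.Agent.H49.Ent.law
    refine Finset.sum_congr rfl fun ω _ => ?_
    by_cases h : ω ∈ A <;> simp [h]
  -- split over the values
  have h2 : ∀ (Ω' : Type) [Fintype Ω'] (q : Ω' → ℝ) (hq : ∀ ω, 0 ≤ q ω) (G : Ω' → γ)
      (A : Set Ω'), Pr q A = ∑ z ∈ univ.image G, law q G z * Pr (cond q G z) A := by
    intro Ω' _ q hq G A
    have e1 : ∀ q : Ω' → ℝ, Pr q A = Ex q (A.indicator fun _ => (1 : ℝ)) := by
      intro q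
      rw [h1]
      unfold Ex
      refine Finset.sum_congr rfl fun ω _ => ?_
      by_cases h : ω ∈ A <;> simp [h]
    rw [e1, Ex_split hq _ G]
    refine Finset.sum_congr rfl fun z _ => ?_
    rw [e1]
  have hPr1 : ∀ (Ω' : Type) [Fintype Ω'] (q : Ω' → ℝ) (A : Set Ω'), IsLaw q → Pr q A ≤ 1 := by
    intro Ω' _ q A hq
    rw [h1, ← hq.sum_one]
    refine Finset.sum_le_sum fun ω _ => ?_
    split_ifs
    · exact le_rfl
    · exact hq.nonneg ω
  set G : (Fin (n + 1) → Ω) × (Ω × Ω) → γ := fun u => g (u.1 0) with hG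
  have hlaw : ∀ z, law (q4 p L S n) G z = law p g z := fun z => law_q4 hp z
  have hbad : Pr p {ω | g ω ∈ bad} = Pr (q4 p L S n) {u | G u ∈ bad} := by
    have e1 := law_q4 (L := L) (S := S) (g := fun ω => (g ω ∈ bad)) (n := n) hp True
    unfold Pr
    exact e1.symm
  rw [hbad, h2 _ _ hq.nonneg G E, h2 _ _ hq.nonneg G {u | G u ∈ bad}]
  have hsum : ∑ z ∈ univ.image G, law (q4 p L S n) G z = 1 := by
    have e1 := h2 _ _ hq.nonneg G Set.univ
    have e2 : Pr (q4 p L S n) Set.univ = 1 := by
      rw [h1, ← hq.sum_one]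
      exact Finset.sum_congr rfl fun ω _ => if_pos (Set.mem_univ ω)
    rw [e2] at e1
    rw [e1]
    refine Finset.sum_congr rfl fun z _ => ?_
    rcases (law_nonneg hq.nonneg G z).eq_or_lt with h0 | h0
    · rw [← h0, zero_mul]
    · have e3 : Pr (cond (q4 p L S n) G z) Set.univ = 1 := by
        rw [h1]
        have := sum_cond (q4 p L S n) G (z := z) h0.ne'
        rw [← this]
        exact Finset.sum_congr rfl fun ω _ => if_pos (Set.mem_univ ω)
      rw [e3, mul_one]
  have hfin : ∀ z ∈ univ.image G, law (q4 p L S n) G z * Pr (cond (q4 p L S n) G z) E ≤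
      law (q4 p L S n) G z * Pr (cond (q4 p L S n) G z) {u | G u ∈ bad} +
        law (q4 p L S n) G z * ε := by
    intro z _
    rcases (law_nonneg hq.nonneg G z).eq_or_lt with h0 | h0
    · rw [← h0]
      simp
    · rw [← mul_add]
      refine mul_le_mul_of_nonneg_left ?_ h0.le
      have hz : 0 < law p g z := by
        rw [← hlaw z]
        exact h0
      have hcl : IsLaw (cond (q4 p L S n) G z) :=
        ⟨fun v => cond_nonneg hq.nonneg G z v, sum_cond _ G h0.ne'⟩
      by_cases hb : z ∈ bad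
      · have e4 : Pr (cond (q4 p L S n) G z) {u | G u ∈ bad} = 1 := by
          rw [h1, ← hcl.sum_one]
          refine Finset.sum_congr rfl fun u _ => ?_
          by_cases hu : G u = z
          · rw [if_pos (show u ∈ {u | G u ∈ bad} by
              rw [Set.mem_ofPred_eq, hu]
              exact hb)]
          · have : cond (q4 p L S n) G z u = 0 := by
              unfold Pool.Agent.H49.Ent.cond
              rw [if_neg hu]
            rw [this]
            simp
        have := hPr1 _ _ E hcl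
        linarith
      · have e5 := h z hz hb
        have e6 : cond (q4 p L S n) G z = q4 (cond p g z) L S n := q4_cond hp hg hS hz
        rw [e6] at hcl ⊢
        have e7 : 0 ≤ Pr (q4 (cond p g z) L S n) {u | G u ∈ bad} := by
          rw [h1]
          refine Finset.sum_nonneg fun u _ => ?_
          split_ifs
          · exact hcl.nonneg u
          · exact le_rfl
        linarith
  refine (Finset.sum_le_sum hfin).trans (le_of_eq ?_)
  rw [Finset.sum_add_distrib, ← Finset.sum_mul, hsum, one_mul]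

end Pool.SLO
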