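import Pool.Agent.H81.SLP.Ctx3
import Pool.Agent.H81.SLP.Mix
import Pool.Agent.H81.SLP.Pick
import Pool.Agent.H48.M5.Stmts
import Pool.Agent.H7.SLP.H5P
import Pool.Agent.H1.M5.TAY

/-!
# Lemma L1 for most contexts, from average hypotheses

`Avg`: the average hypotheses for one window, one radius and one precision of a family. `core_ctx`:
outside contexts of small probability the data `ldat` of the context, restricted to the good lines,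
satisfy the hypotheses of L1. `core`: the conclusion of L1 for the references and pairs of the whole
law.
-/

set_option autoImplicit false

namespace Pool.SLO

open Finset Real MvPolynomial
open Pool.Agent.H49.Ent Pool.Agent.H32.Dense Pool.STK Pool.KA Pool.KSAT Pool.K2S Pool.PB
open Pool.KAF Pool.M5

section core

variable {k J : ℕ}

/-- The good lines: the unknown numbers are at most one. -/
def Gl (F : Fam (k + 1) J) (i₁ : Fin (k + 1)) (a w q K P e X : ℕ)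
    (H : ((Fin (k + 1) → ℝ) × (Fin (k + 1) → ℝ)) × F.ζ × ℕ → MvPolynomial (Fin (k + 1)) ℝ)
    (ω : F.Ω) : Prop :=
  ∀ i : Fin K, |((⌊(2 : ℝ) ^ X * (cl F i₁ a w q K P e H ω).coeff (i.val + 1)⌋ : ℤ) : ℝ)| ≤ 2 ^ X

/-- The context and the event of the good lines. -/
noncomputable def gx (F : Fam (k + 1) J) (i₁ : Fin (k + 1)) (a w q K P e X : ℕ)
    (H : ((Fin (k + 1) → ℝ) × (Fin (k + 1) → ℝ)) × F.ζ × ℕ → MvPolynomial (Fin (k + 1)) ℝ)
    (ω : F.Ω) := (ctx F i₁ a w q P H ω, Gl F i₁ a w q K P e X H ω)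

/-- **The average hypotheses.** -/
structure Avg (F : Fam (k + 1) J) (i₁ : Fin (k + 1)) (a w q K P e X : ℕ)
    (H : ((Fin (k + 1) → ℝ) × (Fin (k + 1) → ℝ)) × F.ζ × ℕ → MvPolynomial (Fin (k + 1)) ℝ)
    (Gf : F.Ω → MvPolynomial (Fin (k + 1)) ℝ) (p : F.Ω → ℝ) {Tau : Type} (T : F.Ω → Tau)
    (C₀ c κ π₀ ι ε₀ : ℝ) (j₀ : ℕ) : Prop where
  law : IsLaw p
  hw : w ≤ J
  hq : a + X ≤ q + w
  hs : ∀ ω, 0 < p ω → (Gf ω).totalDegree ≤ K ∧
    (∀ z : Fin (k + 1) → ℝ, (∀ i, 0 ≤ z i ∧ z i ≤ 1) → z i₁ = F.tw w ω →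
      |2 ^ e * (eval z (plb F i₁ a w q ω (Gf ω)) - eval z (Rc F i₁ a w q K P H ω))| ≤ C₀) ∧
    |F.x ω i₁ - eval (bp F i₁ ω) (Gf ω)| ≤ 1 / 2 ^ (e + X)
  hG : ∀ ω ω', 0 < p ω → 0 < p ω' → slam F w ω = slam F w ω' → T ω = T ω' → Gf ω = Gf ω'
  hT : ∀ ω ω', 0 < p ω → 0 < p ω' → T ω = T ω' → F.tw w ω = F.tw w ω' ∧
    shd F i₁ a w q K P e X H Gf ω = shd F i₁ a w q K P e X H Gf ω'
  hl : Pr p {ω | ∃ i < K, 1 < |(cl F i₁ a w q K P e H ω).coeff (i + 1)|} ≤ ι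
  h1 : Pool.KVA.MI p T (slam F w) (ctx F i₁ a w q P H) ≤ ι * X
  h1f : (1 - ι) * X * Real.log 2 ≤ CH p (fun ω => ⌊(2 : ℝ) ^ X * F.tw w ω⌋) (slam F w)
  h1a : j₀ * Real.log 2 - ε₀ ≤ CH p (fun ω => ⌊(2 : ℝ) ^ j₀ * F.tw w ω⌋) (slam F w)
  h2 : Pool.KVA.MI p (fun ω => ⌊(2 : ℝ) ^ X * nuw F i₁ a w q K P e H Gf ω⌋)
    (fun ω => ((fun j => ⌊(2 : ℝ) ^ X * yt F i₁ a w ω j⌋ : Fin k → ℤ),
      (fun i => ⌊(2 : ℝ) ^ X * (cl F i₁ a w q K P e H ω).coeff (i.val + 1)⌋ : Fin K → ℤ)))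
    (fun ω => (T ω, ctx F i₁ a w q P H ω)) ≤ ι * X
  h3 : (k - ι) * X * Real.log 2 ≤
    CH p (fun ω => (fun j => ⌊(2 : ℝ) ^ X * yt F i₁ a w ω j⌋ : Fin k → ℤ)) (ctx F i₁ a w q P H)
  h5 : ∀ j : ℕ, (j + 1) * ⌊κ * X⌋₊ ≤ X → ∀ E : Set F.Ω, π₀ ≤ Pr p E →
    CH (rs p E) (fun ω => ⌊(2 : ℝ) ^ ((j + 1) * ⌊κ * X⌋₊) * nuw F i₁ a w q K P e H Gf ω⌋)
      (fun ω => ((⌊(2 : ℝ) ^ (j * ⌊κ * X⌋₊) * nuw F i₁ a w q K P e H Gf ω⌋, T ω),
        ctx F i₁ a w q P H ω)) ≤ (1 - c) * ⌊κ * X⌋₊ * Real.log 2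

/-- The hypotheses of L1. -/
def Good5 {n : ℕ} {I : Type} [Fintype I] (b : Bas k I) (A : ℕ) (c κ π₀ ι ε₀ : ℝ) (j₀ : ℕ)
    (d : LDat k n I) : Prop :=
  d.OK b A (ι * d.X) ∧ d.H1 ι j₀ ε₀ ∧ (d.toR b).H2 ι ∧ d.H3 ι ∧ (d.toR b).H5 c κ π₀ ∅

/-- The coefficients of the shape are bounded, for every value of the variable `T`. -/
theorem cof_bound (k K : ℕ) (C₀ : ℝ) (hC₀ : 1 ≤ C₀) : ∃ c₀ : ℝ, 0 ≤ c₀ ∧ ∀ (J : ℕ)
    (F : Fam (k + 1) J) (i₁ : Fin (k + 1)) (a w q P e X : ℕ)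
    (H : ((Fin (k + 1) → ℝ) × (Fin (k + 1) → ℝ)) × F.ζ × ℕ → MvPolynomial (Fin (k + 1)) ℝ)
    (Gf : F.Ω → MvPolynomial (Fin (k + 1)) ℝ) (p : F.Ω → ℝ) (Tau : Type) (T : F.Ω → Tau),
    w ≤ J → (∀ ω, 0 < p ω → (Gf ω).totalDegree ≤ K ∧
      (∀ z : Fin (k + 1) → ℝ, (∀ i, 0 ≤ z i ∧ z i ≤ 1) → z i₁ = F.tw w ω →
        |2 ^ e * (eval z (plb F i₁ a w q ω (Gf ω)) - eval z (Rc F i₁ a w q K P H ω))| ≤ C₀)) →
    ∀ t al, |cof F i₁ a w q K P e X H Gf p T t al| ≤ (2 : ℝ) ^ c₀ := by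
  obtain ⟨B, hB0, hB⟩ := shc_bound k K
  refine ⟨Real.logb 2 (B * C₀ + 1), Real.logb_nonneg one_lt_two (by
    have : 0 ≤ B * C₀ := by positivity
    linarith only [this]), ?_⟩
  intro J F i₁ a w q P e X H Gf p Tau T hw hs t al
  have hXp : (0 : ℝ) < 2 ^ X := by positivity
  have h2c : B * C₀ + 1 = (2 : ℝ) ^ Real.logb 2 (B * C₀ + 1) :=
    (Real.rpow_logb (by norm_num) (by norm_num) (by positivity)).symm
  rw [← h2c]
  refine fac_mem (Q := fun v : Pool.M5.Mon k K → ℝ => ∀ al, |v al| ≤ B * C₀ + 1)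
    (fun al => by
      rw [Pi.zero_apply, abs_zero]
      positivity) (fun ω hω al => ?_) t al
  obtain ⟨s1, s2⟩ := hs ω hω
  have t01 := T1_real F hw ω
  have e1 := hB e i₁ (plb F i₁ a w q ω (Gf ω)) (Rc F i₁ a w q K P H ω) C₀ (F.tw w ω)
    ((totalDegree_pull_le _ _ _ _ _ _).trans s1) (totalDegree_rdz _ _ _) (by
      unfold Fam.tw
      linarith only [t01, t01.1]) (by
      unfold Fam.tw
      linarith only [t01, t01.2]) s2 (al : Fin k → ℕ)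
  have e2 := floor_div_near X (shw F i₁ a w q K P e H Gf ω al)
  have e3 : (1 : ℝ) / 2 ^ X ≤ 1 := by
    rw [div_le_one hXp]
    exact one_le_pow₀ (by norm_num)
  have e4 : |shw F i₁ a w q K P e H Gf ω al| ≤ B * C₀ := e1
  unfold shd
  rw [abs_le] at e2 e4 ⊢
  constructor <;> linarith only [e2, e3, e4, e2.1, e2.2, e4.1, e4.2]

/-- The entropy of a variable with values in a box. -/
theorem H_box {Ω : Type} [Fintype Ω] {n X : ℕ} {p : Ω → ℝ} (hp : IsLaw p) (y : Ω → Fin n → ℤ)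
    (hy : ∀ ω, 0 < p ω → ∀ j, 0 ≤ y ω j ∧ y ω j < 2 ^ X) :
    Pool.Agent.H49.Ent.H p y ≤ n * X * Real.log 2 := by
  have h := H_le_log_card hp.nonneg hp.sum_one y
    (Fintype.piFinset fun _ => Finset.Ico (0 : ℤ) (2 ^ X)) (fun ω hω => by
      rw [Fintype.mem_piFinset]
      intro j
      rw [Finset.mem_Ico]
      exact hy ω hω j)
  refine h.trans (le_of_eq ?_)
  rw [Fintype.card_piFinset, Finset.prod_const, Finset.card_univ, Fintype.card_fin, Int.card_Ico]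
  have e : (((2 : ℤ) ^ X - 0).toNat : ℕ) = 2 ^ X := by
    rw [sub_zero]
    have : ((2 : ℤ) ^ X) = ((2 ^ X : ℕ) : ℤ) := by push_cast; rfl
    rw [this, Int.toNat_natCast]
  rw [e]
  push_cast
  rw [← pow_mul, Real.log_pow]
  push_cast
  ring

theorem H_box1 {Ω : Type} [Fintype Ω] {X : ℕ} {p : Ω → ℝ} (hp : IsLaw p) (y : Ω → ℤ)
    (hy : ∀ ω, 0 < p ω → 0 ≤ y ω ∧ y ω < 2 ^ X) {Λ : Type} (L : Ω → Λ) :
    CH p y L ≤ X * Real.log 2 := by
  have h := CH_le_card hp.nonneg hp.sum_one y L (fun _ => Finset.Ico (0 : ℤ) (2 ^ X))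
    (fun ω hω => by
      rw [Finset.mem_Ico]
      exact hy ω hω)
  refine h.trans (le_of_eq ?_)
  rw [Ex_const hp.sum_one, Int.card_Ico]
  have e : (((2 : ℤ) ^ X - 0).toNat : ℕ) = 2 ^ X := by
    rw [sub_zero]
    have : ((2 : ℤ) ^ X) = ((2 ^ X : ℕ) : ℤ) := by push_cast; rfl
    rw [this, Int.toNat_natCast]
  rw [e]
  push_cast
  rw [Real.log_pow]

theorem floor_unit_mem {X : ℕ} {x : ℝ} (h0 : 0 ≤ x) (h1 : x < 1) :
    0 ≤ ⌊(2 : ℝ) ^ X * x⌋ ∧ ⌊(2 : ℝ) ^ X * x⌋ < 2 ^ X := by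
  have hX : (0 : ℝ) < 2 ^ X := by positivity
  constructor
  · rw [Int.floor_nonneg]
    positivity
  · rw [Int.floor_lt]
    push_cast
    nlinarith only [h1, hX]

/-- The good lines are functions of the line and the window. -/
theorem Gl_of_slam {F : Fam (k + 1) J} {i₁ : Fin (k + 1)} {a w q K P e X : ℕ}
    {H : ((Fin (k + 1) → ℝ) × (Fin (k + 1) → ℝ)) × F.ζ × ℕ → MvPolynomial (Fin (k + 1)) ℝ}
    {ω ω' : F.Ω} (h : slam F w ω = slam F w ω') :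
    Gl F i₁ a w q K P e X H ω = Gl F i₁ a w q K P e X H ω' := by
  unfold Gl
  rw [cl_of_slam h]

theorem Gl_of_le {F : Fam (k + 1) J} {i₁ : Fin (k + 1)} {a w q K P e X : ℕ}
    {H : ((Fin (k + 1) → ℝ) × (Fin (k + 1) → ℝ)) × F.ζ × ℕ → MvPolynomial (Fin (k + 1)) ℝ}
    {ω : F.Ω} (h : ∀ i < K, |(cl F i₁ a w q K P e H ω).coeff (i + 1)| ≤ 1) :
    Gl F i₁ a w q K P e X H ω := by
  have hX : (0 : ℝ) < 2 ^ X := by positivity
  intro i
  have h1 := floor_div_le (X := X) (h i i.isLt)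
  rw [abs_div, abs_of_pos hX, div_le_one hX] at h1
  exact h1

/-- **Most contexts are good.** -/
theorem core_ctx (k K : ℕ) (hK : 1 ≤ K) (C₀ : ℝ) (hC₀ : 1 ≤ C₀)
    (b : Bas k (Mon k K)) (hb : ∀ i, b.g i = mono (i : Fin k → ℕ)) : ∃ A : ℕ,
    ∀ (c c₁ κ π₁ ι₁ ε₁ η : ℝ) (j₀ : ℕ), c₁ < c → c₁ < 1 → 0 < κ → κ ≤ 1 → 0 < π₁ →
    0 < ι₁ → 0 < ε₁ → 0 < η → ∃ (π₀ ι ε₀ : ℝ) (X₀ : ℕ), 0 < π₀ ∧ 0 < ι ∧ 0 < ε₀ ∧
      ∀ (J : ℕ) (F : Fam (k + 1) J) (i₁ : Fin (k + 1)) (a w q P e X : ℕ)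
      (H : ((Fin (k + 1) → ℝ) × (Fin (k + 1) → ℝ)) × F.ζ × ℕ → MvPolynomial (Fin (k + 1)) ℝ)
      (Gf : F.Ω → MvPolynomial (Fin (k + 1)) ℝ) (p : F.Ω → ℝ) (Tau : Type) (T : F.Ω → Tau),
      X₀ ≤ X → Avg F i₁ a w q K P e X H Gf p T C₀ c κ π₀ ι ε₀ j₀ →
      Pr p {ω | ¬ Good5 b A c₁ κ π₁ ι₁ ε₁ j₀ (ldat F i₁ a w q K P e X H Gf
        (Pool.Agent.H49.Ent.cond p (gx F i₁ a w q K P e X H) (gx F i₁ a w q K P e X H ω)) T
        (thf F w p T) (cof F i₁ a w q K P e X H Gf p T))} ≤ η := by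
  classical
  obtain ⟨A, hA⟩ := ldat_ok k K C₀ (by linarith only [hC₀])
  obtain ⟨c₀, hc₀0, hc₀⟩ := cof_bound k K C₀ hC₀
  refine ⟨A, ?_⟩
  intro c c₁ κ π₁ ι₁ ε₁ η j₀ hcc hc1 hκ hκ1 hπ hι hε hη
  have hl2 : 0 < Real.log 2 := Real.log_pos one_lt_two
  set nb : ℕ := ⌈2 / κ⌉₊ + 1 with hnb
  have hnb0 : (0 : ℝ) < nb := by
    rw [hnb]
    positivity
  set η₁ : ℝ := η / 8 with hη₁
  have hη₁0 : 0 < η₁ := by positivity
  set ι : ℝ := min η₁ (η₁ * ι₁ / 2) with hιd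
  have hι0 : 0 < ι := lt_min hη₁0 (by positivity)
  have hιa : ι ≤ η₁ := min_le_left _ _
  have hιb : ι ≤ η₁ * ι₁ / 2 := min_le_right _ _
  set X₀ : ℕ := ⌈2 / κ⌉₊ + ⌈c₀ / ι₁⌉₊ + ⌈2 / (η₁ * ι₁)⌉₊ + 3 with hX₀
  refine ⟨η₁ * π₁ / nb, ι, η₁ * ε₁, X₀, by positivity, hι0, by positivity, ?_⟩
  intro J F i₁ a w q P e X H Gf p Tau T hX hav
  have hp := hav.law
  have hp0 := hp.nonneg
  have hXr : (X₀ : ℝ) ≤ X := by exact_mod_cast hX
  have hX1 : 2 / κ ≤ X := by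
    have h1 := Nat.le_ceil (2 / κ)
    have h2 : ((⌈2 / κ⌉₊ : ℕ) : ℝ) ≤ X₀ := by exact_mod_cast (by omega : ⌈2 / κ⌉₊ ≤ X₀)
    linarith only [hXr, h1, h2]
  have hX2 : c₀ / ι₁ ≤ X := by
    have h1 := Nat.le_ceil (c₀ / ι₁)
    have h2 : ((⌈c₀ / ι₁⌉₊ : ℕ) : ℝ) ≤ X₀ := by exact_mod_cast (by omega : ⌈c₀ / ι₁⌉₊ ≤ X₀)
    linarith only [hXr, h1, h2]
  have hX3 : 2 / (η₁ * ι₁) ≤ X := by
    have h1 := Nat.le_ceil (2 / (η₁ * ι₁))
    have h2 : ((⌈2 / (η₁ * ι₁)⌉₊ : ℕ) : ℝ) ≤ X₀ := by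
      exact_mod_cast (by omega : ⌈2 / (η₁ * ι₁)⌉₊ ≤ X₀)
    linarith only [hXr, h1, h2]
  have hX4 : 3 ≤ X := by omega
  have hXpos : (0 : ℝ) < X := by
    have : (3 : ℝ) ≤ X := by exact_mod_cast hX4
    linarith only [this]
  -- the height of the blocks
  set h : ℕ := ⌊κ * (X : ℝ)⌋₊ with hh
  have hκX : 2 ≤ κ * X := by
    rw [div_le_iff₀ hκ] at hX1
    linarith only [hX1]
  have hh1 : κ * X < h + 1 := Nat.lt_floor_add_one _
  have hhκ : κ * X / 2 ≤ h := by linarith only [hκX, hh1]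
  have hh0 : (0 : ℝ) < h := by linarith only [hκX, hh1]
  set bc := ctx F i₁ a w q P H with hbc
  set g := gx F i₁ a w q K P e X H with hg
  -- the choice
  have hpick := pick (p := p) hp bc (Gl F i₁ a w q K P e X H) (slam F w) T
    (fun ω => ⌊(2 : ℝ) ^ X * nuw F i₁ a w q K P e H Gf ω⌋)
    (fun ω => ((fun j => ⌊(2 : ℝ) ^ X * yt F i₁ a w ω j⌋ : Fin k → ℤ),
      (fun i => ⌊(2 : ℝ) ^ X * (cl F i₁ a w q K P e H ω).coeff (i.val + 1)⌋ : Fin K → ℤ)))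
    (fun ω => (fun j => ⌊(2 : ℝ) ^ X * yt F i₁ a w ω j⌋ : Fin k → ℤ))
    (fun ω => ⌊(2 : ℝ) ^ X * F.tw w ω⌋) (fun ω => ⌊(2 : ℝ) ^ j₀ * F.tw w ω⌋)
    (my := k * X * Real.log 2) (m₁ := X * Real.log 2) (m₂ := j₀ * Real.log 2)
    (e₁ := ι * X) (e₂ := ι * X * Real.log 2) (e₃ := η₁ * ε₁) (e₄ := ι * X)
    (e₅ := ι * X * Real.log 2 + Real.log 2)
    (θ₁ := ι₁ * X) (θ₂ := ι₁ * X * Real.log 2) (θ₃ := ε₁) (θ₄ := ι₁ * X)
    (θ₅ := ι₁ * X * Real.log 2) (by positivity) (by positivity) hε (by positivity) (by positivity)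
    (fun ω ω' _ _ h' => ctx_of_slam h') (fun ω ω' _ _ h' => Gl_of_slam h')
    (fun ω ω' _ _ h' => by
      have h1 := (Prod.ext_iff.1 (Prod.ext_iff.1 h').1).2
      unfold Gl
      refine propext (forall_congr' fun i => ?_)
      have h2 := congrFun h1 i
      simp only at h2
      rw [h2])
    (fun p' hp' _ => H_box hp' _ fun ω _ j => by
      have h1 := yb_mem F i₁ a w ω (i₁.succAbove j)
      exact floor_unit_mem h1.1 h1.2)
    (fun p' hp' _ => H_box1 hp' _ (fun ω _ => by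
      have t01 := T1_real F hav.hw ω
      unfold Fam.tw
      exact floor_unit_mem (by linarith only [t01, t01.1]) (by linarith only [t01, t01.2])) _)
    (fun p' hp' _ => H_box1 hp' _ (fun ω _ => by
      have t01 := T1_real F hav.hw ω
      unfold Fam.tw
      exact floor_unit_mem (by linarith only [t01, t01.1]) (by linarith only [t01, t01.2])) _)
    hav.h1 (by
      have := hav.h1f
      linarith only [this]) hav.h1a hav.h2 (by
      have := hav.h3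
      linarith only [this])
  have hbadl : Pr p {ω | ¬ Gl F i₁ a w q K P e X H ω} ≤ ι := by
    refine le_trans ?_ hav.hl
    have := Pool.M5T.Pr_or (p := p) hp0 (A := {ω | ¬ Gl F i₁ a w q K P e X H ω})
      (B := {ω | ∃ i < K, 1 < |(cl F i₁ a w q K P e H ω).coeff (i + 1)|}) (C := ∅)
      (fun ω _ h' => by
        left
        by_contra hcon
        apply h'
        refine Gl_of_le fun i hi => ?_
        by_contra h2
        exact hcon ⟨i, hi, not_le.1 h2⟩)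
    have h0 : Pr p (∅ : Set F.Ω) = 0 := by
      rw [Pool.KAF.Pr_eq]
      simp
    linarith only [this, h0]
  -- the rows
  have hrow := Pool.SLP.h5_ctx (R := Fin nb) hp g
    (fun r ω => if ((r : ℕ) + 1) * h ≤ X then
      ⌊(2 : ℝ) ^ (((r : ℕ) + 1) * h) * nuw F i₁ a w q K P e H Gf ω⌋ else 0)
    (fun r ω => (⌊(2 : ℝ) ^ ((r : ℕ) * h) * nuw F i₁ a w q K P e H Gf ω⌋, T ω))
    ((1 - c₁) * h * Real.log 2) (η₁ * π₁ / nb) π₁ hπ (by positivity) (by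
      intro E hE r
      have hr0 : ∀ ω, 0 ≤ rs p E ω := fun ω => cond_nonneg hp0 _ _ ω
      by_cases hr : ((r : ℕ) + 1) * h ≤ X
      · simp only [if_pos hr]
        have h1 := hav.h5 r hr E hE
        have h2 : CH (rs p E) (fun ω => ⌊(2 : ℝ) ^ (((r : ℕ) + 1) * h) *
            nuw F i₁ a w q K P e H Gf ω⌋) (fun ω => ((⌊(2 : ℝ) ^ ((r : ℕ) * h) *
            nuw F i₁ a w q K P e H Gf ω⌋, T ω), g ω)) ≤
            CH (rs p E) (fun ω => ⌊(2 : ℝ) ^ (((r : ℕ) + 1) * h) *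
            nuw F i₁ a w q K P e H Gf ω⌋) (fun ω => ((⌊(2 : ℝ) ^ ((r : ℕ) * h) *
            nuw F i₁ a w q K P e H Gf ω⌋, T ω), bc ω)) := by
          refine CH_mono_cond hr0 ?_
          intro ω ω' _ _ h'
          exact Prod.ext (Prod.ext_iff.1 h').1 (Prod.ext_iff.1 (Prod.ext_iff.1 h').2).1
        refine (h2.trans h1).trans_lt ?_
        have h3 : (1 - c) * (h : ℝ) < (1 - c₁) * h := by nlinarith only [hcc, hκX, hh1]
        nlinarith only [hl2, h3]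
      · simp only [if_neg hr]
        have h1 : CH (rs p E) (fun _ => (0 : ℤ)) (fun ω => ((⌊(2 : ℝ) ^ ((r : ℕ) * h) *
            nuw F i₁ a w q K P e H Gf ω⌋, T ω), g ω)) = 0 :=
          CH_eq_zero hr0 fun _ _ _ _ _ => rfl
        rw [h1]
        have : 0 < 1 - c₁ := by linarith only [hc1]
        positivity)
  rw [Fintype.card_fin] at hrow
  have hrow' : η₁ * π₁ / nb * nb / π₁ = η₁ := by
    field_simp
  rw [hrow'] at hrow
  -- union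
  have hU := Pool.M5T.Pr_or (p := p) hp0
    (A := {ω | ¬ Good5 b A c₁ κ π₁ ι₁ ε₁ j₀ (ldat F i₁ a w q K P e X H Gf
        (Pool.Agent.H49.Ent.cond p g (g ω)) T
        (thf F w p T) (cof F i₁ a w q K P e X H Gf p T))})
    (B := {ω | ¬ (Gl F i₁ a w q K P e X H ω ∧
      Pool.KVA.MI (Pool.Agent.H49.Ent.cond p (fun ω => (bc ω, Gl F i₁ a w q K P e X H ω))
        (bc ω, Gl F i₁ a w q K P e X H ω)) T (slam F w) (fun _ => ()) ≤ ι₁ * X ∧
      X * Real.log 2 - ι₁ * X * Real.log 2 ≤ CH (Pool.Agent.H49.Ent.cond p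
        (fun ω => (bc ω, Gl F i₁ a w q K P e X H ω)) (bc ω, Gl F i₁ a w q K P e X H ω))
        (fun ω => ⌊(2 : ℝ) ^ X * F.tw w ω⌋) (slam F w) ∧
      j₀ * Real.log 2 - ε₁ ≤ CH (Pool.Agent.H49.Ent.cond p
        (fun ω => (bc ω, Gl F i₁ a w q K P e X H ω)) (bc ω, Gl F i₁ a w q K P e X H ω))
        (fun ω => ⌊(2 : ℝ) ^ j₀ * F.tw w ω⌋) (slam F w) ∧
      Pool.KVA.MI (Pool.Agent.H49.Ent.cond p (fun ω => (bc ω, Gl F i₁ a w q K P e X H ω))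
        (bc ω, Gl F i₁ a w q K P e X H ω))
        (fun ω => ⌊(2 : ℝ) ^ X * nuw F i₁ a w q K P e H Gf ω⌋)
        (fun ω => ((fun j => ⌊(2 : ℝ) ^ X * yt F i₁ a w ω j⌋ : Fin k → ℤ),
          (fun i => ⌊(2 : ℝ) ^ X * (cl F i₁ a w q K P e H ω).coeff (i.val + 1)⌋ : Fin K → ℤ)))
        T ≤ ι₁ * X ∧
      k * X * Real.log 2 - ι₁ * X * Real.log 2 ≤ Pool.Agent.H49.Ent.H (Pool.Agent.H49.Ent.cond p
        (fun ω => (bc ω, Gl F i₁ a w q K P e X H ω)) (bc ω, Gl F i₁ a w q K P e X H ω))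
        (fun ω => (fun j => ⌊(2 : ℝ) ^ X * yt F i₁ a w ω j⌋ : Fin k → ℤ)))})
    (C := {ω | ∃ (r : Fin nb) (E : Set F.Ω),
      π₁ ≤ Pr (Pool.Agent.H49.Ent.cond p g (g ω)) E ∧
      (1 - c₁) * h * Real.log 2 ≤ CH (rs (Pool.Agent.H49.Ent.cond p g (g ω)) E)
        (fun ω => if ((r : ℕ) + 1) * h ≤ X then
          ⌊(2 : ℝ) ^ (((r : ℕ) + 1) * h) * nuw F i₁ a w q K P e H Gf ω⌋ else 0)
        (fun ω => (⌊(2 : ℝ) ^ ((r : ℕ) * h) * nuw F i₁ a w q K P e H Gf ω⌋, T ω))})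
    (by
      intro ω hω hA'
      by_contra hcon
      rw [not_or] at hcon
      obtain ⟨hB', hC'⟩ := hcon
      apply hA'
      obtain ⟨g0, g1, g2, g3, g4, g5⟩ := not_not.1 hB'
      set pz := Pool.Agent.H49.Ent.cond p g (g ω) with hpz
      have hz : 0 < law p g (g ω) := law_pos hp0 g hω
      have hzl : IsLaw pz := ⟨fun v => cond_nonneg hp0 g _ v, sum_cond p g hz.ne'⟩
      have hsup : ∀ ω', 0 < pz ω' → 0 < p ω' ∧ Gl F i₁ a w q K P e X H ω' := by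
        intro ω' h'
        obtain ⟨h1, h2⟩ := (cond_pos_iff hp0 g _ ω').1 h'
        refine ⟨h1, ?_⟩
        have h3 : Gl F i₁ a w q K P e X H ω' = Gl F i₁ a w q K P e X H ω :=
          (Prod.ext_iff.1 h2).2
        rw [h3]
        exact g0
      have hth : ∀ ω', 0 < p ω' → thf F w p T (T ω') = F.tw w ω' := fun ω' hω' =>
        fac_eq (fun ω ω' h1 h2 h3 => (hav.hT ω ω' h1 h2 h3).1) hω'
      have hco : ∀ ω', 0 < p ω' → cof F i₁ a w q K P e X H Gf p T (T ω') =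
          fun al => (shd F i₁ a w q K P e X H Gf ω' al : ℝ) / 2 ^ X := fun ω' hω' =>
        fac_eq (g := fun ω al => (shd F i₁ a w q K P e X H Gf ω al : ℝ) / 2 ^ X)
          (fun ω ω' h1 h2 h3 => by
            rw [(hav.hT ω ω' h1 h2 h3).2]) hω'
      have hXp : (0 : ℝ) < 2 ^ X := by positivity
      refine ⟨?_, ?_, ?_, ?_, ?_⟩
      · -- OK
        refine hA J F i₁ a w q P e X H Gf pz Tau T _ _ b _ hzl hb hK hav.hw hav.hq hX4
          (fun ω' h' => ?_) (fun ω' ω'' h1 h2 => hav.hG ω' ω'' (hsup ω' h1).1 (hsup ω'' h2).1)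
          (fun t => ?_) (fun t al => ?_)
        · obtain ⟨h1, h2⟩ := hsup ω' h'
          obtain ⟨s1, s2, s3⟩ := hav.hs ω' h1
          refine ⟨s1, s2, s3, fun i hi => h2 ⟨i, hi⟩, hth ω' h1, fun al => ?_⟩
          rw [hco ω' h1]
          refine (floor_div_near X _).trans ?_
          exact div_le_div_of_nonneg_right hC₀ hXp.le
        · refine fac_mem (Q := fun x : ℝ => 0 ≤ x ∧ x < 1) ⟨le_rfl, one_pos⟩
            (fun ω _ => ?_) t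
          have t01 := T1_real F hav.hw ω
          unfold Fam.tw
          constructor <;> linarith only [t01, t01.1, t01.2]
        · refine (hc₀ J F i₁ a w q P e X H Gf p Tau T hav.hw
            (fun ω' h1 => ⟨(hav.hs ω' h1).1, (hav.hs ω' h1).2.1⟩) t al).trans ?_
          refine Real.rpow_le_rpow_of_exponent_le (by norm_num) ?_
          change c₀ ≤ ι₁ * (X : ℝ)
          rw [div_le_iff₀ hι] at hX2
          linarith only [hX2]
      · refine ldat_H1 hzl (fun ω' h' => hth ω' (hsup ω' h').1) g1 ?_ g3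
        refine le_trans (le_of_eq ?_) g2
        ring
      · exact ldat_H2 hzl b g4
      · refine ldat_H3 hzl ?_
        refine le_trans (le_of_eq ?_) g5
        ring
      · refine ldat_H5 b fun j hj E hE => ?_
        have hj' : (j + 1) * h ≤ X := hj
        have hjnb : j < nb := by
          have h1 : ((j : ℝ) + 1) * h ≤ X := by exact_mod_cast hj'
          have h2 : ((j : ℝ) + 1) * (κ * X / 2) ≤ X :=
            (mul_le_mul_of_nonneg_left hhκ (by positivity)).trans h1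
          have h3 : ((j : ℝ) + 1) * (κ / 2) ≤ 1 := by
            by_contra h4
            rw [not_le] at h4
            nlinarith only [hκX, hh1, h1, h4]
          have h4 : ((j : ℝ) + 1) ≤ 2 / κ := by
            rw [le_div_iff₀ hκ]
            linarith only [h3]
          have h5 := Nat.le_ceil (2 / κ)
          have h6 : ((j : ℝ) + 1) ≤ (⌈2 / κ⌉₊ : ℕ) := h4.trans h5
          have h7 : j + 1 ≤ ⌈2 / κ⌉₊ := by exact_mod_cast h6
          omega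
        by_contra hlt
        rw [not_le] at hlt
        apply hC'
        refine ⟨⟨j, hjnb⟩, E, hE, ?_⟩
        simp only [if_pos hj']
        exact hlt.le)
  have e1 : ι * X / (ι₁ * X) ≤ η₁ / 2 := by
    rw [div_le_iff₀ (by positivity)]
    nlinarith only [hιb]
  have e2 : ι * X * Real.log 2 / (ι₁ * X * Real.log 2) ≤ η₁ / 2 := by
    rw [div_le_iff₀ (by positivity)]
    have : ι * X ≤ η₁ / 2 * (ι₁ * X) := by nlinarith only [hιb]
    nlinarith only [hl2, this]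
  have e3 : η₁ * ε₁ / ε₁ = η₁ := by field_simp
  have e5 : (ι * X * Real.log 2 + Real.log 2) / (ι₁ * X * Real.log 2) ≤ η₁ := by
    rw [div_le_iff₀ (by positivity)]
    have h1 : 1 ≤ η₁ / 2 * (ι₁ * X) := by
      rw [div_le_iff₀ (by positivity)] at hX3
      linarith only [hX3]
    have h2 : ι * X ≤ η₁ / 2 * (ι₁ * X) := by nlinarith only [hιb]
    nlinarith only [hl2, h1, h2]
  rw [e3] at hpick
  have hfin := hU.trans (add_le_add hpick hrow)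
  refine hfin.trans ?_
  rw [hη₁] at *
  linarith only [hι0, hιa, hbadl, e1, e2, e5]

/-- The law of references and pairs of the data. -/
theorem ldat_Q4 (F : Fam (k + 1) J) (i₁ : Fin (k + 1)) (a w q K P e X : ℕ)
    (H : ((Fin (k + 1) → ℝ) × (Fin (k + 1) → ℝ)) × F.ζ × ℕ → MvPolynomial (Fin (k + 1)) ℝ)
    (Gf : F.Ω → MvPolynomial (Fin (k + 1)) ℝ) (p : F.Ω → ℝ) {Tau : Type} (T : F.Ω → Tau)
    (th : Tau → ℝ) (co : Tau → Mon k K → ℝ) (i : ℕ) :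
    (ldat F i₁ a w q K P e X H Gf p T th co).Q4 i =
      q4 p (slam F w) (fun ω => (slam F w ω, ⌊(2 : ℝ) ^ i * th (T ω)⌋)) K := by
  classical
  have h1 : (ldat F i₁ a w q K P e X H Gf p T th co).Qr = tup p (slam F w) K := by
    funext v
    rw [tup_eq]
    unfold LDat.Qr
    rfl
  unfold LDat.Q4 q4
  rw [h1]
  rfl

/-- **Lemma L1 for the whole law**, from average hypotheses. -/
theorem core (hL1 : L1Stmt) (k K : ℕ) (hK : 1 ≤ K) (C₀ c ε : ℝ) (hC₀ : 1 ≤ C₀) (hc : 0 < c)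
    (hε : 0 < ε) : ∃ (κ₂ κ π₀ ι ε₀ : ℝ) (j₀ X₀ : ℕ), 0 < κ₂ ∧ 0 < κ ∧ κ ≤ 1 ∧ 0 < π₀ ∧ 0 < ι ∧
      0 < ε₀ ∧ ∀ (J : ℕ) (F : Fam (k + 1) J) (i₁ : Fin (k + 1)) (a w q P e X : ℕ)
      (H : ((Fin (k + 1) → ℝ) × (Fin (k + 1) → ℝ)) × F.ζ × ℕ → MvPolynomial (Fin (k + 1)) ℝ)
      (Gf : F.Ω → MvPolynomial (Fin (k + 1)) ℝ) (p : F.Ω → ℝ) (Tau : Type) (T : F.Ω → Tau),
      X₀ ≤ X → Avg F i₁ a w q K P e X H Gf p T C₀ c κ π₀ ι ε₀ j₀ →
      Pr ((ldat F i₁ a w q K P e X H Gf p T (thf F w p T)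
        (cof F i₁ a w q K P e X H Gf p T)).Q4 0) {u | ∃ i, (2 : ℝ) ^ (-(κ₂ * X)) <
        |(ldat F i₁ a w q K P e X H Gf p T (thf F w p T)
          (cof F i₁ a w q K P e X H Gf p T)).rs u i|} ≤ ε := by
  classical
  obtain ⟨b, hb1, hb2⟩ := Pool.Agent.H1.M5.tay_thm k K
  obtain ⟨A, hA⟩ := core_ctx k K hK C₀ hC₀ b hb1
  set c₁ : ℝ := min (c / 2) (1 / 2) with hc₁
  have hc₁0 : 0 < c₁ := lt_min (by positivity) (by norm_num)
  have hc₁c : c₁ < c := (min_le_left _ _).trans_lt (by linarith only [hc])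
  have hc₁1 : c₁ < 1 := (min_le_right _ _).trans_lt (by norm_num)
  obtain ⟨κ₂, κ, π₁, ι₁, ε₁, j₀, X₁, a1, a2, a3, a4, a5, a6, hL⟩ :=
    hL1 k K K A b c₁ (ε / 2) hb1 hb2 hc₁0 (by positivity)
  obtain ⟨π₀, ι, ε₀, X₂, b1, b2, b3, hC⟩ :=
    hA c c₁ κ π₁ ι₁ ε₁ (ε / 2) j₀ hc₁c hc₁1 a2 a3 a4 a5 a6 (by positivity)
  refine ⟨κ₂, κ, π₀, ι, ε₀, j₀, max X₁ X₂, a1, a2, a3, b1, b2, b3, ?_⟩
  intro J F i₁ a w q P e X H Gf p Tau T hX hav
  have hp := hav.law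
  have hp0 := hp.nonneg
  have h1 := hC J F i₁ a w q P e X H Gf p Tau T ((le_max_right _ _).trans hX) hav
  set g := gx F i₁ a w q K P e X H with hg
  set th := thf F w p T with hth
  set co := cof F i₁ a w q K P e X H Gf p T with hco
  set bad : Set _ := {z | ¬ Good5 b A c₁ κ π₁ ι₁ ε₁ j₀ (ldat F i₁ a w q K P e X H Gf
    (Pool.Agent.H49.Ent.cond p g z) T th co)} with hbad
  have h2 := q4_mix (n := K) hp (L := slam F w)
    (S := fun ω => (slam F w ω, ⌊(2 : ℝ) ^ 0 * th (T ω)⌋)) (g := g)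
    (fun ω ω' _ _ h' => Prod.ext (ctx_of_slam h') (Gl_of_slam h'))
    (fun ω ω' _ _ h' => (Prod.ext_iff.1 h').1)
    {u | ∃ i, (2 : ℝ) ^ (-(κ₂ * X)) < |(ldat F i₁ a w q K P e X H Gf p T th co).rs u i|} bad
    (ε := ε / 2) (by positivity) (fun z hz hzb => by
      have h3 := not_not.1 hzb
      obtain ⟨g1, g2, g3, g4, g5⟩ := h3
      have h4 := hL (ldat F i₁ a w q K P e X H Gf (Pool.Agent.H49.Ent.cond p g z) T th co) g1
        ((le_max_left _ _).trans hX) g2 g3 g4 g5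
      rw [ldat_Q4] at h4
      exact h4)
  rw [ldat_Q4]
  refine h2.trans ?_
  have h5 : Pr p {ω | g ω ∈ bad} ≤ ε / 2 := h1
  linarith only [h5]

end core

end Pool.SLO
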