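import Pool.Agent.H81.SLP.Ctx
import Pool.Agent.H36.KBX.Coef
import Pool.Agent.H37.S3.PRE
import Pool.Agent.H20.KAL.TAY

/-!
# Contexts of the slope law: two windows

The line data in a context are functions of this context, of the context of a much longer window
(finer in the position) and of the position of the line in the box of the latter.
-/

set_option autoImplicit false

namespace Pool.SLO

open Finset Real MvPolynomial
open Pool.Agent.H49.Ent Pool.Agent.H32.Dense Pool.STK Pool.KA Pool.KSAT Pool.K2S Pool.PB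

/-! ### Bounded polynomials are Lipschitz -/

/-- A polynomial bounded on the unit cube is Lipschitz near the unit cube. -/
theorem lip_cube (m K : ℕ) : ∃ C : ℝ, 0 ≤ C ∧ ∀ (P : MvPolynomial (Fin m) ℝ) (M δ : ℝ),
    P.totalDegree ≤ K → (∀ b : Fin m → ℝ, (∀ i, 0 ≤ b i ∧ b i ≤ 1) → |eval b P| ≤ M) →
    δ ≤ 1 / 4 → ∀ b b' : Fin m → ℝ, (∀ i, 0 ≤ b i ∧ b i ≤ 5 / 4) →
    (∀ i, 0 ≤ b' i ∧ b' i ≤ 5 / 4) → (∀ i, |b i - b' i| ≤ δ) →
    |eval b P - eval b' P| ≤ C * M * δ := by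
  obtain ⟨B, hB0, hB⟩ := Pool.Agent.H36.KBX.der_bound m K
  refine ⟨m * B * 2, by positivity, ?_⟩
  intro P M δ hP hM hδ b b' hb hb' hbb
  set f : Fin m → MvPolynomial (Fin m) ℝ := fun i => C (1 / 2) + C (1 / 2) * X i with hf
  set Q := bind₁ f P with hQ
  have hev : ∀ y, eval y Q = eval (fun i => 1 / 2 + 1 / 2 * y i) P := by
    intro y
    rw [hQ, eval, eval₂Hom_bind₁]
    congr 1
    congr 1
    funext i
    simp [hf]
  have hQd : Q.totalDegree ≤ K := by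
    refine (totalDegree_bind₁_le f (fun i => ?_) P).trans hP
    refine (totalDegree_add _ _).trans (max_le ?_ ?_)
    · rw [totalDegree_C]
      exact Nat.zero_le _
    · refine (totalDegree_mul _ _).trans ?_
      rw [totalDegree_C, totalDegree_X]
  have hQM : ∀ y : Fin m → ℝ, (∀ i, |y i| ≤ 1) → |eval y Q| ≤ M := by
    intro y hy
    rw [hev]
    refine hM _ fun i => ?_
    have := abs_le.1 (hy i)
    constructor <;> linarith [this.1, this.2]
  have hder := hB Q M hQd hQM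
  have hM0 : 0 ≤ M := (abs_nonneg _).trans (hM (fun _ => 0) fun i => ⟨le_rfl, zero_le_one⟩)
  rcases Nat.eq_zero_or_pos m with hm | hm
  · subst hm
    have : b = b' := funext fun i => i.elim0
    rw [this, sub_self, abs_zero]
    simp
  have hδ0 : 0 ≤ δ := (abs_nonneg _).trans (hbb ⟨0, hm⟩)
  have h1 := Pool.KS3.mean_value Q (fun i => 2 * min (b i) (b' i) - 1) (2 * δ) (B * M)
    (by positivity) (by
      intro y hy i
      refine (hder y (fun j => ?_)).2.1 i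
      obtain ⟨h1, h2⟩ := hy j
      have e1 : 0 ≤ min (b j) (b' j) := le_min (hb j).1 (hb' j).1
      have e2 : min (b j) (b' j) ≤ b j := min_le_left _ _
      have e3 := (hb j).2
      rw [abs_le]
      constructor <;> linarith) (fun i => 2 * b' i - 1) (fun i => 2 * b i - 1)
    (fun i => ?_) (fun i => ?_)
  · have e1 : eval (fun i => 2 * b i - 1) Q = eval b P := by
      rw [hev]
      congr 1
      congr 1
      funext i
      ring
    have e2 : eval (fun i => 2 * b' i - 1) Q = eval b' P := by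
      rw [hev]
      congr 1
      congr 1
      funext i
      ring
    rw [e1, e2] at h1
    refine h1.trans (le_of_eq ?_)
    ring
  · have h2 := abs_le.1 (hbb i)
    rcases le_total (b i) (b' i) with h | h
    · simp only [min_eq_left h]
      constructor <;> linarith [h2.1, h2.2]
    · simp only [min_eq_right h]
      constructor <;> linarith [h2.1, h2.2]
  · have h2 := abs_le.1 (hbb i)
    rcases le_total (b i) (b' i) with h | h
    · simp only [min_eq_left h]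
      constructor <;> linarith [h2.1, h2.2]
    · simp only [min_eq_right h]
      constructor <;> linarith [h2.1, h2.2]

/-- A polynomial in one variable bounded on the unit interval is Lipschitz there. -/
theorem lip_unit (K : ℕ) : ∃ B : ℝ, 0 ≤ B ∧ ∀ (q : Polynomial ℝ) (M : ℝ), q.natDegree ≤ K →
    (∀ t : ℝ, 0 ≤ t → t ≤ 1 → |q.eval t| ≤ M) → ∀ s t : ℝ, 0 ≤ s → s ≤ 1 → 0 ≤ t → t ≤ 1 →
    |q.eval s - q.eval t| ≤ B * M * |s - t| := by
  obtain ⟨B, hB0, hB⟩ := Pool.KAL.TAY.coef_bound K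
  refine ⟨(K + 1) * (B * K), by positivity, ?_⟩
  intro q M hq hM s t hs0 hs1 ht0 ht1
  have hM0 : 0 ≤ M := (abs_nonneg _).trans (hM 0 le_rfl zero_le_one)
  have h1 : ∀ x ∈ Set.Icc (0 : ℝ) 1, ‖q.derivative.eval x‖ ≤ (K + 1) * (B * K) * M := by
    intro x hx
    rw [Real.norm_eq_abs, Polynomial.derivative_eval, Polynomial.sum_over_range' _ _ (K + 1)
      (Nat.lt_succ_of_le hq)]
    · refine (Finset.abs_sum_le_sum_abs _ _).trans ?_
      have h2 : ∀ n ∈ Finset.range (K + 1), |q.coeff n * n * x ^ (n - 1)| ≤ B * M * K := by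
        intro n hn
        rw [Finset.mem_range] at hn
        rw [abs_mul, abs_mul, abs_pow]
        have e1 := hB q M hq hM n (by omega)
        have e2 : |(n : ℝ)| ≤ K := by
          rw [abs_of_nonneg (Nat.cast_nonneg n)]
          exact_mod_cast (by omega : n ≤ K)
        have e3 : |x| ^ (n - 1) ≤ 1 := by
          refine pow_le_one₀ (abs_nonneg _) ?_
          rw [abs_of_nonneg hx.1]
          exact hx.2
        calc |q.coeff n| * |(n : ℝ)| * |x| ^ (n - 1) ≤ B * M * K * 1 :=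
              mul_le_mul (mul_le_mul e1 e2 (abs_nonneg _) (by positivity)) e3
                (pow_nonneg (abs_nonneg _) _) (by positivity)
          _ = B * M * K := mul_one _
      refine (Finset.sum_le_sum h2).trans (le_of_eq ?_)
      rw [Finset.sum_const, Finset.card_range, nsmul_eq_mul]
      push_cast
      ring
    · intro n
      simp
  have h3 := (convex_Icc (0 : ℝ) 1).norm_image_sub_le_of_norm_hasDerivWithin_le
    (f := fun x => q.eval x) (f' := fun x => q.derivative.eval x)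
    (fun x _ => (q.hasDerivAt x).hasDerivWithinAt) h1 (Set.mem_Icc.2 ⟨ht0, ht1⟩)
    (Set.mem_Icc.2 ⟨hs0, hs1⟩)
  simpa only [Real.norm_eq_abs] using h3

/-! ### Two boxes -/

section two

variable {m : ℕ}

/-- From mixed coordinates (time in the box `(a, w)`, position in the box `(a', w')`) to the
box `(a, w)`. -/
noncomputable def toS (i₁ : Fin m) (a a' : ℕ) (c D c' b : Fin m → ℝ) : Fin m → ℝ := fun j =>
  if j = i₁ then b i₁ else
    2 ^ a / 2 ^ a' * b j - 2 ^ a * (c j - c' j - D j * (c i₁ - c' i₁))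

/-- From mixed coordinates to the box `(a', w')`. -/
noncomputable def toB (i₁ : Fin m) (w w' : ℕ) (c c' b : Fin m → ℝ) : Fin m → ℝ := fun j =>
  if j = i₁ then 2 ^ w' * (c i₁ - c' i₁) + 2 ^ w' / 2 ^ w * b i₁ else b j

noncomputable def toSp (i₁ : Fin m) (a a' : ℕ) (c D c' : Fin m → ℝ) (j : Fin m) :
    MvPolynomial (Fin m) ℝ :=
  if j = i₁ then X i₁ else
    C (2 ^ a / 2 ^ a') * X j + C (-(2 ^ a * (c j - c' j - D j * (c i₁ - c' i₁))))

noncomputable def toBp (i₁ : Fin m) (w w' : ℕ) (c c' : Fin m → ℝ) (j : Fin m) :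
    MvPolynomial (Fin m) ℝ :=
  if j = i₁ then C (2 ^ w' / 2 ^ w) * X i₁ + C (2 ^ w' * (c i₁ - c' i₁)) else X j

/-- **The difference of the labels** `R'` (box `(a', w')`) and `R` (box `(a, w)`) in mixed
coordinates, in units `2 ^ (-P)`. -/
noncomputable def dif (i₁ : Fin m) (a w a' w' P : ℕ) (c D c' : Fin m → ℝ)
    (R R' : MvPolynomial (Fin m) ℝ) : MvPolynomial (Fin m) ℝ :=
  C (2 ^ P) * (bind₁ (toBp i₁ w w' c c') R' - bind₁ (toSp i₁ a a' c D c') R)

theorem eval_dif (i₁ : Fin m) (a w a' w' P : ℕ) (c D c' : Fin m → ℝ)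
    (R R' : MvPolynomial (Fin m) ℝ) (b : Fin m → ℝ) :
    eval b (dif i₁ a w a' w' P c D c' R R') =
      2 ^ P * (eval (toB i₁ w w' c c' b) R' - eval (toS i₁ a a' c D c' b) R) := by
  unfold dif
  rw [map_mul, eval_C, map_sub]
  congr 1
  congr 1
  · rw [eval, eval₂Hom_bind₁]
    congr 1
    congr 1
    funext j
    unfold toBp toB
    split_ifs
    · simp only [coe_eval₂Hom, eval₂_add, eval₂_mul, eval₂_C, eval₂_X, RingHom.id_apply]
      ring
    · simp only [coe_eval₂Hom, eval₂_X]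
  · rw [eval, eval₂Hom_bind₁]
    congr 1
    congr 1
    funext j
    unfold toSp toS
    split_ifs
    · simp only [coe_eval₂Hom, eval₂_X]
    · simp only [coe_eval₂Hom, eval₂_add, eval₂_mul, eval₂_C, eval₂_X, RingHom.id_apply]
      ring

theorem totalDegree_dif {K : ℕ} (i₁ : Fin m) (a w a' w' P : ℕ) (c D c' : Fin m → ℝ)
    {R R' : MvPolynomial (Fin m) ℝ} (hR : R.totalDegree ≤ K) (hR' : R'.totalDegree ≤ K) :
    (dif i₁ a w a' w' P c D c' R R').totalDegree ≤ K := by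
  have h1 : ∀ (x y : ℝ) (k : Fin m), (C x * X k + C y : MvPolynomial (Fin m) ℝ).totalDegree ≤
      1 := by
    intro x y k
    refine (totalDegree_add _ _).trans (max_le ?_ ?_)
    · refine (totalDegree_mul _ _).trans ?_
      rw [totalDegree_C, totalDegree_X]
    · rw [totalDegree_C]
      exact Nat.zero_le _
  have h2 : ∀ k : Fin m, (X k : MvPolynomial (Fin m) ℝ).totalDegree ≤ 1 := fun k =>
    (totalDegree_X k).le
  unfold dif
  refine (totalDegree_mul _ _).trans ?_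
  rw [totalDegree_C, zero_add]
  refine (totalDegree_sub _ _).trans (max_le ?_ ?_)
  · refine (totalDegree_bind₁_le _ (fun j => ?_) _).trans hR'
    unfold toBp
    split_ifs
    · exact h1 _ _ _
    · exact h2 _
  · refine (totalDegree_bind₁_le _ (fun j => ?_) _).trans hR
    unfold toSp
    split_ifs
    · exact h2 _
    · exact h1 _ _ _

end two

section fam2

variable {m J : ℕ}

/-- The box time in the large window. -/
noncomputable def tp (F : Fam m J) (w w' : ℕ) (ω : F.Ω) (τ : ℝ) : ℝ :=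
  2 ^ w' * ((F.T1 w ω : ℝ) / 2 ^ w - (F.T1 w' ω : ℝ) / 2 ^ w') + 2 ^ w' / 2 ^ w * τ

/-- The point of the line in mixed coordinates. -/
noncomputable def mxp (F : Fam m J) (i₁ : Fin m) (w a' w' q : ℕ) (ω : F.Ω) (τ : ℝ) : Fin m → ℝ :=
  fun j => if j = i₁ then τ else
    yb F i₁ a' w' ω j + tp F w w' ω τ * omb F i₁ a' w' q ω j

theorem toB_mxp (F : Fam m J) (i₁ : Fin m) (a w a' w' q : ℕ) (ω : F.Ω) (τ : ℝ) :
    toB i₁ w w' (cw F i₁ a w ω) (cw F i₁ a' w' ω) (mxp F i₁ w a' w' q ω τ) =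
      pnt i₁ (yb F i₁ a' w' ω) (omb F i₁ a' w' q ω) (tp F w w' ω τ) := by
  funext j
  unfold toB mxp pnt
  by_cases hj : j = i₁
  · rw [if_pos hj, if_pos hj, if_pos rfl]
    unfold cw tp
    rw [if_pos rfl, if_pos rfl]
  · rw [if_neg hj, if_neg hj, if_neg hj]

theorem x1_sub (F : Fam m J) (w w' : ℕ) (ω : F.Ω) (j : Fin m) :
    F.x1 w ω j = F.x1 w' ω j +
      ((F.T1 w ω : ℝ) / 2 ^ w - (F.T1 w' ω : ℝ) / 2 ^ w') * F.d ω j := by
  unfold Fam.x1
  ring

theorem toS_mxp (F : Fam m J) (i₁ : Fin m) (a w a' w' q : ℕ) (ω : F.Ω) (τ : ℝ) :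
    toS i₁ a a' (cw F i₁ a w ω) (dq F i₁ q ω) (cw F i₁ a' w' ω) (mxp F i₁ w a' w' q ω τ) =
      pnt i₁ (yb F i₁ a w ω) (omb F i₁ a w q ω) τ := by
  funext j
  unfold toS mxp pnt
  by_cases hj : j = i₁
  · rw [if_pos hj, if_pos hj, if_pos rfl]
  · rw [if_neg hj, if_neg hj, if_neg hj]
    have e1 : cw F i₁ a w ω i₁ = (F.T1 w ω : ℝ) / 2 ^ w := by
      unfold cw
      rw [if_pos rfl]
    have e2 : cw F i₁ a' w' ω i₁ = (F.T1 w' ω : ℝ) / 2 ^ w' := by
      unfold cw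
      rw [if_pos rfl]
    rw [e1, e2]
    unfold yb omb tp
    rw [if_neg hj, if_neg hj, if_neg hj, if_neg hj, x1_sub F w w' ω j]
    have h1 : (2 : ℝ) ^ a ≠ 0 := by positivity
    have h2 : (2 : ℝ) ^ a' ≠ 0 := by positivity
    have h3 : (2 : ℝ) ^ w ≠ 0 := by positivity
    have h4 : (2 : ℝ) ^ w' ≠ 0 := by positivity
    field_simp
    ring

theorem eval_npl2 (F : Fam m J) (i₁ : Fin m) (w w' : ℕ) (ω : F.Ω) (τ : ℝ) :
    (npl F i₁ w ω).eval τ = (npl F i₁ w' ω).eval (tp F w w' ω τ) := by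
  unfold npl tp
  simp only [Polynomial.eval_add, Polynomial.eval_mul, Polynomial.eval_C, Polynomial.eval_X]
  rw [x1_sub F w w' ω i₁]
  field_simp
  ring

/-- **The line polynomials of two windows.** -/
theorem lpl_two (F : Fam m J) (i₁ : Fin m) (a w a' w' q P : ℕ) (R R' : MvPolynomial (Fin m) ℝ)
    (ω : F.Ω) (τ : ℝ) :
    (lpl F i₁ a w q P R ω).eval τ = (lpl F i₁ a' w' q P R' ω).eval (tp F w w' ω τ) +
      eval (mxp F i₁ w a' w' q ω τ)
        (dif i₁ a w a' w' P (cw F i₁ a w ω) (dq F i₁ q ω) (cw F i₁ a' w' ω) R R') := by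
  rw [eval_dif, toB_mxp, toS_mxp]
  unfold lpl
  rw [Polynomial.eval_mul, Polynomial.eval_mul, Polynomial.eval_C, Polynomial.eval_C,
    Polynomial.eval_sub, Polynomial.eval_sub, eval_lin, eval_lin, eval_npl2 F i₁ w w']
  ring

/-- The window of length `2 ^ (-w)` is inside the window of length `2 ^ (-w')`. -/
theorem tp_mem (F : Fam m J) {w w' : ℕ} (h : w' ≤ w) (hw : w ≤ J) (ω : F.Ω) {τ : ℝ}
    (h0 : 0 ≤ τ) (h1 : τ ≤ 1) : 0 ≤ tp F w w' ω τ ∧ tp F w w' ω τ ≤ 1 := by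
  have e1 : F.T1 w' ω = F.T1 w ω / 2 ^ (w - w') := by
    unfold Fam.T1
    rw [Nat.div_div_eq_div_mul, ← pow_add]
    congr 2
    omega
  have e2 := Nat.div_add_mod (F.T1 w ω) (2 ^ (w - w'))
  have e3 := Nat.mod_lt (F.T1 w ω) (show 0 < 2 ^ (w - w') by positivity)
  rw [← e1] at e2
  have e4 : (F.T1 w ω : ℝ) = 2 ^ (w - w') * F.T1 w' ω +
      ((F.T1 w ω % 2 ^ (w - w') : ℕ) : ℝ) := by exact_mod_cast e2.symm
  have e5 : ((F.T1 w ω % 2 ^ (w - w') : ℕ) : ℝ) + 1 ≤ 2 ^ (w - w') := by exact_mod_cast e3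
  have e6 : (0 : ℝ) ≤ ((F.T1 w ω % 2 ^ (w - w') : ℕ) : ℝ) := Nat.cast_nonneg _
  have e7 : (2 : ℝ) ^ w = 2 ^ (w - w') * 2 ^ w' := by
    rw [← pow_add]
    congr 1
    omega
  have e8 : tp F w w' ω τ = (((F.T1 w ω % 2 ^ (w - w') : ℕ) : ℝ) + τ) / 2 ^ (w - w') := by
    unfold tp
    rw [e4, e7]
    field_simp
    ring
  rw [e8]
  constructor
  · positivity
  · rw [div_le_one (by positivity)]
    linarith

end fam2

/-- **The line data are functions of the two contexts and of the position of the line.** -/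
theorem vdet (m K : ℕ) : ∃ B : ℝ, 0 ≤ B ∧ ∀ (J : ℕ) (F : Fam m J) (i₁ : Fin m)
    (a w a' w' q P X : ℕ) (C₀ : ℝ) (R R' : MvPolynomial (Fin m) ℝ) (ω ω' : F.Ω), 1 ≤ K →
    R.totalDegree ≤ K → R'.totalDegree ≤ K → cw F i₁ a w ω = cw F i₁ a w ω' →
    dq F i₁ q ω = dq F i₁ q ω' → cw F i₁ a' w' ω = cw F i₁ a' w' ω' →
    F.T1 w ω = F.T1 w ω' → w' + X ≤ w → w ≤ J → a' + X ≤ q + w' → 3 ≤ X →
    (∀ b : Fin m → ℝ, (∀ i, 0 ≤ b i ∧ b i ≤ 1) → |eval b (dif i₁ a w a' w' P (cw F i₁ a w ω)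
      (dq F i₁ q ω) (cw F i₁ a' w' ω) R R')| ≤ C₀) →
    (∀ s : ℝ, 0 ≤ s → s ≤ 1 → |(lpl F i₁ a' w' q P R' ω).eval s| ≤ C₀) →
    (∀ s : ℝ, 0 ≤ s → s ≤ 1 → |(lpl F i₁ a' w' q P R' ω').eval s| ≤ C₀) →
    (∀ j, |yb F i₁ a' w' ω j - yb F i₁ a' w' ω' j| ≤ 1 / 2 ^ X) →
    ∀ i, 1 ≤ i → i ≤ K → |(lpl F i₁ a w q P R ω).coeff i - (lpl F i₁ a w q P R ω').coeff i| ≤
      B * C₀ / 2 ^ X := by
  obtain ⟨B1, hB1, h1⟩ := lip_unit K
  obtain ⟨B2, hB2, h2⟩ := lip_cube m K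
  obtain ⟨B3, hB3, h3⟩ := Pool.KAL.TAY.coef_bound K
  refine ⟨B3 * (2 * B1 + 2 * B2), by positivity, ?_⟩
  intro J F i₁ a w a' w' q P X C₀ R R' ω ω' hK hR hR' hc hD hc' hT hX hw hq hX3 hE hl hl' hy i
    hi1 hiK
  have hXp : (0 : ℝ) < 2 ^ X := by positivity
  have hC₀ : 0 ≤ C₀ := (abs_nonneg _).trans (hl 0 le_rfl zero_le_one)
  have hX8 : (1 : ℝ) / 2 ^ X ≤ 1 / 8 := by
    refine one_div_le_one_div_of_le (by norm_num) ?_
    calc (8 : ℝ) = 2 ^ 3 := by norm_num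
      _ ≤ 2 ^ X := pow_le_pow_right₀ (by norm_num) hX3
  have hww : w' ≤ w := by omega
  -- the scales
  have hρ : (2 : ℝ) ^ w' / 2 ^ w ≤ 1 / 2 ^ X := by
    rw [div_le_div_iff₀ (by positivity) hXp, ← pow_add, one_mul]
    exact pow_le_pow_right₀ (by norm_num) hX
  have hom : (2 : ℝ) ^ a' / (2 ^ w' * 2 ^ q) ≤ 1 / 2 ^ X := by
    rw [div_le_div_iff₀ (by positivity) hXp, ← pow_add, ← pow_add, one_mul]
    exact pow_le_pow_right₀ (by norm_num) (by omega)
  set p : Polynomial ℝ := lpl F i₁ a w q P R ω - lpl F i₁ a w q P R ω' -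
    Polynomial.C ((lpl F i₁ a' w' q P R' ω).eval (tp F w w' ω 0) -
      (lpl F i₁ a' w' q P R' ω').eval (tp F w w' ω' 0)) with hp
  have hpK : p.natDegree ≤ K := by
    refine (Polynomial.natDegree_sub_le _ _).trans (max_le
      ((Polynomial.natDegree_sub_le _ _).trans (max_le (natDegree_lpl _ _ _ _ _ _ _ _ hK hR _)
        (natDegree_lpl _ _ _ _ _ _ _ _ hK hR _))) ?_)
    rw [Polynomial.natDegree_C]
    exact Nat.zero_le _
  have hu : ∀ (ω₀ : F.Ω), (∀ s : ℝ, 0 ≤ s → s ≤ 1 →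
      |(lpl F i₁ a' w' q P R' ω₀).eval s| ≤ C₀) → ∀ τ : ℝ, 0 ≤ τ → τ ≤ 1 →
      |(lpl F i₁ a' w' q P R' ω₀).eval (tp F w w' ω₀ τ) -
        (lpl F i₁ a' w' q P R' ω₀).eval (tp F w w' ω₀ 0)| ≤ B1 * C₀ * (1 / 2 ^ X) := by
    intro ω₀ hω₀ τ h0 h1'
    obtain ⟨a1, a2⟩ := tp_mem F hww hw ω₀ h0 h1'
    obtain ⟨b1, b2⟩ := tp_mem F hww hw ω₀ (le_refl (0 : ℝ)) zero_le_one
    refine (h1 _ C₀ (natDegree_lpl _ _ _ _ _ _ _ _ hK hR' _) hω₀ _ _ a1 a2 b1 b2).trans ?_
    refine mul_le_mul_of_nonneg_left ?_ (by positivity)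
    have e1 : tp F w w' ω₀ τ - tp F w w' ω₀ 0 = 2 ^ w' / 2 ^ w * τ := by
      unfold tp
      ring
    rw [e1, abs_of_nonneg (by positivity)]
    calc (2 : ℝ) ^ w' / 2 ^ w * τ ≤ 2 ^ w' / 2 ^ w * 1 :=
          mul_le_mul_of_nonneg_left h1' (by positivity)
      _ ≤ _ := by rw [mul_one]; exact hρ
  have hom' : ∀ (ω₀ : F.Ω) (j : Fin m), 0 ≤ omb F i₁ a' w' q ω₀ j ∧
      omb F i₁ a' w' q ω₀ j ≤ 1 / 2 ^ X := fun ω₀ j =>
    ⟨(omb_mem F i₁ a' w' q ω₀ j).1, (omb_mem F i₁ a' w' q ω₀ j).2.trans hom⟩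
  have hmx : ∀ (ω₀ : F.Ω) (τ : ℝ), 0 ≤ τ → τ ≤ 1 → ∀ j,
      0 ≤ mxp F i₁ w a' w' q ω₀ τ j ∧ mxp F i₁ w a' w' q ω₀ τ j ≤ 5 / 4 := by
    intro ω₀ τ h0 h1' j
    obtain ⟨a1, a2⟩ := tp_mem F hww hw ω₀ h0 h1'
    obtain ⟨c1, c2⟩ := hom' ω₀ j
    obtain ⟨y1, y2⟩ := yb_mem F i₁ a' w' ω₀ j
    unfold mxp
    split_ifs
    · constructor <;> linarith
    · have e1 : tp F w w' ω₀ τ * omb F i₁ a' w' q ω₀ j ≤ 1 * (1 / 2 ^ X) :=
        mul_le_mul a2 c2 c1 zero_le_one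
      have e2 := mul_nonneg a1 c1
      constructor <;> linarith
  have hpM : ∀ τ : ℝ, 0 ≤ τ → τ ≤ 1 → |p.eval τ| ≤ (2 * B1 + 2 * B2) * C₀ * (1 / 2 ^ X) := by
    intro τ h0 h1'
    have e1 := lpl_two F i₁ a w a' w' q P R R' ω τ
    have e2 := lpl_two F i₁ a w a' w' q P R R' ω' τ
    rw [← hc, ← hD, ← hc'] at e2
    have e3 := hu ω hl τ h0 h1'
    have e4 := hu ω' hl' τ h0 h1'
    have e5 := h2 _ C₀ (2 / 2 ^ X) (totalDegree_dif i₁ a w a' w' P (cw F i₁ a w ω)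
      (dq F i₁ q ω) (cw F i₁ a' w' ω) hR hR') hE (by
        have : (2 : ℝ) / 2 ^ X = 2 * (1 / 2 ^ X) := by ring
        rw [this]
        linarith) _ _ (hmx ω τ h0 h1') (hmx ω' τ h0 h1') (by
        intro j
        have d0 : (2 : ℝ) / 2 ^ X = 1 / 2 ^ X + 1 / 2 ^ X := by ring
        unfold mxp
        split_ifs
        · rw [sub_self, abs_zero]
          positivity
        · obtain ⟨a1, a2⟩ := tp_mem F hww hw ω h0 h1'
          have d1 : tp F w w' ω' τ = tp F w w' ω τ := by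
            unfold tp
            have : F.T1 w' ω = F.T1 w' ω' := by
              have e1 : ∀ ω₀ : F.Ω, F.T1 w' ω₀ = F.T1 w ω₀ / 2 ^ (w - w') := by
                intro ω₀
                unfold Fam.T1
                rw [Nat.div_div_eq_div_mul, ← pow_add]
                congr 2
                omega
              rw [e1, e1, hT]
            rw [hT, this]
          rw [d1]
          obtain ⟨c1, c2⟩ := hom' ω j
          obtain ⟨c3, c4⟩ := hom' ω' j
          have d2 : |tp F w w' ω τ * omb F i₁ a' w' q ω j -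
              tp F w w' ω τ * omb F i₁ a' w' q ω' j| ≤ 1 / 2 ^ X := by
            rw [← mul_sub, abs_mul, abs_of_nonneg a1]
            have d3 : |omb F i₁ a' w' q ω j - omb F i₁ a' w' q ω' j| ≤ 1 / 2 ^ X := by
              rw [abs_le]
              constructor <;> linarith
            calc _ ≤ 1 * (1 / 2 ^ X) := mul_le_mul a2 d3 (abs_nonneg _) zero_le_one
              _ = _ := one_mul _
          have d4 := hy j
          rw [d0]
          have d5 : (yb F i₁ a' w' ω j + tp F w w' ω τ * omb F i₁ a' w' q ω j) -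
              (yb F i₁ a' w' ω' j + tp F w w' ω τ * omb F i₁ a' w' q ω' j) =
              (yb F i₁ a' w' ω j - yb F i₁ a' w' ω' j) +
              (tp F w w' ω τ * omb F i₁ a' w' q ω j - tp F w w' ω τ * omb F i₁ a' w' q ω' j) := by
            ring
          rw [d5]
          exact (abs_add_le _ _).trans (add_le_add d4 d2))
    have e6 : p.eval τ = ((lpl F i₁ a' w' q P R' ω).eval (tp F w w' ω τ) -
        (lpl F i₁ a' w' q P R' ω).eval (tp F w w' ω 0)) -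
        ((lpl F i₁ a' w' q P R' ω').eval (tp F w w' ω' τ) -
        (lpl F i₁ a' w' q P R' ω').eval (tp F w w' ω' 0)) +
        (eval (mxp F i₁ w a' w' q ω τ) (dif i₁ a w a' w' P (cw F i₁ a w ω)
          (dq F i₁ q ω) (cw F i₁ a' w' ω) R R') -
        eval (mxp F i₁ w a' w' q ω' τ) (dif i₁ a w a' w' P (cw F i₁ a w ω)
          (dq F i₁ q ω) (cw F i₁ a' w' ω) R R')) := by
      rw [hp, Polynomial.eval_sub, Polynomial.eval_sub, Polynomial.eval_C, e1, e2]
      ring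
    rw [e6]
    have e7 := abs_add_le (((lpl F i₁ a' w' q P R' ω).eval (tp F w w' ω τ) -
        (lpl F i₁ a' w' q P R' ω).eval (tp F w w' ω 0)) -
        ((lpl F i₁ a' w' q P R' ω').eval (tp F w w' ω' τ) -
        (lpl F i₁ a' w' q P R' ω').eval (tp F w w' ω' 0)))
        (eval (mxp F i₁ w a' w' q ω τ) (dif i₁ a w a' w' P (cw F i₁ a w ω)
          (dq F i₁ q ω) (cw F i₁ a' w' ω) R R') -
        eval (mxp F i₁ w a' w' q ω' τ) (dif i₁ a w a' w' P (cw F i₁ a w ω)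
          (dq F i₁ q ω) (cw F i₁ a' w' ω) R R'))
    have e8 := abs_sub ((lpl F i₁ a' w' q P R' ω).eval (tp F w w' ω τ) -
        (lpl F i₁ a' w' q P R' ω).eval (tp F w w' ω 0))
        ((lpl F i₁ a' w' q P R' ω').eval (tp F w w' ω' τ) -
        (lpl F i₁ a' w' q P R' ω').eval (tp F w w' ω' 0))
    have e9 : B2 * C₀ * (2 / 2 ^ X) = 2 * B2 * C₀ * (1 / 2 ^ X) := by ring
    rw [e9] at e5
    have e10 : (2 * B1 + 2 * B2) * C₀ * (1 / 2 ^ X) = 2 * (B1 * C₀ * (1 / 2 ^ X)) +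
        2 * B2 * C₀ * (1 / 2 ^ X) := by ring
    rw [e10]
    linarith
  have h4 := h3 p _ hpK hpM i hiK
  have h5 : p.coeff i = (lpl F i₁ a w q P R ω).coeff i - (lpl F i₁ a w q P R ω').coeff i := by
    rw [hp, Polynomial.coeff_sub, Polynomial.coeff_sub, Polynomial.coeff_C,
      if_neg (by omega), sub_zero]
  rw [h5] at h4
  refine h4.trans (le_of_eq ?_)
  ring

/-- The digits of two near numbers. -/
theorem floor_near {x y r : ℝ} (h : |x - y| ≤ r) : |((⌊x⌋ - ⌊y⌋ : ℤ) : ℝ)| ≤ r + 1 := by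
  push_cast
  have h1 := Int.floor_le x
  have h2 := Int.lt_floor_add_one x
  have h3 := Int.floor_le y
  have h4 := Int.lt_floor_add_one y
  rw [abs_le] at h ⊢
  constructor <;> linarith [h.1, h.2]

/-- **(hv)** Entropy form: the coefficients of order at least one of the line polynomial, `X`
digits, given the two contexts and `X` digits of the position in the box of the large window. -/
theorem v_ent (m K : ℕ) (C₀ : ℝ) (hC₀ : 0 ≤ C₀) : ∃ B : ℝ, 0 ≤ B ∧ ∀ (J : ℕ) (F : Fam m J)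
    (i₁ : Fin m) (a w a' w' q P e X : ℕ)
    (H H' : ((Fin m → ℝ) × (Fin m → ℝ)) × F.ζ × ℕ → MvPolynomial (Fin m) ℝ) (p : F.Ω → ℝ)
    (S : Type) (W : F.Ω → S), IsLaw p → 1 ≤ K → w' + X ≤ w → w ≤ J → a' + X ≤ q + w' → 3 ≤ X →
    (∀ ω, 0 < p ω → (∀ b : Fin m → ℝ, (∀ i, 0 ≤ b i ∧ b i ≤ 1) →
      |eval b (dif i₁ a w a' w' e (cw F i₁ a w ω) (dq F i₁ q ω) (cw F i₁ a' w' ω)
        (Rc F i₁ a w q K P H ω) (Rc F i₁ a' w' q K P H' ω))| ≤ C₀) ∧
      ∀ s : ℝ, 0 ≤ s → s ≤ 1 → |(cl F i₁ a' w' q K P e H' ω).eval s| ≤ C₀) →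
    (∀ ω ω', 0 < p ω → 0 < p ω' → W ω = W ω' → ctx F i₁ a w q P H ω = ctx F i₁ a w q P H ω' ∧
      ctx F i₁ a' w' q P H' ω = ctx F i₁ a' w' q P H' ω' ∧
      ∀ j, ⌊(2 : ℝ) ^ X * yb F i₁ a' w' ω j⌋ = ⌊(2 : ℝ) ^ X * yb F i₁ a' w' ω' j⌋) →
    CH p (fun ω => fun i : Fin K => ⌊(2 : ℝ) ^ X * (cl F i₁ a w q K P e H ω).coeff (i + 1)⌋) W ≤
      B := by
  obtain ⟨B, hB, h⟩ := vdet m K
  refine ⟨K * Real.log (2 * (B * C₀ + 1) + 1), ?_, ?_⟩
  · have : 0 ≤ Real.log (2 * (B * C₀ + 1) + 1) := Real.log_nonneg (by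
      have : 0 ≤ B * C₀ := by positivity
      linarith)
    positivity
  intro J F i₁ a w a' w' q P e X H H' p S W hp hK hX hw hq hX3 hA hW
  have hXp : (0 : ℝ) < 2 ^ X := by positivity
  have h1 := CH_le_vec hp.nonneg hp.sum_one
    (fun ω => fun i : Fin K => ⌊(2 : ℝ) ^ X * (cl F i₁ a w q K P e H ω).coeff (i + 1)⌋) W
    (fun _ => B * C₀ + 1) (by
      intro ω ω' hω hω' hWW i
      obtain ⟨w1, w2, w3⟩ := hW ω ω' hω hω' hWW
      obtain ⟨x1, -, -, x4, x5, -, x7, -⟩ := ctx_ext w1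
      obtain ⟨-, -, -, y4, -, -, y7, -⟩ := ctx_ext w2
      have hy : ∀ j, |yb F i₁ a' w' ω j - yb F i₁ a' w' ω' j| ≤ 1 / 2 ^ X := by
        intro j
        have e1 := Int.floor_le ((2 : ℝ) ^ X * yb F i₁ a' w' ω j)
        have e2 := Int.lt_floor_add_one ((2 : ℝ) ^ X * yb F i₁ a' w' ω j)
        have e3 := Int.floor_le ((2 : ℝ) ^ X * yb F i₁ a' w' ω' j)
        have e4 := Int.lt_floor_add_one ((2 : ℝ) ^ X * yb F i₁ a' w' ω' j)
        rw [w3 j] at e1 e2
        have e5 : |(2 : ℝ) ^ X * (yb F i₁ a' w' ω j - yb F i₁ a' w' ω' j)| ≤ 1 := by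
          rw [abs_le]
          constructor <;> linarith
        rw [abs_mul, abs_of_pos hXp] at e5
        rw [le_div_iff₀ hXp, mul_comm]
        exact e5
      have k1 := (hA ω hω).2
      have k2 := (hA ω' hω').2
      unfold cl at k1 k2 ⊢
      rw [← y7 K] at k2
      have h2 := h J F i₁ a w a' w' q e X C₀ (Rc F i₁ a w q K P H ω)
        (Rc F i₁ a' w' q K P H' ω) ω ω' hK (totalDegree_rdz _ _ _) (totalDegree_rdz _ _ _)
        x4 x5 y4 x1 hX hw hq hX3 (hA ω hω).1 k1 k2 hy (i + 1) (by omega) (by omega)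
      rw [← x7 K]
      refine floor_near ?_
      rw [← mul_sub, abs_mul, abs_of_pos hXp]
      calc _ ≤ (2 : ℝ) ^ X * (B * C₀ / 2 ^ X) := mul_le_mul_of_nonneg_left h2 hXp.le
        _ = B * C₀ := by field_simp)
  rw [Ex_const hp.sum_one] at h1
  exact h1

end Pool.SLO
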