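import Pool.Agent.H81.SLP.Ctx3

/-!
# Contexts of the slope law: two windows, the position and the height

The digits of the position in the box of the small window are functions of the two contexts and of
the position in the box of the large window (`y_ent`); the heights over the centres of the two
boxes are functions of each other, given the contexts, the time and the shape (`nu_two`, `nu_ent`).
-/

set_option autoImplicit false

namespace Pool.SLO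

open Finset Real MvPolynomial
open Pool.Agent.H49.Ent Pool.Agent.H32.Dense Pool.STK Pool.KA Pool.KSAT Pool.K2S Pool.PB

section two

variable {m J : ℕ}

/-- The corner of the box `(a', w')` in the box `(a, w)`; it does not move. -/
noncomputable def zc (F : Fam m J) (i₁ : Fin m) (a w a' w' q : ℕ) (ω : F.Ω) : Fin m → ℝ := fun j =>
  if j = i₁ then 0 else -(2 ^ a * (cw F i₁ a w ω j - cw F i₁ a' w' ω j -
    dq F i₁ q ω j * (cw F i₁ a w ω i₁ - cw F i₁ a' w' ω i₁)))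

/-- The base point of the corner of the box, at the time of the sample. -/
noncomputable def cbp (F : Fam m J) (i₁ : Fin m) (a w q : ℕ) (ω : F.Ω) : Fin m → ℝ :=
  sb i₁ a w (cw F i₁ a w ω) (dq F i₁ q ω) (pnt i₁ 0 0 (F.tw w ω))

theorem t_eq (F : Fam m J) (w : ℕ) (ω : F.Ω) :
    (F.T1 w ω : ℝ) / 2 ^ w + F.tw w ω / 2 ^ w = F.t ω := by
  unfold Fam.tw
  field_simp
  ring

/-- The corner of the box `(a', w')` at the time of the sample, in the box `(a, w)`. -/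
theorem sb_zc (F : Fam m J) (i₁ : Fin m) (a w a' w' q : ℕ) (ω : F.Ω) :
    sb i₁ a w (cw F i₁ a w ω) (dq F i₁ q ω) (pnt i₁ (zc F i₁ a w a' w' q ω) 0 (F.tw w ω)) =
      cbp F i₁ a' w' q ω := by
  have h1 := t_eq F w ω
  have h2 := t_eq F w' ω
  have c1 : cw F i₁ a w ω i₁ = (F.T1 w ω : ℝ) / 2 ^ w := by
    unfold cw
    rw [if_pos rfl]
  have c2 : cw F i₁ a' w' ω i₁ = (F.T1 w' ω : ℝ) / 2 ^ w' := by
    unfold cw
    rw [if_pos rfl]
  funext j
  unfold cbp sb pnt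
  by_cases hj : j = i₁
  · simp only [hj, if_true]
    rw [c1, c2, h1, h2]
  · simp only [hj, if_false, if_true]
    have hz : zc F i₁ a w a' w' q ω j = -(2 ^ a * (cw F i₁ a w ω j - cw F i₁ a' w' ω j -
        dq F i₁ q ω j * (cw F i₁ a w ω i₁ - cw F i₁ a' w' ω i₁))) := by
      unfold zc
      rw [if_neg hj]
    rw [hz, c1, c2]
    simp only [Pi.zero_apply, mul_zero, add_zero, zero_div]
    have e1 : -(2 ^ a * (cw F i₁ a w ω j - cw F i₁ a' w' ω j -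
        dq F i₁ q ω j * ((F.T1 w ω : ℝ) / 2 ^ w - (F.T1 w' ω : ℝ) / 2 ^ w'))) / 2 ^ a =
        -(cw F i₁ a w ω j - cw F i₁ a' w' ω j -
        dq F i₁ q ω j * ((F.T1 w ω : ℝ) / 2 ^ w - (F.T1 w' ω : ℝ) / 2 ^ w')) := by
      field_simp
    rw [e1]
    have e2 : F.tw w ω / 2 ^ w = F.t ω - (F.T1 w ω : ℝ) / 2 ^ w := by linarith
    have e3 : F.tw w' ω / 2 ^ w' = F.t ω - (F.T1 w' ω : ℝ) / 2 ^ w' := by linarith
    rw [e2, e3]
    ring

/-- The time in the large window. -/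
theorem tp_tw (F : Fam m J) (w w' : ℕ) (ω : F.Ω) : tp F w w' ω (F.tw w ω) = F.tw w' ω := by
  unfold tp Fam.tw
  field_simp
  ring

/-- The corner of the box `(a', w')` is near the box `(a, w)`. -/
theorem zc_le (F : Fam m J) (i₁ : Fin m) {a w a' w' q : ℕ} (hww : w' ≤ w) (hw : w ≤ J)
    (haa : a ≤ a') (hq : a' + 3 ≤ q + w') (ω : F.Ω) (j : Fin m) :
    |zc F i₁ a w a' w' q ω j| ≤ 2 := by
  by_cases hj : j = i₁
  · unfold zc
    rw [if_pos hj, abs_zero]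
    norm_num
  · have h1 := congrFun (toS_mxp F i₁ a w a' w' q ω 0) j
    unfold toS pnt at h1
    rw [if_neg hj, if_neg hj, zero_mul, add_zero] at h1
    have h2 : zc F i₁ a w a' w' q ω j = yb F i₁ a w ω j -
        2 ^ a / 2 ^ a' * mxp F i₁ w a' w' q ω 0 j := by
      rw [← h1]
      unfold zc
      rw [if_neg hj]
      ring
    obtain ⟨y1, y2⟩ := yb_mem F i₁ a w ω j
    obtain ⟨y3, y4⟩ := yb_mem F i₁ a' w' ω j
    obtain ⟨t1, t2⟩ := tp_mem F hww hw ω (le_refl (0 : ℝ)) zero_le_one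
    obtain ⟨o1, o2⟩ := omb_mem F i₁ a' w' q ω j
    have h3 : (2 : ℝ) ^ a' / (2 ^ w' * 2 ^ q) ≤ 1 / 8 := by
      rw [div_le_div_iff₀ (by positivity) (by norm_num), one_mul, ← pow_add]
      calc (2 : ℝ) ^ a' * 8 = 2 ^ (a' + 3) := by
            rw [pow_add]
            norm_num
        _ ≤ 2 ^ (w' + q) := pow_le_pow_right₀ (by norm_num) (by omega)
    have h4 : (2 : ℝ) ^ a / 2 ^ a' ≤ 1 := by
      rw [div_le_one (by positivity)]
      exact pow_le_pow_right₀ (by norm_num) haa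
    have h5 : 0 ≤ mxp F i₁ w a' w' q ω 0 j ∧ mxp F i₁ w a' w' q ω 0 j ≤ 9 / 8 := by
      unfold mxp
      rw [if_neg hj]
      have e1 : tp F w w' ω 0 * omb F i₁ a' w' q ω j ≤ 1 * (1 / 8) :=
        mul_le_mul t2 (o2.trans h3) o1 zero_le_one
      have e2 := mul_nonneg t1 o1
      constructor <;> linarith
    have h6 : 0 ≤ (2 : ℝ) ^ a / 2 ^ a' * mxp F i₁ w a' w' q ω 0 j :=
      mul_nonneg (by positivity) h5.1
    have h7 : (2 : ℝ) ^ a / 2 ^ a' * mxp F i₁ w a' w' q ω 0 j ≤ 1 * (9 / 8) :=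
      mul_le_mul h4 h5.2 h5.1 zero_le_one
    rw [h2, abs_le]
    constructor <;> linarith

/-- The corner of the box at the time of the sample is near the sample. -/
theorem cbp_near (F : Fam m J) (i₁ : Fin m) {a w q : ℕ} (hw : w ≤ J) (hq : a ≤ q + w)
    (ω : F.Ω) (j : Fin m) : |cbp F i₁ a w q ω j - bp F i₁ ω j| ≤ 2 / 2 ^ a := by
  rw [← sb_pb F i₁ a w q ω]
  have ha : (0 : ℝ) < 2 ^ a := by positivity
  unfold cbp pb
  by_cases hj : j = i₁
  · unfold sb pnt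
    simp only [hj, if_true, sub_self, abs_zero]
    positivity
  · unfold sb pnt
    simp only [hj, if_false, if_true, Pi.zero_apply, mul_zero, add_zero, zero_div]
    obtain ⟨y1, y2⟩ := yb_mem F i₁ a w ω j
    obtain ⟨o1, o2⟩ := omb_mem F i₁ a w q ω j
    have t01 := T1_real F hw ω
    have t0 : 0 ≤ F.tw w ω := by
      unfold Fam.tw
      linarith [t01.1]
    have t1 : F.tw w ω ≤ 1 := by
      unfold Fam.tw
      linarith [t01.2]
    have h3 : (2 : ℝ) ^ a / (2 ^ w * 2 ^ q) ≤ 1 := by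
      rw [div_le_one (by positivity), ← pow_add]
      exact pow_le_pow_right₀ (by norm_num) (by omega)
    have e1 : F.tw w ω * omb F i₁ a w q ω j ≤ 1 * 1 :=
      mul_le_mul t1 (o2.trans h3) o1 zero_le_one
    have e2 := mul_nonneg t0 o1
    have e3 : cw F i₁ a w ω j + dq F i₁ q ω j * (F.tw w ω / 2 ^ w) -
        (cw F i₁ a w ω j + dq F i₁ q ω j * (F.tw w ω / 2 ^ w) +
          (yb F i₁ a w ω j + F.tw w ω * omb F i₁ a w q ω j) / 2 ^ a) =
        -((yb F i₁ a w ω j + F.tw w ω * omb F i₁ a w q ω j) / 2 ^ a) := by ring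
    rw [e3, abs_neg, abs_of_nonneg (by positivity)]
    refine div_le_div_of_nonneg_right ?_ ha.le
    linarith

end two

section dat

variable {k J : ℕ}

/-- **The heights over the centres of two boxes.** -/
theorem nu_two {K : ℕ} (F : Fam (k + 1) J) (i₁ : Fin (k + 1)) (a w a' w' q P e : ℕ)
    (H H' : ((Fin (k + 1) → ℝ) × (Fin (k + 1) → ℝ)) × F.ζ × ℕ → MvPolynomial (Fin (k + 1)) ℝ)
    (Gf Gf' : F.Ω → MvPolynomial (Fin (k + 1)) ℝ) (ω : F.Ω) (hG : (Gf ω).totalDegree ≤ K) :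
    nuw F i₁ a' w' q K P e H' Gf' ω = nuw F i₁ a w q K P e H Gf ω +
      ∑ al : Pool.M5.Mon k K, shw F i₁ a w q K P e H Gf ω al *
        Pool.M5.mono (al : Fin k → ℕ) (fun j => zc F i₁ a w a' w' q ω (i₁.succAbove j)) +
      2 ^ e * (eval (cbp F i₁ a' w' q ω) (Gf' ω) - eval (cbp F i₁ a' w' q ω) (Gf ω)) -
      2 ^ e * (eval (pnt i₁ 0 0 (tp F w w' ω (F.tw w ω))) (Rc F i₁ a' w' q K P H' ω) -
        eval (pnt i₁ (zc F i₁ a w a' w' q ω) 0 (F.tw w ω)) (Rc F i₁ a w q K P H ω)) := by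
  have h1 := shp_eq (K := K) e i₁ (plb F i₁ a w q ω (Gf ω)) (Rc F i₁ a w q K P H ω)
    ((totalDegree_pull_le _ _ _ _ _ _).trans hG) (totalDegree_rdz _ _ _) (F.tw w ω)
    (zc F i₁ a w a' w' q ω)
  have h2 : ∑ al : Pool.M5.Mon k K, shw F i₁ a w q K P e H Gf ω al *
        Pool.M5.mono (al : Fin k → ℕ) (fun j => zc F i₁ a w a' w' q ω (i₁.succAbove j)) =
      shp e i₁ (plb F i₁ a w q ω (Gf ω)) (Rc F i₁ a w q K P H ω)
        (pnt i₁ (zc F i₁ a w a' w' q ω) 0 (F.tw w ω)) := h1.symm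
  have h3 : eval (pnt i₁ (zc F i₁ a w a' w' q ω) 0 (F.tw w ω)) (plb F i₁ a w q ω (Gf ω)) =
      eval (cbp F i₁ a' w' q ω) (Gf ω) := by
    unfold plb
    rw [eval_pull, sb_zc]
  have h4 : eval (pnt i₁ 0 0 (F.tw w' ω)) (plb F i₁ a' w' q ω (Gf' ω)) =
      eval (cbp F i₁ a' w' q ω) (Gf' ω) := by
    unfold plb
    rw [eval_pull]
    rfl
  have h5 : (pnt i₁ (zc F i₁ a w a' w' q ω) 0 (F.tw w ω)) i₁ = F.tw w ω := by
    unfold pnt
    rw [if_pos rfl]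
  rw [h2, tp_tw]
  unfold shp nuw
  rw [h3, h5]
  have h6 : nub e i₁ (plb F i₁ a' w' q ω (Gf' ω)) (Rc F i₁ a' w' q K P H' ω) (F.tw w' ω) =
      2 ^ e * (eval (cbp F i₁ a' w' q ω) (Gf' ω) -
        eval (pnt i₁ 0 0 (F.tw w' ω)) (Rc F i₁ a' w' q K P H' ω)) := by
    unfold nub
    rw [h4]
  rw [h6]
  ring

theorem abs_mono_le2 {K : ℕ} {al : Fin k → ℕ} (hal : al ∈ Pool.M5.Mon k K) {z : Fin k → ℝ}
    (hz : ∀ j, |z j| ≤ 2) : |Pool.M5.mono al z| ≤ 2 ^ K := by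
  unfold Pool.M5.Mon at hal
  rw [Finset.mem_filter] at hal
  unfold Pool.M5.mono
  rw [Finset.abs_prod]
  calc ∏ i, |z i ^ al i| ≤ ∏ i, (2 : ℝ) ^ al i := by
        refine Finset.prod_le_prod (fun i _ => abs_nonneg _) fun i _ => ?_
        rw [abs_pow]
        exact pow_le_pow_left₀ (abs_nonneg _) (hz i) _
    _ = 2 ^ ∑ i, al i := Finset.prod_pow_eq_pow_sum _ _ _
    _ ≤ 2 ^ K := pow_le_pow_right₀ (by norm_num) hal.2.2

/-- Equal digits. -/
theorem near_of_floor {X : ℕ} {x y : ℝ} (h : ⌊(2 : ℝ) ^ X * x⌋ = ⌊(2 : ℝ) ^ X * y⌋) :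
    |x - y| ≤ 1 / 2 ^ X := by
  have hX : (0 : ℝ) < 2 ^ X := by positivity
  have e1 := Int.floor_le ((2 : ℝ) ^ X * x)
  have e2 := Int.lt_floor_add_one ((2 : ℝ) ^ X * x)
  have e3 := Int.floor_le ((2 : ℝ) ^ X * y)
  have e4 := Int.lt_floor_add_one ((2 : ℝ) ^ X * y)
  rw [h] at e1 e2
  have e5 : |(2 : ℝ) ^ X * (x - y)| ≤ 1 := by
    rw [abs_le]
    constructor <;> linarith
  rw [abs_mul, abs_of_pos hX] at e5
  rw [le_div_iff₀ hX, mul_comm]
  exact e5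

/-- **Recentring of the height**, entropy form, in both directions. -/
theorem nu_ent (k K : ℕ) (C₀ : ℝ) (hC₀ : 0 ≤ C₀) : ∃ B : ℝ, 0 ≤ B ∧ ∀ (J : ℕ)
    (F : Fam (k + 1) J) (i₁ : Fin (k + 1)) (a w a' w' q P e X : ℕ)
    (H H' : ((Fin (k + 1) → ℝ) × (Fin (k + 1) → ℝ)) × F.ζ × ℕ → MvPolynomial (Fin (k + 1)) ℝ)
    (Gf Gf' : F.Ω → MvPolynomial (Fin (k + 1)) ℝ) (p : F.Ω → ℝ) (S : Type) (W : F.Ω → S),
    IsLaw p → w' ≤ w → w ≤ J → a ≤ a' → a' + 3 ≤ q + w' →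
    (∀ ω, 0 < p ω → (Gf ω).totalDegree ≤ K ∧
      |eval (cbp F i₁ a' w' q ω) (Gf' ω) - eval (cbp F i₁ a' w' q ω) (Gf ω)| ≤
        C₀ / 2 ^ (e + X)) →
    (∀ ω ω', 0 < p ω → 0 < p ω' → W ω = W ω' → ctx F i₁ a w q P H ω = ctx F i₁ a w q P H ω' ∧
      ctx F i₁ a' w' q P H' ω = ctx F i₁ a' w' q P H' ω' ∧ F.tw w ω = F.tw w ω' ∧
      shd F i₁ a w q K P e X H Gf ω = shd F i₁ a w q K P e X H Gf ω') →
    CH p (fun ω => ⌊(2 : ℝ) ^ X * nuw F i₁ a' w' q K P e H' Gf' ω⌋)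
      (fun ω => (⌊(2 : ℝ) ^ X * nuw F i₁ a w q K P e H Gf ω⌋, W ω)) ≤ B ∧
    CH p (fun ω => ⌊(2 : ℝ) ^ X * nuw F i₁ a w q K P e H Gf ω⌋)
      (fun ω => (⌊(2 : ℝ) ^ X * nuw F i₁ a' w' q K P e H' Gf' ω⌋, W ω)) ≤ B := by
  set E : ℝ := 1 + Fintype.card (Pool.M5.Mon k K) * 2 ^ K + 2 * C₀ with hE
  have hE0 : 0 ≤ E := by positivity
  refine ⟨Real.log (2 * (E + 1) + 1), Real.log_nonneg (by linarith), ?_⟩
  intro J F i₁ a w a' w' q P e X H H' Gf Gf' p S W hp hww hw haa hq hG hW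
  have hXp : (0 : ℝ) < 2 ^ X := by positivity
  have hep : (0 : ℝ) < 2 ^ e := by positivity
  -- the difference of the two heights is a function of `W` up to a small error
  have key : ∀ ω ω', 0 < p ω → 0 < p ω' → W ω = W ω' →
      |(nuw F i₁ a' w' q K P e H' Gf' ω - nuw F i₁ a w q K P e H Gf ω) -
        (nuw F i₁ a' w' q K P e H' Gf' ω' - nuw F i₁ a w q K P e H Gf ω')| ≤
        (E - 1) / 2 ^ X := by
    intro ω ω' hω hω' hWW
    obtain ⟨w1, w2, w3, w4⟩ := hW ω ω' hω hω' hWW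
    obtain ⟨x1, -, -, x4, x5, -, x7, -⟩ := ctx_ext w1
    obtain ⟨y1, -, -, y4, -, -, y7, -⟩ := ctx_ext w2
    obtain ⟨g1, g2⟩ := hG ω hω
    obtain ⟨g3, g4⟩ := hG ω' hω'
    have n1 := nu_two F i₁ a w a' w' q P e H H' Gf Gf' ω g1
    have n2 := nu_two F i₁ a w a' w' q P e H H' Gf Gf' ω' g3
    have hz : zc F i₁ a w a' w' q ω' = zc F i₁ a w a' w' q ω := by
      unfold zc
      rw [x4, x5, y4]
    have htp : tp F w w' ω' (F.tw w ω') = tp F w w' ω (F.tw w ω) := by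
      unfold tp
      rw [w3, x1, y1]
    rw [hz, htp, ← w3, ← x7 K, ← y7 K] at n2
    have s1 : |∑ al : Pool.M5.Mon k K, shw F i₁ a w q K P e H Gf ω al *
        Pool.M5.mono (al : Fin k → ℕ) (fun j => zc F i₁ a w a' w' q ω (i₁.succAbove j)) -
        ∑ al : Pool.M5.Mon k K, shw F i₁ a w q K P e H Gf ω' al *
        Pool.M5.mono (al : Fin k → ℕ) (fun j => zc F i₁ a w a' w' q ω (i₁.succAbove j))| ≤
        Fintype.card (Pool.M5.Mon k K) * 2 ^ K / 2 ^ X := by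
      rw [← Finset.sum_sub_distrib]
      refine (Finset.abs_sum_le_sum_abs _ _).trans ?_
      have : ∀ al ∈ (Finset.univ : Finset (Pool.M5.Mon k K)),
          |shw F i₁ a w q K P e H Gf ω al * Pool.M5.mono (al : Fin k → ℕ)
            (fun j => zc F i₁ a w a' w' q ω (i₁.succAbove j)) -
          shw F i₁ a w q K P e H Gf ω' al * Pool.M5.mono (al : Fin k → ℕ)
            (fun j => zc F i₁ a w a' w' q ω (i₁.succAbove j))| ≤ 2 ^ K / 2 ^ X := by
        intro al _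
        rw [← sub_mul, abs_mul]
        have e1 : |shw F i₁ a w q K P e H Gf ω al - shw F i₁ a w q K P e H Gf ω' al| ≤
            1 / 2 ^ X := near_of_floor (congrFun w4 al)
        have e2 := abs_mono_le2 (K := K) al.2
          (z := fun j => zc F i₁ a w a' w' q ω (i₁.succAbove j))
          (fun j => zc_le F i₁ hww hw haa hq ω _)
        calc _ ≤ 1 / 2 ^ X * 2 ^ K := mul_le_mul e1 e2 (abs_nonneg _) (by positivity)
          _ = _ := by ring
      refine (Finset.sum_le_sum this).trans (le_of_eq ?_)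
      rw [Finset.sum_const, Finset.card_univ, nsmul_eq_mul, mul_div_assoc]
    have s2 : ∀ ω₀, |eval (cbp F i₁ a' w' q ω₀) (Gf' ω₀) - eval (cbp F i₁ a' w' q ω₀) (Gf ω₀)| ≤
        C₀ / 2 ^ (e + X) → |2 ^ e * (eval (cbp F i₁ a' w' q ω₀) (Gf' ω₀) -
          eval (cbp F i₁ a' w' q ω₀) (Gf ω₀))| ≤ C₀ / 2 ^ X := by
      intro ω₀ h
      rw [abs_mul, abs_of_pos hep]
      calc (2 : ℝ) ^ e * _ ≤ 2 ^ e * (C₀ / 2 ^ (e + X)) := mul_le_mul_of_nonneg_left h hep.le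
        _ = C₀ / 2 ^ X := by
          rw [pow_add]
          field_simp
    have s3 := s2 ω g2
    have s4 := s2 ω' g4
    have e3 : (E - 1) / 2 ^ X = Fintype.card (Pool.M5.Mon k K) * 2 ^ K / 2 ^ X +
        (C₀ / 2 ^ X + C₀ / 2 ^ X) := by
      rw [hE]
      ring
    rw [n1, n2, e3]
    rw [abs_le] at s1 s3 s4 ⊢
    constructor <;> linarith [s1.1, s1.2, s3.1, s3.2, s4.1, s4.2]
  have hfin : ∀ (u v : F.Ω → ℝ), (∀ ω ω', 0 < p ω → 0 < p ω' → W ω = W ω' →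
      |(u ω - v ω) - (u ω' - v ω')| ≤ (E - 1) / 2 ^ X) →
      CH p (fun ω => ⌊(2 : ℝ) ^ X * u ω⌋) (fun ω => (⌊(2 : ℝ) ^ X * v ω⌋, W ω)) ≤
        Real.log (2 * (E + 1) + 1) := by
    intro u v huv
    have h1 := CH_le_int hp.nonneg hp.sum_one (fun ω => ⌊(2 : ℝ) ^ X * u ω⌋)
      (fun ω => (⌊(2 : ℝ) ^ X * v ω⌋, W ω)) (fun _ => E + 1) (by
        intro ω ω' hω hω' h
        obtain ⟨h1, h2⟩ := Prod.ext_iff.1 h
        have h3 := huv ω ω' hω hω' h2
        have h4 : |v ω - v ω'| ≤ 1 / 2 ^ X := near_of_floor h1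
        refine floor_near ?_
        have h5 : |u ω - u ω'| ≤ E / 2 ^ X := by
          have e1 : E / 2 ^ X = (E - 1) / 2 ^ X + 1 / 2 ^ X := by ring
          rw [e1]
          rw [abs_le] at h3 h4 ⊢
          constructor <;> linarith [h3.1, h3.2, h4.1, h4.2]
        rw [← mul_sub, abs_mul, abs_of_pos hXp]
        rw [le_div_iff₀ hXp, mul_comm] at h5
        exact h5)
    rw [Ex_const hp.sum_one] at h1
    exact h1
  refine ⟨hfin _ _ key, hfin _ _ fun ω ω' hω hω' hWW => ?_⟩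
  have h1 := key ω ω' hω hω' hWW
  rw [abs_le] at h1 ⊢
  constructor <;> linarith [h1.1, h1.2]

/-- **The position in the box of the small window**, `X` digits, given the two contexts and `X`
digits of the position in the box of the large window. -/
theorem y_ent (F : Fam (k + 1) J) (i₁ : Fin (k + 1)) (a w a' w' q P X : ℕ)
    (H H' : ((Fin (k + 1) → ℝ) × (Fin (k + 1) → ℝ)) × F.ζ × ℕ → MvPolynomial (Fin (k + 1)) ℝ)
    (p : F.Ω → ℝ) (S : Type) (W : F.Ω → S) (hp : IsLaw p) (hww : w' ≤ w) (hw : w ≤ J)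
    (haa : a ≤ a') (hq : a' + X ≤ q + w')
    (hW : ∀ ω ω', 0 < p ω → 0 < p ω' → W ω = W ω' →
      ctx F i₁ a w q P H ω = ctx F i₁ a w q P H ω' ∧
      ctx F i₁ a' w' q P H' ω = ctx F i₁ a' w' q P H' ω' ∧
      ∀ j, ⌊(2 : ℝ) ^ X * yb F i₁ a' w' ω j⌋ = ⌊(2 : ℝ) ^ X * yb F i₁ a' w' ω' j⌋) :
    CH p (fun ω => (fun j => ⌊(2 : ℝ) ^ X * yt F i₁ a w ω j⌋ : Fin k → ℤ)) W ≤
      k * Real.log 7 := by
  have hXp : (0 : ℝ) < 2 ^ X := by positivity
  have h1 := CH_le_vec hp.nonneg hp.sum_one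
    (fun ω => (fun j => ⌊(2 : ℝ) ^ X * yt F i₁ a w ω j⌋ : Fin k → ℤ)) W (fun _ => 3) (by
      intro ω ω' hω hω' hWW j
      obtain ⟨w1, w2, w3⟩ := hW ω ω' hω hω' hWW
      obtain ⟨x1, -, x3, x4, -, -, -, -⟩ := ctx_ext w1
      obtain ⟨y1, -, -, y4, -, -, -, -⟩ := ctx_ext w2
      have hne : i₁.succAbove j ≠ i₁ := Fin.succAbove_ne i₁ j
      set j' := i₁.succAbove j with hj'
      -- the position at the beginning of the large window
      have p1 : |yb F i₁ a' w' ω j' - yb F i₁ a' w' ω' j'| ≤ 1 / 2 ^ X := near_of_floor (w3 j')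
      have p2 : |F.x1 w' ω j' - F.x1 w' ω' j'| ≤ 1 / 2 ^ (a' + X) := by
        have ha : (0 : ℝ) < 2 ^ a' := by positivity
        have e1 : yb F i₁ a' w' ω j' - yb F i₁ a' w' ω' j' =
            2 ^ a' * (F.x1 w' ω j' - F.x1 w' ω' j') := by
          unfold yb
          rw [if_neg hne, if_neg hne, y4]
          ring
        rw [e1, abs_mul, abs_of_pos ha] at p1
        rw [pow_add, le_div_iff₀ (by positivity)]
        rw [le_div_iff₀ hXp] at p1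
        linarith
      -- the direction
      have p3 : |F.d ω j' - F.d ω' j'| ≤ 1 / 2 ^ q := by
        have e1 : ⌊(2 : ℝ) ^ q * F.d ω j'⌋ = ⌊(2 : ℝ) ^ q * F.d ω' j'⌋ := by
          have := congrFun x3 j'
          unfold cld at this
          rw [if_neg hne, if_neg hne] at this
          exact this
        exact near_of_floor e1
      have p4 : |(F.T1 w ω : ℝ) / 2 ^ w - (F.T1 w' ω : ℝ) / 2 ^ w'| ≤ 1 / 2 ^ w' := by
        obtain ⟨t1, t2⟩ := tp_mem F hww hw ω (le_refl (0 : ℝ)) zero_le_one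
        unfold tp at t1 t2
        rw [mul_zero, add_zero] at t1 t2
        have hw' : (0 : ℝ) < 2 ^ w' := by positivity
        have e1 : 0 ≤ (F.T1 w ω : ℝ) / 2 ^ w - (F.T1 w' ω : ℝ) / 2 ^ w' :=
          nonneg_of_mul_nonneg_right t1 hw'
        rw [abs_of_nonneg e1, le_div_iff₀ hw', mul_comm]
        exact t2
      have p5 : |F.x1 w ω j' - F.x1 w ω' j'| ≤ 2 / 2 ^ (a + X) := by
        have e1 := x1_sub F w w' ω j'
        have e2 := x1_sub F w w' ω' j'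
        rw [← x1, ← y1] at e2
        have e3 : F.x1 w ω j' - F.x1 w ω' j' = (F.x1 w' ω j' - F.x1 w' ω' j') +
            ((F.T1 w ω : ℝ) / 2 ^ w - (F.T1 w' ω : ℝ) / 2 ^ w') * (F.d ω j' - F.d ω' j') := by
          rw [e1, e2]
          ring
        have e4 : |((F.T1 w ω : ℝ) / 2 ^ w - (F.T1 w' ω : ℝ) / 2 ^ w') *
            (F.d ω j' - F.d ω' j')| ≤ 1 / 2 ^ (a' + X) := by
          rw [abs_mul]
          calc _ ≤ 1 / 2 ^ w' * (1 / 2 ^ q) := mul_le_mul p4 p3 (abs_nonneg _) (by positivity)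
            _ = 1 / 2 ^ (w' + q) := by
              rw [pow_add]
              field_simp
            _ ≤ 1 / 2 ^ (a' + X) := inv_mono (by omega)
        have e5 : (1 : ℝ) / 2 ^ (a' + X) ≤ 1 / 2 ^ (a + X) := inv_mono (by omega)
        have e6 : (2 : ℝ) / 2 ^ (a + X) = 1 / 2 ^ (a + X) + 1 / 2 ^ (a + X) := by ring
        rw [e3, e6]
        refine (abs_add_le _ _).trans (add_le_add (p2.trans e5) (e4.trans e5))
      have p6 : |yt F i₁ a w ω j - yt F i₁ a w ω' j| ≤ 2 / 2 ^ X := by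
        have ha : (0 : ℝ) < 2 ^ a := by positivity
        have e1 : yt F i₁ a w ω j - yt F i₁ a w ω' j =
            2 ^ a * (F.x1 w ω j' - F.x1 w ω' j') := by
          unfold yt yb
          rw [if_neg hne, if_neg hne, x4]
          ring
        rw [e1, abs_mul, abs_of_pos ha]
        calc (2 : ℝ) ^ a * _ ≤ 2 ^ a * (2 / 2 ^ (a + X)) :=
              mul_le_mul_of_nonneg_left p5 ha.le
          _ = 2 / 2 ^ X := by
            rw [pow_add]
            field_simp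
      have p7 : (3 : ℝ) = 2 + 1 := by norm_num
      rw [p7]
      refine floor_near ?_
      rw [← mul_sub, abs_mul, abs_of_pos hXp]
      rw [le_div_iff₀ hXp, mul_comm] at p6
      exact p6)
  rw [Ex_const hp.sum_one] at h1
  refine h1.trans (le_of_eq ?_)
  norm_num

/-- **The digits of the line** (position and unknown numbers) given the two contexts and the
position in the box of the large window. -/
theorem yc_ent (k K : ℕ) (C₀ : ℝ) (hC₀ : 0 ≤ C₀) : ∃ B : ℝ, 0 ≤ B ∧ ∀ (J : ℕ)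
    (F : Fam (k + 1) J) (i₁ : Fin (k + 1)) (a w a' w' q P e X : ℕ)
    (H H' : ((Fin (k + 1) → ℝ) × (Fin (k + 1) → ℝ)) × F.ζ × ℕ → MvPolynomial (Fin (k + 1)) ℝ)
    (p : F.Ω → ℝ) (S : Type) (W : F.Ω → S), IsLaw p → 1 ≤ K → w' + X ≤ w → w ≤ J → a ≤ a' →
    a' + X ≤ q + w' → 3 ≤ X →
    (∀ ω, 0 < p ω → (∀ b : Fin (k + 1) → ℝ, (∀ i, 0 ≤ b i ∧ b i ≤ 1) →
      |eval b (dif i₁ a w a' w' e (cw F i₁ a w ω) (dq F i₁ q ω) (cw F i₁ a' w' ω)
        (Rc F i₁ a w q K P H ω) (Rc F i₁ a' w' q K P H' ω))| ≤ C₀) ∧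
      ∀ s : ℝ, 0 ≤ s → s ≤ 1 → |(cl F i₁ a' w' q K P e H' ω).eval s| ≤ C₀) →
    (∀ ω ω', 0 < p ω → 0 < p ω' → W ω = W ω' → ctx F i₁ a w q P H ω = ctx F i₁ a w q P H ω' ∧
      ctx F i₁ a' w' q P H' ω = ctx F i₁ a' w' q P H' ω' ∧
      (fun j => ⌊(2 : ℝ) ^ X * yt F i₁ a' w' ω j⌋ : Fin k → ℤ) =
        (fun j => ⌊(2 : ℝ) ^ X * yt F i₁ a' w' ω' j⌋)) →
    CH p (fun ω => ((fun j => ⌊(2 : ℝ) ^ X * yt F i₁ a w ω j⌋ : Fin k → ℤ),
      (fun i => ⌊(2 : ℝ) ^ X * (cl F i₁ a w q K P e H ω).coeff (i.val + 1)⌋ : Fin K → ℤ))) W ≤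
      B := by
  obtain ⟨B, hB0, hB⟩ := v_ent (k + 1) K C₀ hC₀
  refine ⟨k * Real.log 7 + B, by
    have := Real.log_nonneg (show (1 : ℝ) ≤ 7 by norm_num)
    positivity, ?_⟩
  intro J F i₁ a w a' w' q P e X H H' p S W hp hK hX hw haa hq hX3 hs hW
  have hW' : ∀ ω ω', 0 < p ω → 0 < p ω' → W ω = W ω' →
      ctx F i₁ a w q P H ω = ctx F i₁ a w q P H ω' ∧
      ctx F i₁ a' w' q P H' ω = ctx F i₁ a' w' q P H' ω' ∧
      ∀ j, ⌊(2 : ℝ) ^ X * yb F i₁ a' w' ω j⌋ = ⌊(2 : ℝ) ^ X * yb F i₁ a' w' ω' j⌋ := by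
    intro ω ω' hω hω' h
    obtain ⟨w1, w2, w3⟩ := hW ω ω' hω hω' h
    refine ⟨w1, w2, fun j => ?_⟩
    refine Fin.succAboveCases (α := fun j => ⌊(2 : ℝ) ^ X * yb F i₁ a' w' ω j⌋ =
      ⌊(2 : ℝ) ^ X * yb F i₁ a' w' ω' j⌋) i₁ ?_ (fun j => ?_) j
    · unfold yb
      rw [if_pos rfl, if_pos rfl]
    · exact congrFun w3 j
  have h1 := y_ent F i₁ a w a' w' q P X H H' p S W hp (by omega) hw haa hq hW'
  have h2 := hB J F i₁ a w a' w' q P e X H H' p S W hp hK hX hw hq hX3 hs hW'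
  rw [CH_chain hp.nonneg]
  have h3 : CH p (fun ω => (fun j => ⌊(2 : ℝ) ^ X * yt F i₁ a w ω j⌋ : Fin k → ℤ))
      (fun ω => ((fun i => ⌊(2 : ℝ) ^ X * (cl F i₁ a w q K P e H ω).coeff (i.val + 1)⌋ :
        Fin K → ℤ), W ω)) ≤
      CH p (fun ω => (fun j => ⌊(2 : ℝ) ^ X * yt F i₁ a w ω j⌋ : Fin k → ℤ)) W :=
    CH_mono_cond hp.nonneg fun ω ω' _ _ h => (Prod.ext_iff.1 h).2
  linarith

end dat

end Pool.SLO
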